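import Pool.Agent.Y190.SC.Fin
import Pool.Agent.TH152.DS.LangDefs

/-!
The transfer to quasi-projective varieties which are generically finite over their image in
projective space.
-/

set_option autoImplicit false

open MvPolynomial Metric Filter Topology

namespace Pool.Agent.K9h12.VH

open Pool.Agent.W602.Cov Pool.Agent.W602.Cov.Cover Pool.Agent.W602.Cov.R Pool.Agent.W603.BP
open Pool.Agent.W601.PH Pool.Agent.W602.GT
open Pool.Agent.TH152.HY hiding main
open Pool.Agent.Y191 (SemiAbelianOff semi_of_brody)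
open Pool.Agent.Y190.SC (FiniteOver)
open Pool.Agent.TH152.DS (Effective UniformOverPn)

variable {N n : ℕ}

/-- the function fields of the subvarieties are finitely generated -/
theorem ess_of_gen' {L : Type} [Field L] [Algebra ℂ L] {a : Fin (N + 1) → L} {b : Fin (n + 1) → L}
    (hgen : IntermediateField.adjoin ℂ
      ({f : L | ∃ i j, a j ≠ 0 ∧ f = a i / a j} ∪ {f : L | ∃ i j, b j ≠ 0 ∧ f = b i / b j}) = ⊤) :
    Algebra.EssFiniteType ℂ L := by
  rw [← IntermediateField.fg_top_iff]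
  have hfin : ({f : L | ∃ i j, a j ≠ 0 ∧ f = a i / a j} ∪
      {f : L | ∃ i j, b j ≠ 0 ∧ f = b i / b j}).Finite := by
    refine Set.Finite.union ?_ ?_
    · refine (Set.finite_range fun p : Fin (N + 1) × Fin (N + 1) => a p.1 / a p.2).subset ?_
      rintro z ⟨i, j, -, rfl⟩
      exact ⟨(i, j), rfl⟩
    · refine (Set.finite_range fun p : Fin (n + 1) × Fin (n + 1) => b p.1 / b p.2).subset ?_
      rintro z ⟨i, j, -, rfl⟩
      exact ⟨(i, j), rfl⟩
  refine ⟨hfin.toFinset, ?_⟩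
  rw [Set.Finite.coe_toFinset]
  exact hgen

/-- a form in the second group of variables at a point -/
theorem aeval_inr' {L : Type} [Field L] [Algebra ℂ L] (P : MvPolynomial (Fin (n + 1)) ℂ)
    (a : Fin (N + 1) → L) (b : Fin (n + 1) → L) :
    aeval (Sum.elim a b) (rename Sum.inr P : BiPoly N n) = aeval b P := by
  rw [aeval_rename]
  rfl

/-- the product of a bihomogeneous polynomial and a form in the second group of variables -/
theorem biHom_mul {G1 : BiPoly N n} {a1 b1 : ℕ} (h1 : BiHom G1 a1 b1) {G2 : BiPoly N n} {a2 b2 : ℕ}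
    (h2 : BiHom G2 a2 b2) : BiHom (G1 * G2) (a1 + a2) (b1 + b2) := by
  have := IsWeightedHomogeneous.mul h1 h2
  exact this

/-- a bihomogeneous polynomial which does not vanish at the generic point -/
theorem exists_pt {X D : BiSet N n} {K : Type} [Field K] [Algebra ℂ K] {x : Fin (N + 1) → K}
    {y : Fin (n + 1) → K} (hK : X.FunctionField K x y) (hD : ¬ D.Mem x y) {G : BiPoly N n}
    {a b : ℕ} (hG : BiHom G a b) (hne : aeval (Sum.elim x y) G ≠ 0) :
    ∃ u v, QMem X D u v ∧ eval (Sum.elim u v) G ≠ 0 := by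
  have h1 : ∃ F ∈ D.eqs, aeval (Sum.elim x y) F ≠ 0 := by
    by_contra hcon
    push Not at hcon
    exact hD ⟨hK.mem.1, hK.mem.2.1, hcon⟩
  obtain ⟨F, hF, hFab⟩ := h1
  obtain ⟨e, e', he⟩ := D.hom F hF
  by_contra hcon
  push Not at hcon
  have h3 := (hK.van _ _ _ (biHom_mul he hG)).2 (fun u v huv => by
    rw [map_mul]
    by_cases hFv : eval (Sum.elim u v) F = 0
    · rw [hFv, zero_mul]
    · rw [hcon u v ⟨huv, fun hd => hFv (hd.2.2 F hF)⟩, mul_zero])
  rw [map_mul] at h3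
  exact mul_ne_zero hFab hne h3

/-- **The transfer.** -/
theorem bi_transfer {X D : BiSet N n} {K : Type} [Field K] [Algebra ℂ K] {x : Fin (N + 1) → K}
    {y : Fin (n + 1) → K} (hK : X.FunctionField K x y) (hD : ¬ D.Mem x y)
    (halg : Algebra.IsAlgebraic
      (IntermediateField.adjoin ℂ {f : K | ∃ i j, y j ≠ 0 ∧ f = y i / y j}) K)
    {G1 : BiPoly N n} {a1 b1 : ℕ} (hG1 : BiHom G1 a1 b1) (hG1x : aeval (Sum.elim x y) G1 ≠ 0)
    {Q1 : MvPolynomial (Fin (n + 1)) ℂ} {E1 : ℕ} (hQ1 : Q1.IsHomogeneous E1)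
    (hy : aeval y Q1 ≠ 0) {R : ℕ}
    (hL : ∀ (L : Type) [Field L] [Algebra ℂ L] (x' : Fin (N + 1) → L) (y' : Fin (n + 1) → L)
      (d : ℕ), X.Mem x' y' → aeval (Sum.elim x' y') G1 ≠ 0 → aeval y' Q1 ≠ 0 →
      Algebra.EssFiniteType ℂ L →
      Algebra.IsAlgebraic
        (IntermediateField.adjoin ℂ {f : L | ∃ i j, y' j ≠ 0 ∧ f = y' i / y' j}) L →
      Algebra.trdeg ℂ L = d → 0 < d → LogGeneralType ℂ L d (CentreIn D x' y') ∧
        Effective L R d (CentreIn D x' y') y')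
    {t : ℕ} (ht : Algebra.trdeg ℂ K = t) (ht1 : 0 < t) :
    ∃ (G : BiPoly N n) (E E' : ℕ), BiHom G E E' ∧
      (∃ u v, QMem X D u v ∧ eval (Sum.elim u v) G ≠ 0) ∧
      LogGeneralType ℂ K t (CentreIn D x y) ∧ LangOff X D G ∧ UniformOverPn X D G R ∧
      ((∀ u v, QDisc X D u v → (∃ z ∈ PB 1, eval (Sum.elim (u z) (v z)) G1 ≠ 0) →
        (∃ z ∈ PB 1, aeval (v z) Q1 ≠ 0) → Extends v) →
        PicardOff X D G ∧ BrodyOff X D G ∧ SemiAbelianOff X D G) ∧
      (FiniteOver X → G = G1 * rename Sum.inr Q1) := by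
  classical
  by_cases hfin : FiniteOver X
  · have hLang : LangOff X D (G1 * rename Sum.inr Q1) := by
      intro L _ _ x' y' w hmem _ hne hgen htr hw
      rw [map_mul, aeval_inr'] at hne
      obtain ⟨hne1, hne⟩ := mul_ne_zero_iff.1 hne
      exact (hL L x' y' w hmem hne1 hne (ess_of_gen' hgen) (hfin.alg hmem hgen) htr hw).1
    have hUni : UniformOverPn X D (G1 * rename Sum.inr Q1) R := by
      intro L _ _ x' y' w hmem _ hne hgen htr hw
      rw [map_mul, aeval_inr'] at hne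
      obtain ⟨hne1, hne⟩ := mul_ne_zero_iff.1 hne
      exact (hL L x' y' w hmem hne1 hne (ess_of_gen' hgen) (hfin.alg hmem hgen) htr hw).2
    have hG := biHom_mul hG1 (biHom_rename (N := N) hQ1)
    have hne : aeval (Sum.elim x y) (G1 * rename Sum.inr Q1 : BiPoly N n) ≠ 0 := by
      rw [map_mul, aeval_inr']
      exact mul_ne_zero hG1x hy
    refine ⟨G1 * rename Sum.inr Q1, _, _, hG, exists_pt hK hD hG hne,
      hLang K x y t hK.mem hD hne hK.gen ht ht1, hLang, hUni, fun hdisc => ?_, fun _ => rfl⟩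
    have hPic : PicardOff X D (G1 * rename Sum.inr Q1) := by
      rintro u v huv ⟨z0, hz0, hne⟩
      have hu := fun j => an_of_diffOn huv.diffu j
      have hmem : ∀ z ∈ PB 1, QMem X D (u z) (v z) := fun z hz => huv.mem z (mem_disc.mpr hz)
      have hne0 : aeval (Sum.elim (u z0) (v z0)) (G1 * rename Sum.inr Q1 : BiPoly N n) ≠ 0 := hne
      rw [map_mul, aeval_inr'] at hne0
      obtain ⟨hne1, hne'⟩ := mul_ne_zero_iff.1 hne0
      have hE : Extends v := hdisc u v huv ⟨z0, mem_disc.mp hz0, hne1⟩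
        ⟨z0, mem_disc.mp hz0, hne'⟩
      exact ⟨extends_lift (X := conv X) hu (fun z hz => (hmem z hz).1) hE (mem_disc.mp hz0)
        (hfin.fib (hmem z0 (mem_disc.mp hz0)).1.2.1), hE⟩
    exact ⟨hPic, brody_of_picard hPic, semi_of_brody (brody_of_picard hPic)⟩
  choose Dg mm e hrel using fun i j => exists_rel hK halg i j
  let Q0 : MvPolynomial (Fin (n + 1)) ℂ :=
    ∏ i : Fin (N + 1), ∏ j : Fin (N + 1), e i j (mm i j)
  let Q : MvPolynomial (Fin (n + 1)) ℂ := Q0 * Q1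
  obtain ⟨E, hQh⟩ : ∃ E, Q.IsHomogeneous E :=
    ⟨_, (IsHomogeneous.prod _ _ _ fun i _ => IsHomogeneous.prod _ _ _ fun j _ =>
      (hrel i j).1.hom _ le_rfl).mul hQ1⟩
  have hsplit : ∀ {L : Type} [Field L] [Algebra ℂ L] (y' : Fin (n + 1) → L), aeval y' Q ≠ 0 →
      (∀ i j, aeval y' (e i j (mm i j)) ≠ 0) ∧ aeval y' Q1 ≠ 0 := by
    intro L _ _ y' hy
    simp only [Q, Q0, map_mul, map_prod] at hy
    refine ⟨fun i j h0 => hy ?_, fun h0 => hy ?_⟩
    · rw [Finset.prod_eq_zero (Finset.mem_univ i) (Finset.prod_eq_zero (Finset.mem_univ j) h0),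
        zero_mul]
    · rw [h0, mul_zero]
  have hyQ : aeval y Q ≠ 0 := by
    simp only [Q, Q0, map_mul, map_prod]
    exact mul_ne_zero (Finset.prod_ne_zero_iff.mpr fun i _ =>
      Finset.prod_ne_zero_iff.mpr fun j _ => (hrel i j).2) hy
  have hLang : LangOff X D (G1 * rename Sum.inr Q) := by
    intro L _ _ x' y' w hmem _ hne hgen htr hw
    rw [map_mul, aeval_inr'] at hne
    obtain ⟨hne1, hne⟩ := mul_ne_zero_iff.1 hne
    obtain ⟨h1, h2⟩ := hsplit y' hne
    exact (hL L x' y' w hmem hne1 h2 (ess_of_gen' hgen)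
      (alg_sub (fun i j => (hrel i j).1) hmem h1 hgen) htr hw).1
  have hUni : UniformOverPn X D (G1 * rename Sum.inr Q) R := by
    intro L _ _ x' y' w hmem _ hne hgen htr hw
    rw [map_mul, aeval_inr'] at hne
    obtain ⟨hne1, hne⟩ := mul_ne_zero_iff.1 hne
    obtain ⟨h1, h2⟩ := hsplit y' hne
    exact (hL L x' y' w hmem hne1 h2 (ess_of_gen' hgen)
      (alg_sub (fun i j => (hrel i j).1) hmem h1 hgen) htr hw).2
  have hG := biHom_mul hG1 (biHom_rename (N := N) hQh)
  have hne : aeval (Sum.elim x y) (G1 * rename Sum.inr Q : BiPoly N n) ≠ 0 := by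
    rw [map_mul, aeval_inr']
    exact mul_ne_zero hG1x hyQ
  have hPic : (∀ u v, QDisc X D u v → (∃ z ∈ PB 1, eval (Sum.elim (u z) (v z)) G1 ≠ 0) →
        (∃ z ∈ PB 1, aeval (v z) Q1 ≠ 0) → Extends v) →
      PicardOff X D (G1 * rename Sum.inr Q) := by
    rintro hdisc u v huv ⟨z0, hz0, hne⟩
    have hu := fun j => an_of_diffOn huv.diffu j
    have hmem : ∀ z ∈ PB 1, QMem X D (u z) (v z) := fun z hz => huv.mem z (mem_disc.mpr hz)
    have hne0 : aeval (Sum.elim (u z0) (v z0)) (G1 * rename Sum.inr Q : BiPoly N n) ≠ 0 := hne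
    rw [map_mul, aeval_inr'] at hne0
    obtain ⟨hne1, hne'⟩ := mul_ne_zero_iff.1 hne0
    obtain ⟨h1, h2⟩ := hsplit (v z0) hne'
    have hE : Extends v := hdisc u v huv ⟨z0, mem_disc.mp hz0, hne1⟩ ⟨z0, mem_disc.mp hz0, h2⟩
    exact ⟨extends_lift (X := conv X) hu (fun z hz => (hmem z hz).1) hE (mem_disc.mp hz0)
      (fib_finite (fun i j => (hrel i j).1) h1), hE⟩
  exact ⟨G1 * rename Sum.inr Q, _, _, hG, exists_pt hK hD hG hne,
    hLang K x y t hK.mem hD hne hK.gen ht ht1, hLang, hUni,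
    fun hdisc => ⟨hPic hdisc, brody_of_picard (hPic hdisc),
      semi_of_brody (brody_of_picard (hPic hdisc))⟩, fun h => absurd h hfin⟩

end Pool.Agent.K9h12.VH
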