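import Pool.Agent.K9h12.VH.Sim

/-!
Varieties whose function field contains a root of the equations of the hypersurfaces.

(Proofs written by helper51 for helper12.)
-/

set_option autoImplicit false

open MvPolynomial

namespace Pool.Agent.K9h12.VH

open Pool.Agent.W602.Cov Pool.Agent.W602.Cov.Cover Pool.Agent.W602.Cov.R
open Pool.Agent.TH152.HY hiding main

variable {N n p : ℕ}

/-- products of bihomogeneous polynomials -/
theorem root_mul {G H : BiPoly N n} {D D' E E' : ℕ} (hG : BiHom G D D') (hH : BiHom H E E') :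
    BiHom (G * H) (D + E) (D' + E') :=
  IsWeightedHomogeneous.mul hG hH

/-- sums of bihomogeneous polynomials -/
theorem root_add {G H : BiPoly N n} {D D' : ℕ} (hG : BiHom G D D') (hH : BiHom H D D') :
    BiHom (G + H) D D' :=
  IsWeightedHomogeneous.add hG hH

/-- differences of bihomogeneous polynomials -/
theorem root_sub {G H : BiPoly N n} {D D' : ℕ} (hG : BiHom G D D') (hH : BiHom H D D') :
    BiHom (G - H) D D' :=
  (weightedHomogeneousSubmodule ℂ _ (D, D')).sub_mem hG hH

/-- powers of bihomogeneous polynomials -/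
theorem root_pow {G : BiPoly N n} {D D' : ℕ} (hG : BiHom G D D') (m : ℕ) :
    BiHom (G ^ m) (m * D) (m * D') :=
  IsWeightedHomogeneous.pow hG m

/-- a form in the second group of variables at a point -/
theorem root_inr {L : Type} [Field L] [Algebra ℂ L] (P : MvPolynomial (Fin (n + 1)) ℂ)
    (a : Fin (N + 1) → L) (b : Fin (n + 1) → L) :
    aeval (Sum.elim a b) (rename Sum.inr P : BiPoly N n) = aeval b P := by
  rw [aeval_rename]
  rfl

/-- rational functions are quotients of bihomogeneous polynomials -/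
theorem root_forms {X : BiSet N n} {K : Type} [Field K] [Algebra ℂ K] {x : Fin (N + 1) → K}
    {y : Fin (n + 1) → K} (hK : X.FunctionField K x y) (w : K) :
    ∃ (E E' : ℕ) (h0 h1 : BiPoly N n), BiHom h0 E E' ∧ BiHom h1 E E' ∧
      aeval (Sum.elim x y) h0 ≠ 0 ∧
      w = aeval (Sum.elim x y) h1 / aeval (Sum.elim x y) h0 := by
  have hw : w ∈ IntermediateField.adjoin ℂ
      ({f : K | ∃ i j, x j ≠ 0 ∧ f = x i / x j} ∪ {f : K | ∃ i j, y j ≠ 0 ∧ f = y i / y j}) := by
    rw [hK.gen]
    exact IntermediateField.mem_top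
  have hone : BiHom (1 : BiPoly N n) 0 0 := isWeightedHomogeneous_one ℂ _
  induction hw using IntermediateField.adjoin_induction with
  | mem z hz =>
    rcases hz with ⟨i, j, hj, rfl⟩ | ⟨i, j, hj, rfl⟩
    · exact ⟨1, 0, MvPolynomial.X (Sum.inl j), MvPolynomial.X (Sum.inl i),
        isWeightedHomogeneous_X ℂ _ (Sum.inl j), isWeightedHomogeneous_X ℂ _ (Sum.inl i),
        by simpa using hj, by simp⟩
    · exact ⟨0, 1, MvPolynomial.X (Sum.inr j), MvPolynomial.X (Sum.inr i),
        isWeightedHomogeneous_X ℂ _ (Sum.inr j), isWeightedHomogeneous_X ℂ _ (Sum.inr i),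
        by simpa using hj, by simp⟩
  | algebraMap c =>
    exact ⟨0, 0, 1, C c, hone, isWeightedHomogeneous_C _ c, by simp, by simp⟩
  | add z z' _ _ hz hz' =>
    obtain ⟨E, D, h0, h1, e1, e2, e3, rfl⟩ := hz
    obtain ⟨E', D', h0', h1', e1', e2', e3', rfl⟩ := hz'
    refine ⟨E + E', D + D', h0 * h0', h1 * h0' + h0 * h1', root_mul e1 e1',
      root_add (root_mul e2 e1') (root_mul e1 e2'), ?_, ?_⟩
    · rw [map_mul]; exact mul_ne_zero e3 e3'
    · simp only [map_mul, map_add]
      field_simp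
  | inv z _ hz =>
    obtain ⟨E, D, h0, h1, e1, e2, e3, rfl⟩ := hz
    by_cases h : aeval (Sum.elim x y) h1 = 0
    · exact ⟨0, 0, 1, 0, hone, isWeightedHomogeneous_zero ℂ _ _, by simp, by simp [h]⟩
    · exact ⟨E, D, h1, h0, e2, e1, h, by rw [inv_div]⟩
  | mul z z' _ _ hz hz' =>
    obtain ⟨E, D, h0, h1, e1, e2, e3, rfl⟩ := hz
    obtain ⟨E', D', h0', h1', e1', e2', e3', rfl⟩ := hz'
    refine ⟨E + E', D + D', h0 * h0', h1 * h1', root_mul e1 e1', root_mul e2 e2', ?_, ?_⟩
    · rw [map_mul]; exact mul_ne_zero e3 e3'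
    · simp only [map_mul]
      field_simp

/-- polynomials are regular at regular points -/
theorem root_reg {L : Type} [Field L] [Algebra ℂ L] {P : FF.Place ℂ L} {k : ℕ} {z : Fin k → L}
    (hz : ∀ j, P.Reg (z j)) (G : MvPolynomial (Fin k) ℂ) : P.Reg (aeval z G) := by
  induction G using MvPolynomial.induction_on with
  | C c => rw [aeval_C]; exact P.reg_const c
  | add f g hf hg => rw [map_add]; exact P.reg_add hf hg
  | mul_X f i hf => rw [map_mul, aeval_X]; exact P.reg_mul hf (hz i)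

/-- the contact orders are nonnegative -/
theorem root_le {L : Type} [Field L] [Algebra ℂ L] {P : FF.Place ℂ L} {y : Fin (n + 1) → L}
    {c : ℤ} (hc : Norm P y c) {G : MvPolynomial (Fin (n + 1)) ℂ} {e : ℕ} (hG : G.IsHomogeneous e)
    (h0 : aeval y G ≠ 0) : 0 ≤ P.ord (aeval y G) - e * c := by
  obtain ⟨hc1, j, hj, hcj⟩ := hc
  have h1 : aeval y G = y j ^ e * aeval (fun i => y i / y j) G := by
    rw [← aeval_scale _ hG]
    congr 2
    funext i
    rw [mul_div_cancel₀ _ hj]
  have h2 : aeval (fun i => y i / y j) G ≠ 0 := by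
    intro h
    rw [h1, h, mul_zero] at h0
    exact h0 rfl
  have h3 : 0 ≤ P.ord (aeval (fun i => y i / y j) G) := by
    refine (P.reg_iff h2).1 (root_reg (fun i => ?_) G)
    by_cases hi : y i = 0
    · rw [hi, zero_div]
      exact P.reg_zero
    · rw [P.reg_iff (div_ne_zero hi hj), P.ord_div hi hj, hcj]
      have := hc1 i hi
      omega
  rw [h1, P.ord_mul (pow_ne_zero _ hj) h2, P.ord_pow, hcj]
  omega

/-- nonnegative integers with sum one -/
theorem root_one {ι : Type} [Fintype ι] {e : ι → ℤ} (h0 : ∀ i, 0 ≤ e i) (h1 : ∑ i, e i = 1) :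
    ∃ i, e i = 1 ∧ ∀ j, j ≠ i → e j = 0 := by
  classical
  obtain ⟨i, hi⟩ : ∃ i, e i ≠ 0 := by
    by_contra hcon
    push Not at hcon
    rw [Finset.sum_eq_zero fun i _ => hcon i] at h1
    exact zero_ne_one h1
  have h2 : e i + ∑ j ∈ Finset.univ.erase i, e j = 1 := by
    rw [Finset.add_sum_erase _ _ (Finset.mem_univ i)]
    exact h1
  have h3 : 0 ≤ ∑ j ∈ Finset.univ.erase i, e j := Finset.sum_nonneg fun j _ => h0 j
  have h4 := h0 i
  have h5 : ∑ j ∈ Finset.univ.erase i, e j = 0 := by omega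
  refine ⟨i, by omega, fun j hj => ?_⟩
  exact (Finset.sum_eq_zero_iff_of_nonneg fun j _ => h0 j).1 h5 j
    (Finset.mem_erase.2 ⟨hj, Finset.mem_univ j⟩)

/-- the order of a product -/
theorem root_ord {L : Type} [Field L] [Algebra ℂ L] (v : FF.Place ℂ L) {ι : Type}
    (s : Finset ι) (f : ι → L) (hf : ∀ i ∈ s, f i ≠ 0) :
    v.ord (∏ i ∈ s, f i) = ∑ i ∈ s, v.ord (f i) := by
  classical
  induction s using Finset.induction_on with
  | empty =>
    rw [Finset.prod_empty, Finset.sum_empty]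
    exact v.ord_one
  | insert i s hi ih =>
    rw [Finset.prod_insert hi, Finset.sum_insert hi, v.ord_mul (hf i (Finset.mem_insert_self _ _))
      (Finset.prod_ne_zero_iff.2 fun j hj => hf j (Finset.mem_insert_of_mem hj)),
      ih fun j hj => hf j (Finset.mem_insert_of_mem hj)]

/-- If the function field contains an `m`-th root of `A ^ s * ∏ F k ^ t k` and `m` divides none of
the `t k` and the degree, then there are no simple contacts outside a proper closed subset. -/
theorem noSimple_of_root' {F : Fin p → MvPolynomial (Fin (n + 1)) ℂ} {e : Fin p → ℕ}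
    (hF : ∀ k, (F k).IsHomogeneous (e k)) {A : MvPolynomial (Fin (n + 1)) ℂ} {d : ℕ}
    (hA : A.IsHomogeneous d) {X D : BiSet N n} {K : Type} [Field K] [Algebra ℂ K]
    {x : Fin (N + 1) → K} {y : Fin (n + 1) → K} (hK : X.FunctionField K x y)
    {m s : ℕ} {t : Fin p → ℕ} (ht : ∀ k, ¬ m ∣ t k) (hm : m ∣ s * d + ∑ k, t k * e k) {w : K}
    (hw : w ^ m = aeval y A ^ s * ∏ k, aeval y (F k) ^ t k) :
    ∃ (G1 : BiPoly N n) (E E' : ℕ), BiHom G1 E E' ∧ aeval (Sum.elim x y) G1 ≠ 0 ∧
      NoSimple G1 F e A d X D := by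
  obtain ⟨e0, he0⟩ := hm
  obtain ⟨j0, hj0⟩ := Function.ne_iff.mp hK.mem.2.1
  have hy0 : y j0 ≠ 0 := hj0
  obtain ⟨E, E', h0, h1, hh0, hh1, hne, hwq⟩ := root_forms hK (w / y j0 ^ e0)
  set B : MvPolynomial (Fin (n + 1)) ℂ := A ^ s * ∏ k, F k ^ t k with hB
  have hBh : B.IsHomogeneous (m * e0) := by
    have h2 : B.IsHomogeneous (d * s + ∑ k, e k * t k) :=
      (hA.pow s).mul (IsHomogeneous.prod _ _ _ fun k _ => (hF k).pow (t k))
    have h3 : d * s + ∑ k, e k * t k = m * e0 := by
      rw [← he0, mul_comm d s]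
      congr 1
      exact Finset.sum_congr rfl fun k _ => mul_comm _ _
    rwa [h3] at h2
  have hBv : ∀ {M : Type} [Field M] [Algebra ℂ M] (z : Fin (n + 1) → M),
      aeval z B = aeval z A ^ s * ∏ k, aeval z (F k) ^ t k := by
    intro M _ _ z
    simp only [hB, map_mul, map_pow, map_prod]
  have hXh : (MvPolynomial.X j0 ^ (m * e0) : MvPolynomial (Fin (n + 1)) ℂ).IsHomogeneous
      (m * e0) := by
    have h2 := (isHomogeneous_X ℂ j0).pow (m * e0)
    rwa [one_mul] at h2
  set Φ : BiPoly N n := h1 ^ m * rename Sum.inr (MvPolynomial.X j0 ^ (m * e0)) -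
    h0 ^ m * rename Sum.inr B with hΦ
  have hΦh : BiHom Φ (m * E + 0) (m * E' + m * e0) :=
    root_sub (root_mul (root_pow hh1 m) (biHom_rename hXh))
      (root_mul (root_pow hh0 m) (biHom_rename hBh))
  have hΦv : ∀ {M : Type} [Field M] [Algebra ℂ M] (a : Fin (N + 1) → M) (b : Fin (n + 1) → M),
      aeval (Sum.elim a b) Φ = aeval (Sum.elim a b) h1 ^ m * b j0 ^ (m * e0) -
        aeval (Sum.elim a b) h0 ^ m * (aeval b A ^ s * ∏ k, aeval b (F k) ^ t k) := by
    intro M _ _ a b
    simp only [hΦ, map_sub, map_mul, map_pow, root_inr, aeval_X]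
    rw [hBv]
  have hΦ0 : aeval (Sum.elim x y) Φ = 0 := by
    rw [hΦv, ← hw]
    have h2 : w = aeval (Sum.elim x y) h1 / aeval (Sum.elim x y) h0 * y j0 ^ e0 := by
      rw [← hwq, div_mul_cancel₀ _ (pow_ne_zero _ hy0)]
    rw [h2, mul_pow, div_pow, ← pow_mul, mul_comm e0 m]
    have h3 : aeval (Sum.elim x y) h0 ^ m ≠ 0 := pow_ne_zero _ hne
    field_simp
    ring
  have hΦX : ∀ u v, X.Mem u v → eval (Sum.elim u v) Φ = 0 := (hK.van Φ _ _ hΦh).1 hΦ0
  refine ⟨h0 * MvPolynomial.X (Sum.inr j0), E + 0, E' + 1,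
    root_mul hh0 (isWeightedHomogeneous_X ℂ _ (Sum.inr j0)), ?_, ?_⟩
  · rw [map_mul, aeval_X, Sum.elim_inr]
    exact mul_ne_zero hne hy0
  · intro L _ _ x' y' hmem hG1 hFne hAne P _ c hc hAo hone
    rw [map_mul, aeval_X, Sum.elim_inr] at hG1
    have hh0' : aeval (Sum.elim x' y') h0 ≠ 0 := left_ne_zero_of_mul hG1
    have hy0' : y' j0 ≠ 0 := right_ne_zero_of_mul hG1
    have hrel := null hΦX hmem
    rw [hΦv, sub_eq_zero] at hrel
    have hBne : aeval y' A ^ s * ∏ k, aeval y' (F k) ^ t k ≠ 0 :=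
      mul_ne_zero (pow_ne_zero _ hAne)
        (Finset.prod_ne_zero_iff.2 fun k _ => pow_ne_zero _ (hFne k))
    have hh1' : aeval (Sum.elim x' y') h1 ^ m ≠ 0 := by
      intro h
      rw [h, zero_mul] at hrel
      exact mul_ne_zero (pow_ne_zero _ hh0') hBne hrel.symm
    obtain ⟨i, hi, hj⟩ := root_one (fun k => root_le hc (hF k) (hFne k)) hone
    have hord := congrArg P.ord hrel
    rw [P.ord_mul hh1' (pow_ne_zero _ hy0'), P.ord_mul (pow_ne_zero _ hh0') hBne,
      P.ord_mul (pow_ne_zero _ hAne)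
        (Finset.prod_ne_zero_iff.2 fun k _ => pow_ne_zero _ (hFne k)),
      root_ord P _ _ fun k _ => pow_ne_zero _ (hFne k)] at hord
    simp only [P.ord_pow] at hord
    rw [hAo] at hord
    have hsum : ∑ k, (t k : ℤ) * P.ord (aeval y' (F k)) =
        (∑ k, (t k : ℤ) * e k) * c + t i := by
      have h2 : ∀ k, (t k : ℤ) * P.ord (aeval y' (F k)) =
          (t k : ℤ) * e k * c + if k = i then (t i : ℤ) else 0 := by
        intro k
        split_ifs with hk
        · subst hk
          have : P.ord (aeval y' (F k)) = e k * c + 1 := by linarith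
          rw [this]
          ring
        · have : P.ord (aeval y' (F k)) = e k * c := by
            have := hj k hk
            linarith
          rw [this]
          ring
      rw [Finset.sum_congr rfl fun k _ => h2 k, Finset.sum_add_distrib, ← Finset.sum_mul,
        Finset.sum_ite_eq' Finset.univ i, if_pos (Finset.mem_univ i)]
    rw [hsum] at hord
    have he0' : (s : ℤ) * d + ∑ k, (t k : ℤ) * e k = m * e0 := by exact_mod_cast he0
    refine ht i (Int.natCast_dvd_natCast.1 ⟨P.ord (aeval (Sum.elim x' y') h1) +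
      e0 * P.ord (y' j0) - P.ord (aeval (Sum.elim x' y') h0) - e0 * c, ?_⟩)
    push_cast at hord
    linear_combination -hord - c * he0'

end Pool.Agent.K9h12.VH
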