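import Pool.Agent.K9h12.VH.Dim
import Pool.Agent.K9h12.VH.Root

/-!
MP_64ff02_ag, Q1: quasi-projective varieties of any dimension with a morphism to projective space
which meets very general hypersurfaces nowhere in a simple contact, for example the covers of
projective space which are branched over very general hypersurfaces (with all multiplicities equal to
two) and over any other hypersurface of smaller degree. They are of log general type and strongly of
log general type, in a uniform way.

Conventions (all of them are definitions of the imported files). A `BiSet N n` is a closed subset of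
`P^N × P^n`, given by bihomogeneous equations (`BiHom`), and `X.Mem x y` says that `x`, `y` are the
homogeneous coordinates of a point of `X` over a field; the varieties are `X - D`, and their
morphism to `P^n` is the second projection. `QMem X D u v`: `u`, `v` are homogeneous coordinates of a
complex point of `X - D`. `X.FunctionField K x y`: `X` is irreducible, `K` is its function field and
`(x, y)` its generic point. A place `P` of a field `L` over the complex numbers is a discrete
valuation; `Norm P y c`: `c` is the minimum of the orders of the coordinates `y`; `CentreIn D x y P`: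
the place is centred in `D`. `LogGeneralType ℂ K t (CentreIn D x y)`: `X - D`, of dimension `t`, is of
log general type; `Effective L R t (CentreIn D x y) y`: for the variety `Z` with function field `L`
and dimension `t`, generic point `(x, y)` and boundary `D_Z`, `R (K_Z + D_Z) - H` is effective, with
`H` the pull-back of the hyperplane class of `P^n`: there is a nonzero rational `R`-canonical form
whose products with all coordinates `y j` are regular at all prime divisors over `Z`, except for
logarithmic poles at those centred in `D`.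
-/

set_option autoImplicit false

open MvPolynomial

namespace Pool.Agent.K9h12.VH.BranchLoci

open Pool.Agent.W602.Cov.R (BiPoly BiSet BiHom)
open Pool.Agent.W602.GT (LogGeneralType)
open Pool.Agent.TH152.HY (QMem CentreIn Norm)
open Pool.Agent.TH152.DS (Effective)

/-- All coordinates of all points of `X`, over all fields, are algebraic over the ratios of the
coordinates of the projection to `P^n`: the projection of `X` to `P^n` is finite. -/
def FiniteOver {N n : ℕ} (X : BiSet N n) : Prop :=
  ∀ (L : Type) [Field L] [Algebra ℂ L] (x : Fin (N + 1) → L) (y : Fin (n + 1) → L), X.Mem x y →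
    ∀ i j, x j ≠ 0 → IsAlgebraic
      (IntermediateField.adjoin ℂ {f : L | ∃ i j, y j ≠ 0 ∧ f = y i / y j}) (x i / x j)

/-- The forms `F i` of degrees `e i` are very general: there are a subfield `k` of the complex
numbers (for instance a countable one, or the rational numbers) and forms `H i` and `B i j`, `j < r`,
of degree `e i` over `k`, where for every `i` the forms `B i j` have no common zero in `P^n`, such
that `F i = H i + ∑ j, a i j * B i j`, with numbers `a i j` which are, for all `i` and `j` together,
algebraically independent over `k`. (For a countable `k` this means that the `a i j` are outside of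
certain countably many hypersurfaces. For example the `B i j` are all monomials of degree `e i`, and
the `F i` are very general forms.) -/
def VeryGeneral {n p : ℕ} (e : Fin p → ℕ) (F : Fin p → MvPolynomial (Fin (n + 1)) ℂ) : Prop :=
  ∃ (k : Subfield ℂ) (r : ℕ) (H : Fin p → MvPolynomial (Fin (n + 1)) k)
    (B : Fin p → Fin r → MvPolynomial (Fin (n + 1)) k) (a : Fin p → Fin r → ℂ),
    (∀ i, (H i).IsHomogeneous (e i)) ∧ (∀ i j, (B i j).IsHomogeneous (e i)) ∧
    (∀ i, ∀ u : Fin (n + 1) → ℂ, u ≠ 0 → ∃ j, aeval u (B i j) ≠ 0) ∧
    AlgebraicIndependent k (fun ij : Fin p × Fin r => a ij.1 ij.2) ∧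
    ∀ i, F i = map (algebraMap k ℂ) (H i) + ∑ j, C (a i j) * map (algebraMap k ℂ) (B i j)

/-- `X - D` is a quasi-projective variety of dimension `t > 0` with function field `K` and generic
point `(x, y)`, and the projection to `P^n` is generically finite over its image. -/
structure Variety {N n : ℕ} (X D : BiSet N n) (K : Type) [Field K] [Algebra ℂ K]
    (x : Fin (N + 1) → K) (y : Fin (n + 1) → K) (t : ℕ) : Prop where
  functionField : X.FunctionField K x y
  notMem : ¬ D.Mem x y
  alg : Algebra.IsAlgebraic (IntermediateField.adjoin ℂ {f : K | ∃ i j, y j ≠ 0 ∧ f = y i / y j}) K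
  dim : Algebra.trdeg ℂ K = t
  pos : 0 < t

/-- Outside `G1 = 0`, the variety `X - D` has no simple contact with the hypersurfaces `F i = 0` of
degrees `e i` outside the hypersurface `A = 0` of degree `d`: for every germ of a curve on `X - D`
(a point `(x, y)` of `X` over a field `L` with a place `P` not centred in `D`) which is not contained
in `G1 = 0`, `F i = 0` or `A = 0` and whose centre is not on `A = 0`, the sum of the contact orders
`ord_P (F i (y)) - e i * min_j ord_P (y j)` of its image in `P^n` with the hypersurfaces is not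
one. -/
def NoSimpleContact {N n p : ℕ} (G1 : BiPoly N n) (F : Fin p → MvPolynomial (Fin (n + 1)) ℂ)
    (e : Fin p → ℕ) (A : MvPolynomial (Fin (n + 1)) ℂ) (d : ℕ) (X D : BiSet N n) : Prop :=
  ∀ (L : Type) [Field L] [Algebra ℂ L] (x : Fin (N + 1) → L) (y : Fin (n + 1) → L), X.Mem x y →
    aeval (Sum.elim x y) G1 ≠ 0 → (∀ i, aeval y (F i) ≠ 0) → aeval y A ≠ 0 →
    ∀ P : FF.Place ℂ L, ¬ CentreIn D x y P → ∀ c : ℤ, Norm P y c → P.ord (aeval y A) = d * c →
      ∑ i, (P.ord (aeval y (F i)) - e i * c) ≠ 1

/-- All closed subvarieties `Z` of `X - D` of dimension at least `w` which are not contained in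
`G = 0` are of log general type, and `2 (K_Z + D_Z) - H` is effective for them. The subvariety `Z` is
given by its function field `L` and its generic point `(x, y)`. -/
def Lang {N n : ℕ} (w : ℕ) (X D : BiSet N n) (G : BiPoly N n) : Prop :=
  ∀ (L : Type) [Field L] [Algebra ℂ L] (x : Fin (N + 1) → L) (y : Fin (n + 1) → L) (t : ℕ),
    X.Mem x y → ¬ D.Mem x y → aeval (Sum.elim x y) G ≠ 0 →
    IntermediateField.adjoin ℂ
      ({f : L | ∃ i j, x j ≠ 0 ∧ f = x i / x j} ∪ {f : L | ∃ i j, y j ≠ 0 ∧ f = y i / y j}) = ⊤ →
    Algebra.trdeg ℂ L = t → w ≤ t →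
    LogGeneralType ℂ L t (CentreIn D x y) ∧ Effective L 2 t (CentreIn D x y) y

/-- **Theorem.** Let `F i`, `i < p`, be very general forms of degrees `e i` in `n + 1` variables, let
`A` be any form of degree `d`, and let `w ≥ 1`, where
`2 n + 3 + d + ∑ i ∈ T, e i ≤ ∑ i ∉ T, e i` for every set `T` of at most `n - w` indices (for `p`
hyperplanes: `4 n + 3 - 2 w + d ≤ p`). Let `X - D` be a quasi-projective variety of positive dimension
with a morphism to `P^n` which is generically finite over its image, where the image is not contained
in `F i = 0` or `A = 0`. Suppose that `X - D` has no simple contact with the hypersurfaces `F i = 0`,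
outside `A = 0` and outside a proper closed subset `G1 = 0` of `X`, or that the function field of `X`
contains an `m`-th root `z` of a form `A(y) ^ s * ∏ i, F i (y) ^ b i` whose degree is divisible by
`m`, where `m` divides none of the `b i`.

Then there is a proper closed subset `G = 0` of `X - D` such that all closed subvarieties `Z` of
`X - D` of dimension at least `w` which are not contained in `G = 0` are of log general type, and
`2 (K_Z + D_Z) - H` is effective for all of them. In particular `X - D` is of log general type (i) if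
its dimension is at least `w`, and strongly of log general type (iv) if `w = 1`. If `X` is finite over
`P^n` and the first condition holds, then `G = G1 * A * ∏ i, F i`. -/
theorem result {n p d w : ℕ} {e : Fin p → ℕ} {F : Fin p → MvPolynomial (Fin (n + 1)) ℂ}
    {A : MvPolynomial (Fin (n + 1)) ℂ} (hF : VeryGeneral e F) (hA : A.IsHomogeneous d) (hw : 1 ≤ w)
    (hdeg : ∀ T : Finset (Fin p), T.card + w ≤ n →
      2 * n + 3 + d + ∑ i ∈ T, e i ≤ ∑ i ∈ Tᶜ, e i)
    {N t : ℕ} {X D : BiSet N n} {K : Type} [Field K] [Algebra ℂ K] {x : Fin (N + 1) → K}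
    {y : Fin (n + 1) → K} (hX : Variety X D K x y t) (hy : ∀ i, aeval y (F i) ≠ 0)
    (hyA : aeval y A ≠ 0) {G1 : BiPoly N n} {E1 E1' : ℕ} (hG1 : BiHom G1 E1 E1')
    (hG1x : aeval (Sum.elim x y) G1 ≠ 0)
    (hc : NoSimpleContact G1 F e A d X D ∨
      ∃ (z : K) (m s : ℕ) (b : Fin p → ℕ), (∀ i, ¬ m ∣ b i) ∧ m ∣ s * d + ∑ i, b i * e i ∧
        z ^ m = aeval y A ^ s * ∏ i, aeval y (F i) ^ b i) :
    ∃ (G : BiPoly N n) (E E' : ℕ), BiHom G E E' ∧
      (∃ u v, QMem X D u v ∧ eval (Sum.elim u v) G ≠ 0) ∧
      (w ≤ t → LogGeneralType ℂ K t (CentreIn D x y)) ∧ Lang w X D G ∧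
      (NoSimpleContact G1 F e A d X D → FiniteOver X →
        G = G1 * rename Sum.inr ((∏ i, F i) * A)) := by
  obtain ⟨k, r, H, B, a, h1, h2, h3, h4, h5⟩ := hF
  have hfam : Pool.Agent.K9h12.VH.Fam e H B a := ⟨h1, h2, h3, h4⟩
  have hFe : F = Pool.Agent.K9h12.VH.mem H B a := funext h5
  have hFh : ∀ i, (F i).IsHomogeneous (e i) := fun i => by
    obtain ⟨δ, hmv⟩ := hfam.move
    rw [hFe]
    exact hmv.hom i
  have key : ∀ {G2 : BiPoly N n} {E2 E2' : ℕ}, BiHom G2 E2 E2' → aeval (Sum.elim x y) G2 ≠ 0 →
      NoSimpleContact G2 F e A d X D → ∃ (G : BiPoly N n) (E E' : ℕ), BiHom G E E' ∧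
      (∃ u v, QMem X D u v ∧ eval (Sum.elim u v) G ≠ 0) ∧
      (w ≤ t → LogGeneralType ℂ K t (CentreIn D x y)) ∧ Lang w X D G ∧
      (FiniteOver X → G = G2 * rename Sum.inr ((∏ i, F i) * A)) := by
    intro G2 E2 E2' hG2 hG2x hns
    subst hFe
    obtain ⟨G, E, E', g1, g2, g3, g4, g5⟩ := Pool.Agent.K9h12.VH.main2 hfam hA hw
      (fun T hT => by have := hdeg T (by omega); omega) hG2 hns hX.functionField hX.notMem hG2x
      hX.alg hy hyA
    exact ⟨G, E, E', g1, g3, fun hwt => (g4 K x y t hX.functionField.mem g2 hX.functionField.gen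
      hX.dim hwt).1, fun L _ _ x' y' t' hm _ hne hgen htr hwt => g4 L x' y' t' hm hne hgen htr hwt,
      g5⟩
  by_cases hns : NoSimpleContact G1 F e A d X D
  · obtain ⟨G, E, E', g1, g2, g3, g4, g6⟩ := key hG1 hG1x hns
    exact ⟨G, E, E', g1, g2, g3, g4, fun _ => g6⟩
  · obtain ⟨z, m, s, b, hb, hm, hz⟩ := hc.resolve_left hns
    obtain ⟨G2, E2, E2', hG2, hG2x, hns2⟩ :=
      Pool.Agent.K9h12.VH.noSimple_of_root' hFh hA hX.functionField hb hm hz
    obtain ⟨G, E, E', g1, g2, g3, g4, -⟩ := key hG2 hG2x hns2
    exact ⟨G, E, E', g1, g2, g3, g4, fun h => absurd h hns⟩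

end Pool.Agent.K9h12.VH.BranchLoci
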