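import Pool.Agent.K9h12.VH.LiftC

/-!
Local lifts of derivations of the constants at prime divisors.
-/

set_option autoImplicit false

open FF

namespace Pool.Agent.K9h12.VH

open Pool.Agent.W603.LV Pool.Agent.W602.GT

variable {L : Type} [Field L] [Algebra ℂ L]

/-- polynomials with regular coefficients have regular values -/
theorem lf42_ge {R : Type} [CommRing R] (φ : R →+* L) {P : Place ℂ L} (hφ : ∀ a, Ge P 0 (φ a))
    {f : L} (hf : Ge P 0 f) (p : Polynomial R) : Ge P 0 (Polynomial.eval₂ φ f p) := by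
  rw [Polynomial.eval₂_eq_sum_range]
  refine Ge.sum _ _ fun i _ => ?_
  have := (hφ (p.coeff i)).mul (hf.pow i)
  simpa using this

/-- polynomials in a uniformizer whose nonzero coefficients are units -/
theorem lf42_unif {R : Type} [CommRing R] (φ : R →+* L) {P : Place ℂ L}
    (hφ : ∀ a, a ≠ 0 → φ a ≠ 0 ∧ P.ord (φ a) = 0) {t : L} (ht : P.ord t = 1) {p : Polynomial R}
    (hp : p ≠ 0) : Polynomial.eval₂ φ t p ≠ 0 := by
  have ht0 : t ≠ 0 := by
    rintro rfl
    rw [P.ord_zero] at ht; omega
  have hφ' : ∀ a, Ge P 0 (φ a) := fun a => by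
    by_cases ha : a = 0
    · rw [ha, map_zero]; exact Ge.zero
    · exact Or.inr (hφ a ha).2.ge
  have key : ∀ (n : ℕ) (p : Polynomial R), p.natDegree < n → p ≠ 0 →
      Polynomial.eval₂ φ t p ≠ 0 := by
    intro n
    induction n with
    | zero => intro p hn; omega
    | succ n ih =>
      intro p hn hp
      have e1 : Polynomial.eval₂ φ t p = t * Polynomial.eval₂ φ t p.divX + φ (p.coeff 0) := by
        conv_lhs => rw [← Polynomial.X_mul_divX_add p]
        rw [Polynomial.eval₂_add, Polynomial.eval₂_mul, Polynomial.eval₂_X, Polynomial.eval₂_C]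
      by_cases h0 : p.coeff 0 = 0
      · have hdiv : p.divX ≠ 0 := by
          intro h
          apply hp
          rw [← Polynomial.X_mul_divX_add p, h, h0]
          simp
        rw [e1, h0, map_zero, add_zero]
        refine mul_ne_zero ht0 (ih _ ?_ hdiv)
        have h3 : 0 < p.natDegree := by
          by_contra h
          apply hdiv
          rw [Polynomial.divX_eq_zero_iff]
          exact Polynomial.eq_C_of_natDegree_eq_zero (by omega)
        rw [Polynomial.natDegree_divX_eq_natDegree_tsub_one]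
        omega
      · intro hzero
        rw [e1] at hzero
        have h1 : Ge P 1 (t * Polynomial.eval₂ φ t p.divX) := by
          have ht1 : Ge P 1 t := Or.inr ht.ge
          have := ht1.mul (lf42_ge φ hφ' (ht1.mono (by norm_num)) p.divX)
          simpa using this
        have h2 : Ge P 1 (φ (p.coeff 0)) := by
          have e2 : φ (p.coeff 0) = -(t * Polynomial.eval₂ φ t p.divX) := by
            linear_combination hzero
          rw [e2]
          exact h1.neg
        obtain ⟨h3, h4⟩ := hφ _ h0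
        have := h2.resolve_left h3
        omega
  exact key _ p (Nat.lt_succ_self _) hp

/-- coordinates at a prime divisor -/
theorem exists_co {m : ℕ} (htr : Algebra.trdeg ℂ L = (m + 1 : ℕ)) {P : Place ℂ L}
    (hP : Divisorial (m + 1) P) : ∃ t : Fin (m + 1) → L, Co P t := by
  have hP' : ∃ u : Fin m → L, ∀ F : MvPolynomial (Fin m) ℂ, F ≠ 0 →
    MvPolynomial.aeval u F ≠ 0 ∧ P.ord (MvPolynomial.aeval u F) = 0 := hP
  obtain ⟨u, hu⟩ := hP'
  obtain ⟨t0, ht0, ht⟩ := P.surj
  refine ⟨Fin.cons t0 u, ?_, by rw [Fin.cons_zero, ht], ?_⟩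
  · have hind : AlgebraicIndependent ℂ (Fin.cons t0 u : Fin (m + 1) → L) := by
      rw [algebraicIndependent_iff_injective_aeval, injective_iff_map_eq_zero]
      intro G hG
      by_contra hne
      have e1 : MvPolynomial.aeval (Fin.cons t0 u : Fin (m + 1) → L) G = Polynomial.eval₂
          (MvPolynomial.aeval u : MvPolynomial (Fin m) ℂ →ₐ[ℂ] L).toRingHom t0
          (MvPolynomial.finSuccEquiv ℂ m G) := by
        have e2 : (MvPolynomial.aeval (Fin.cons t0 u : Fin (m + 1) → L)).toRingHom =
            (Polynomial.eval₂RingHom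
              (MvPolynomial.aeval u : MvPolynomial (Fin m) ℂ →ₐ[ℂ] L).toRingHom t0).comp
            (MvPolynomial.finSuccEquiv ℂ m).toAlgHom.toRingHom := by
          apply MvPolynomial.ringHom_ext
          · intro r
            have h1 := (MvPolynomial.finSuccEquiv ℂ m).commutes r
            simp [MvPolynomial.finSuccEquiv_apply]
          · intro i
            refine Fin.cases ?_ (fun j => ?_) i
            · simp [MvPolynomial.finSuccEquiv_X_zero]
            · simp [MvPolynomial.finSuccEquiv_X_succ]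
        exact congrFun (congrArg DFunLike.coe e2) G
      rw [e1] at hG
      refine lf42_unif _ (fun a ha => hu a ha) ht ?_ hG
      intro h
      apply hne
      exact (map_eq_zero_iff _ (MvPolynomial.finSuccEquiv ℂ m).injective).1 h
    refine hind.isTranscendenceBasis_of_lift_trdeg_le ?_ ?_
    · rw [htr]; exact Cardinal.natCast_lt_aleph0
    · rw [htr]; simp
  · intro F hF
    have e : (fun i : Fin m => (Fin.cons t0 u : Fin (m + 1) → L) i.succ) = u := by
      funext i
      rw [Fin.cons_succ]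
    rw [e]
    exact hu F hF

/-- the chain rule -/
theorem lf42_der {R : Type} [CommRing R] (φ : R →+* L) {P : Place ℂ L} {Δ : Derivation ℤ L L}
    (hΔφ : ∀ a, Ge P 0 (Δ (φ a))) {f : L} (hf : Ge P 0 f)
    (p : Polynomial R) : ∃ r : L, Ge P 0 r ∧ Δ (Polynomial.eval₂ φ f p) =
      r + Polynomial.eval₂ φ f (Polynomial.derivative p) * Δ f := by
  induction p using Polynomial.induction_on' with
  | add p q hp hq =>
    obtain ⟨r, hr, hr'⟩ := hp
    obtain ⟨s, hs, hs'⟩ := hq
    refine ⟨r + s, hr.add hs, ?_⟩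
    rw [Polynomial.eval₂_add, map_add, hr', hs', Polynomial.derivative_add, Polynomial.eval₂_add]
    ring
  | monomial n a =>
    refine ⟨Δ (φ a) * f ^ n, ?_, ?_⟩
    · have := (hΔφ a).mul (hf.pow n)
      simpa using this
    · rw [Polynomial.derivative_monomial, Polynomial.eval₂_monomial, Polynomial.eval₂_monomial,
        Derivation.leibniz, Derivation.leibniz_pow, map_mul, map_natCast]
      simp only [smul_eq_mul, nsmul_eq_mul]
      ring

/-- the extension which vanishes on the coordinates is regular -/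
theorem Co.lift {m : ℕ} {P : Place ℂ L} {t : Fin (m + 1) → L} (h : Co P t)
    (hess : Algebra.EssFiniteType ℂ L) {δ : Derivation ℤ ℂ ℂ} {Δ : Derivation ℤ L L}
    (hΔ : ∀ c, Δ (algebraMap ℂ L c) = algebraMap ℂ L (δ c)) (hΔt : ∀ i, Δ (t i) = 0) {f : L}
    (hf : Ge P 0 f) : Ge P 0 (Δ f) := by
  have ht0 : t 0 ≠ 0 := by
    intro h0
    have := h.unif
    rw [h0, P.ord_zero] at this; omega
  set φ : MvPolynomial (Fin m) ℂ →+* L := (MvPolynomial.aeval (fun i : Fin m => t i.succ) :
        MvPolynomial (Fin m) ℂ →ₐ[ℂ] L).toRingHom with hφd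
  have hφ : ∀ a, Ge P 0 (φ a) := fun a => by
    by_cases ha : a = 0
    · rw [ha, map_zero]; exact Ge.zero
    · exact Or.inr (h.res a ha).2.ge
  have hΔφ : ∀ a, Ge P 0 (Δ (φ a)) := fun a => by
    obtain ⟨G', hG'⟩ := der_poly hΔ (s := fun i : Fin m => t i.succ) (fun i => hΔt i.succ) a
    have e : Δ (φ a) = φ G' := hG'
    rw [e]
    exact hφ G'
  have step : ∀ C : ℕ, (∀ f, Ge P 0 f → Ge P (-((C + 1 : ℕ) : ℤ)) (Δ f)) →
      ∀ f, Ge P 0 f → Ge P (-(C : ℤ)) (Δ f) := by
    intro C hC f hf
    obtain ⟨p, hp1, hp2, hp3⟩ := h.root hf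
    rw [← hφd] at hp1 hp2 hp3
    obtain ⟨r, hr, hr'⟩ := lf42_der φ hΔφ hf p
    set s := Polynomial.eval₂ φ f p with hs
    set d := Polynomial.eval₂ φ f (Polynomial.derivative p) with hd
    have hg : Ge P 0 (s / t 0) := by
      have := ge_div ht0 hp1
      rwa [h.unif, sub_self] at this
    have h1 : Ge P (-(C : ℤ)) (Δ s) := by
      have e : Δ s = t 0 * Δ (s / t 0) := by
        conv_lhs => rw [show s = t 0 * (s / t 0) by field_simp]
        rw [Derivation.leibniz, hΔt, smul_zero, add_zero, smul_eq_mul]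
      rw [e]
      have ht1 : Ge P 1 (t 0) := Or.inr h.unif.ge
      have h2 := ht1.mul (hC _ hg)
      refine h2.mono ?_
      push_cast
      omega
    have h3 : Ge P (-(C : ℤ)) (d * Δ f) := by
      have e : d * Δ f = Δ s - r := by rw [hr']; ring
      rw [e]
      exact h1.sub (hr.mono (by omega))
    have h4 := Ge.of_mul hp2 h3
    rwa [hp3, sub_zero] at h4
  obtain ⟨C, hC⟩ := h.bound hess hΔ hΔt
  have start : ∀ f, Ge P 0 f → Ge P (-(C : ℤ)) (Δ f) := by
    intro f hf
    obtain ⟨b, c, hb, hc, hb0, hbo, rfl⟩ := h.frac hf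
    rw [Derivation.leibniz_div]
    have h1 : Ge P (-(C : ℤ)) (b • Δ c - c • Δ b) := by
      rw [smul_eq_mul, smul_eq_mul]
      refine Ge.sub ?_ ?_
      · have := (h.int hb).mul (hC c hc)
        simpa using this
      · have := (h.int hc).mul (hC b hb)
        simpa using this
    have h2 : Ge P 0 (b⁻¹ ^ 2) := by
      right
      rw [P.ord_pow, P.ord_inv, hbo]
      simp
    have := h2.mul h1
    rwa [zero_add] at this
  have down : ∀ C : ℕ, (∀ f, Ge P 0 f → Ge P (-(C : ℤ)) (Δ f)) → ∀ f, Ge P 0 f → Ge P 0 (Δ f) := by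
    intro C
    induction C with
    | zero => intro h0 f hf; simpa using h0 f hf
    | succ C ih => intro h0; exact ih (step C h0)
  exact down C start f hf

/-- **Local lifts.** -/
theorem exists_lift (hess : Algebra.EssFiniteType ℂ L) {m : ℕ} (hm : 0 < m)
    (htr : Algebra.trdeg ℂ L = m) {P : Place ℂ L} (hP : Divisorial m P) (δ : Derivation ℤ ℂ ℂ) :
    ∃ Δ : Derivation ℤ L L, VG.Lift δ P Δ := by
  obtain ⟨m, rfl⟩ : ∃ k, m = k + 1 := ⟨m - 1, by omega⟩
  obtain ⟨t, h⟩ := exists_co htr hP
  obtain ⟨Δ, hΔ, hΔt⟩ := exists_ext δ t h.basis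
  have ht0 : t 0 ≠ 0 := by
    intro h0
    have := h.unif
    rw [h0, P.ord_zero] at this; omega
  refine ⟨Δ, hΔ, fun n f hf => ?_⟩
  have h1 : Ge P 0 (f / t 0 ^ n) := by
    have := ge_div (zpow_ne_zero n ht0) hf
    rwa [P.ord_zpow, h.unif, mul_one, sub_self] at this
  have h2 := h.lift hess hΔ hΔt h1
  have h3 : Δ (t 0 ^ n) = 0 := by
    rw [Derivation.leibniz_zpow, hΔt, smul_zero, smul_zero]
  have h4 : Δ f = t 0 ^ n * Δ (f / t 0 ^ n) := by
    conv_lhs => rw [show f = t 0 ^ n * (f / t 0 ^ n) by field_simp]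
    rw [Derivation.leibniz, h3, smul_zero, add_zero, smul_eq_mul]
  rw [h4]
  have h5 := (ge_ord P (t 0 ^ n)).mul h2
  rwa [P.ord_zpow, h.unif, mul_one, add_zero] at h5

end Pool.Agent.K9h12.VH
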