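import Pool.Agent.K9h12.VH.Defs

/-!
Linear algebra: the choice of a basis and of a minor.

(Proofs written by helper74 for helper12.)
-/

set_option autoImplicit false
set_option linter.unusedSectionVars false

open FF

namespace Pool.Agent.K9h12.VH

variable {L : Type} [Field L] [Algebra ℂ L]

theorem lin_ext {V : Type} [AddCommGroup V] [Module L V] {m c : ℕ} {J : Type} (y : V)
    (W : Fin m → V) (T : J → V) (b : Fin c → J) (j : J)
    (h : LinearIndependent L (Sum.elim (fun _ : Unit => y) (Sum.elim W fun i => T (b i))))
    (hj : T j ∉ Submodule.span L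
      (Set.range (Sum.elim (fun _ : Unit => y) (Sum.elim W fun i => T (b i))))) :
    LinearIndependent L (Sum.elim (fun _ : Unit => y) (Sum.elim W fun i =>
      T ((Fin.snoc b j : Fin (c + 1) → J) i))) := by
  set v := Sum.elim (fun _ : Unit => y) (Sum.elim W fun i => T (b i)) with hv
  have h1 := h.option hj
  let e3 : Fin (c + 1) → Option (Unit ⊕ (Fin m ⊕ Fin c)) :=
    Fin.lastCases none fun i => some (Sum.inr (Sum.inr i))
  let e : Unit ⊕ (Fin m ⊕ Fin (c + 1)) → Option (Unit ⊕ (Fin m ⊕ Fin c)) :=
    Sum.elim (fun u => some (Sum.inl u)) (Sum.elim (fun q => some (Sum.inr (Sum.inl q))) e3)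
  have e3l : e3 (Fin.last c) = none := Fin.lastCases_last ..
  have e3c : ∀ i : Fin c, e3 i.castSucc = some (Sum.inr (Sum.inr i)) := fun i =>
    Fin.lastCases_castSucc ..
  have he : Function.Injective e := by
    rintro (u | (q | i)) (u' | (q' | i')) hh
    · rfl
    · simp [e] at hh
    · induction i' using Fin.lastCases with
      | last => simp [e, e3l] at hh
      | cast i' => simp [e, e3c] at hh
    · simp [e] at hh
    · simp only [e, Sum.elim_inr, Sum.elim_inl, Option.some.injEq, Sum.inr.injEq,
        Sum.inl.injEq] at hh
      rw [hh]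
    · induction i' using Fin.lastCases with
      | last => simp [e, e3l] at hh
      | cast i' => simp [e, e3c] at hh
    · induction i using Fin.lastCases with
      | last => simp [e, e3l] at hh
      | cast i => simp [e, e3c] at hh
    · induction i using Fin.lastCases with
      | last => simp [e, e3l] at hh
      | cast i => simp [e, e3c] at hh
    · induction i using Fin.lastCases with
      | last =>
        induction i' using Fin.lastCases with
        | last => rfl
        | cast i' => simp [e, e3l, e3c] at hh
      | cast i =>
        induction i' using Fin.lastCases with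
        | last => simp [e, e3l, e3c] at hh
        | cast i' =>
          simp only [e, Sum.elim_inr, e3c, Option.some.injEq, Sum.inr.injEq] at hh
          rw [hh]
  have h2 := h1.comp e he
  convert h2 using 1
  funext x
  rcases x with u | (q | i)
  · rfl
  · rfl
  · induction i using Fin.lastCases with
    | last =>
      simp only [Sum.elim_inr, Function.comp_apply, e, e3l, Fin.snoc_last]
      rfl
    | cast i =>
      simp only [Sum.elim_inr, Function.comp_apply, e, e3c, Fin.snoc_castSucc]
      rfl

/-- a basis of the span -/
theorem exists_choice {n m : ℕ} {J : Type} [Finite J] (y : Fin n → L) (W : Fin m → Fin n → L)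
    (hw : LinearIndependent L (Sum.elim (fun _ : Unit => y) W)) (T : J → Fin n → L) :
    ∃ (c : ℕ) (b : Fin c → J), 1 + m + c ≤ n ∧
      LinearIndependent L (Sum.elim (fun _ : Unit => y) (Sum.elim W fun i => T (b i))) ∧
      ∀ j, T j ∈ Submodule.span L
        (Set.range (Sum.elim (fun _ : Unit => y) (Sum.elim W fun i => T (b i)))) := by
  classical
  let P : ℕ → Prop := fun c => ∃ b : Fin c → J,
    LinearIndependent L (Sum.elim (fun _ : Unit => y) (Sum.elim W fun i => T (b i)))
  have hbd : ∀ c, P c → 1 + m + c ≤ n := by
    rintro c ⟨b, hb⟩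
    have h1 := hb.fintype_card_le_finrank
    rw [Module.finrank_fintype_fun_eq_card, Fintype.card_sum, Fintype.card_sum, Fintype.card_fin,
      Fintype.card_fin, Fintype.card_fin, Fintype.card_unit] at h1
    omega
  have h0 : P 0 := by
    refine ⟨Fin.elim0, ?_⟩
    let e : Unit ⊕ (Fin m ⊕ Fin 0) → Unit ⊕ Fin m :=
      Sum.elim Sum.inl (Sum.elim Sum.inr Fin.elim0)
    have he : Function.Injective e := by
      rintro (u | (q | i)) (u' | (q' | i')) hh
      · rfl
      · simp [e] at hh
      · exact i'.elim0
      · simp [e] at hh
      · simp only [e, Sum.elim_inr, Sum.elim_inl, Sum.inr.injEq] at hh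
        rw [hh]
      · exact i'.elim0
      · exact i.elim0
      · exact i.elim0
      · exact i.elim0
    have h2 := hw.comp e he
    convert h2 using 1
    funext x
    rcases x with u | (q | i)
    · rfl
    · rfl
    · exact i.elim0
  have h1 : P (Nat.findGreatest P n) := Nat.findGreatest_spec (Nat.zero_le n) h0
  obtain ⟨b, hb⟩ := id h1
  refine ⟨Nat.findGreatest P n, b, hbd _ h1, hb, fun j => ?_⟩
  by_contra hj
  have h2 : P (Nat.findGreatest P n + 1) := ⟨Fin.snoc b j, lin_ext y W T b j hb hj⟩
  have h3 := hbd _ h2
  have h4 := Nat.le_findGreatest (P := P) (by omega : Nat.findGreatest P n + 1 ≤ n) h2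
  omega

/-- linearly independent vectors have a minor which is not zero -/
theorem exists_minor {n : ℕ} {ι : Type} [Fintype ι] [DecidableEq ι] {v : ι → Fin n → L}
    (hv : LinearIndependent L v) : ∃ σ : ι → Fin n, (Matrix.of fun i j => v i (σ j)).det ≠ 0 := by
  have hrank : (Matrix.of v).rank = Fintype.card ι := by
    apply LinearIndependent.rank_matrix
    exact hv
  rw [Matrix.rank_eq_finrank_span_cols] at hrank
  obtain ⟨κ, a, ha, hspan, hli⟩ := exists_linearIndependent' L (Matrix.of v).col
  have hfin : Finite κ := Finite.of_injective a ha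
  have := Fintype.ofFinite κ
  have hcard : Fintype.card κ = Fintype.card ι := by
    rw [← hrank, ← hspan]
    exact (finrank_span_eq_card hli).symm
  have e : ι ≃ κ := Fintype.equivOfCardEq hcard.symm
  refine ⟨a ∘ e, ?_⟩
  have h1 : LinearIndependent L (((Matrix.of v).col ∘ a) ∘ e) := hli.comp e e.injective
  have h2 : LinearIndependent L (Matrix.of fun i j => v i ((a ∘ e) j)).col := h1
  rw [Matrix.linearIndependent_cols_iff_isUnit, Matrix.isUnit_iff_isUnit_det] at h2
  exact h2.ne_zero

end Pool.Agent.K9h12.VH
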