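import Pool.Agent.K9h12.VH.Loc
import Pool.Agent.K9h12.VH.Lift
import Pool.Agent.K9h12.VH.Lin

/-!
Changes of the vectors.
-/

set_option autoImplicit false
set_option linter.unusedSectionVars false
set_option linter.unusedSimpArgs false

open FF

namespace Pool.Agent.K9h12.VH

open Pool.Agent.W603.LV Pool.Agent.W602.GT

variable {L : Type} [Field L] [Algebra ℂ L]

variable {n p r m c : ℕ}

theorem der_sum {ι : Type} (s : Finset ι) (r : ι → L) (D : ι → Derivation ℂ L L) (f : L) :
    (∑ q ∈ s, r q • D q) f = ∑ q ∈ s, r q * D q f := by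
  classical
  induction s using Finset.induction_on with
  | empty => simp
  | insert i s hi ih =>
    rw [Finset.sum_insert hi, Finset.sum_insert hi, Derivation.add_apply, ih,
      Derivation.smul_apply, smul_eq_mul]

theorem sg_lin {ι ρ : Type} [Fintype ι] [DecidableEq ι] {φ : ρ → Fin n → L}
    {v v' : ι → Fin n → L} (T : Matrix ι ι L) (h : ∀ i j, v i j = ∑ k, T i k * v' k j)
    (σ : ι → ρ) : sg φ v σ = T.det * sg φ v' σ := by
  unfold sg
  rw [← Matrix.det_mul]
  congr 1
  ext i j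
  rw [Matrix.mul_apply, Matrix.of_apply]
  unfold lf
  simp_rw [h, Matrix.of_apply, Finset.mul_sum]
  rw [Finset.sum_comm]
  exact Finset.sum_congr rfl fun k _ => Finset.sum_congr rfl fun l _ => by ring

/-- the minors are multiplied by the determinant under a linear substitution -/
theorem sg_pluri {ρ : Type} {φ : ρ → Fin n → L} (A : Matrix (Fin m) (Fin m) L)
    (D : Fin m → Derivation ℂ L L) (Δ : Fin c → Derivation ℤ L L) (y : Fin n → L)
    (σ : Ix m c → ρ) :
    sg φ (vec (fun i => ∑ j, A i j • D j) Δ y) σ = A.det * sg φ (vec D Δ y) σ := by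
  have h1 := sg_lin (φ := φ) (v := vec (fun i => ∑ j, A i j • D j) Δ y) (v' := vec D Δ y)
    (Matrix.fromBlocks 1 0 0 (Matrix.fromBlocks A 0 0 1)) (fun i j => by
      rcases i with _ | i | i
      · simp [Fintype.sum_sum_type, vec]
      · simp [Fintype.sum_sum_type, vec, der_sum]
      · simp [Fintype.sum_sum_type, vec, Matrix.one_apply]) σ
  rw [h1, Matrix.det_fromBlocks_zero₁₂, Matrix.det_fromBlocks_zero₁₂, Matrix.det_one,
    Matrix.det_one, one_mul, mul_one]

/-- change of the lifts and of the homogeneous coordinates -/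
theorem sg_change {ρ : Type} {φ : ρ → Fin n → L} (D : Fin m → Derivation ℂ L L)
    {Δ Δ' : Fin c → Derivation ℤ L L} (s : Fin c → Fin m → L)
    (h : ∀ i f, Δ i f = Δ' i f + ∑ q, s i q * D q f) (lam : L) (y : Fin n → L)
    (σ : Ix m c → ρ) :
    sg φ (vec D Δ (fun j => lam * y j)) σ = lam ^ (1 + m + c) * sg φ (vec D Δ' y) σ := by
  have h1 := sg_lin (φ := φ) (v := vec D Δ (fun j => lam * y j)) (v' := vec D Δ' y)
    (Matrix.fromBlocks (lam • 1) 0 (Matrix.of fun i _ => Sum.elim (fun q => D q lam)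
      (fun i => Δ i lam) i) (Matrix.fromBlocks (lam • 1) 0 (Matrix.of fun i q => lam * s i q)
        (lam • 1))) (fun i j => by
      rcases i with _ | i | i
      · simp [Fintype.sum_sum_type, vec]
      · simp only [vec, Sum.elim_inr, Sum.elim_inl, Derivation.leibniz, smul_eq_mul,
          Fintype.sum_sum_type, Matrix.fromBlocks_apply₂₁, Matrix.fromBlocks_apply₂₂,
          Matrix.fromBlocks_apply₁₁, Matrix.fromBlocks_apply₁₂, Matrix.of_apply,
          Finset.univ_unique, Finset.sum_singleton, Matrix.smul_apply, Matrix.one_apply,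
          Matrix.zero_apply, zero_mul, Finset.sum_const_zero, add_zero, mul_ite, mul_one, mul_zero,
          ite_mul, Finset.sum_ite_eq, Finset.mem_univ, if_true]
        ring
      · simp only [vec, Sum.elim_inr, Sum.elim_inl, Derivation.leibniz, smul_eq_mul,
          Fintype.sum_sum_type, Matrix.fromBlocks_apply₂₁, Matrix.fromBlocks_apply₂₂,
          Matrix.fromBlocks_apply₁₁, Matrix.fromBlocks_apply₁₂, Matrix.of_apply,
          Finset.univ_unique, Finset.sum_singleton, Matrix.smul_apply, Matrix.one_apply,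
          Matrix.zero_apply, zero_mul, Finset.sum_const_zero, add_zero, mul_ite, mul_one, mul_zero,
          ite_mul, Finset.sum_ite_eq, Finset.mem_univ, if_true]
        rw [h i (y j)]
        have : ∑ q, lam * s i q * D q (y j) = lam * ∑ q, s i q * D q (y j) := by
          rw [Finset.mul_sum]
          exact Finset.sum_congr rfl fun q _ => by ring
        rw [this]
        ring) σ
  rw [h1, Matrix.det_fromBlocks_zero₁₂, Matrix.det_fromBlocks_zero₁₂, Matrix.det_smul,
    Matrix.det_smul, Matrix.det_smul, Matrix.det_one, Matrix.det_one, Matrix.det_one]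
  simp only [Fintype.card_unit, Fintype.card_fin, mul_one]
  rw [← pow_add, ← pow_add, add_assoc]

/-- dependent derivations -/
theorem sg_dep {ρ : Type} {φ : ρ → Fin n → L} {D : Fin m → Derivation ℂ L L}
    {Δ : Fin c → Derivation ℤ L L} (hD : ∃ s : Fin m → L, s ≠ 0 ∧ ∑ q, s q • D q = 0)
    (y : Fin n → L) (σ : Ix m c → ρ) : sg φ (vec D Δ y) σ = 0 := by
  obtain ⟨s, hs, hD⟩ := hD
  unfold sg
  rw [← Matrix.exists_vecMul_eq_zero_iff]
  refine ⟨Sum.elim 0 (Sum.elim s 0), ?_, ?_⟩
  · intro h0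
    apply hs
    funext q
    exact congrFun h0 (Sum.inr (Sum.inl q))
  · funext j
    simp only [Matrix.vecMul, dotProduct, Fintype.sum_sum_type, Sum.elim_inl, Sum.elim_inr,
      Pi.zero_apply, zero_mul, Finset.sum_const_zero, add_zero, zero_add, Matrix.of_apply]
    have h1 : ∑ q, s q * lf (φ (σ j)) (vec D Δ y (Sum.inr (Sum.inl q))) =
        ∑ i, φ (σ j) i * ∑ q, s q * D q (y i) := by
      simp only [lf, Finset.mul_sum]
      rw [Finset.sum_comm]
      refine Finset.sum_congr rfl fun i _ => Finset.sum_congr rfl fun q _ => ?_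
      change s q * (φ (σ j) i * D q (y i)) = φ (σ j) i * (s q * D q (y i))
      ring
    rw [h1]
    refine Finset.sum_eq_zero fun i _ => ?_
    rw [← der_sum, hD, Derivation.zero_apply, mul_zero]

/-- the global data -/
structure Gl (F : Fin p → MvPolynomial (Fin n) ℂ) (B : Fin p → Fin r → MvPolynomial (Fin n) ℂ)
    (e : Fin p → ℕ) (δ : Fin p → Fin r → Derivation ℤ ℂ ℂ)
    (Δ : Fin p → Fin r → Derivation ℤ L L) (y : Fin n → L) (D0 : Fin m → Derivation ℂ L L)
    (b : Fin c → Fin p × Fin r) : Prop where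
  mv : Mv F B e δ
  ext : ∀ k j z, Δ k j (algebraMap ℂ L z) = algebraMap ℂ L (δ k j z)
  span : ∀ k j, (fun i => Δ k j (y i)) ∈ Submodule.span L
    (Set.range (vec D0 (fun i => Δ (b i).1 (b i).2) y))

variable {F : Fin p → MvPolynomial (Fin n) ℂ} {B : Fin p → Fin r → MvPolynomial (Fin n) ℂ}
  {e : Fin p → ℕ} {δ : Fin p → Fin r → Derivation ℤ ℂ ℂ}
  {Δ : Fin p → Fin r → Derivation ℤ L L} {y : Fin n → L} {D0 : Fin m → Derivation ℂ L L}
  {b : Fin c → Fin p × Fin r}

/-- the span does not depend on the choices -/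
theorem Gl.mem (h : Gl F B e δ Δ y D0 b) {Δ' : Fin p → Fin r → Derivation ℤ L L}
    {D : Fin m → Derivation ℂ L L} (hD : ∀ E : Derivation ℂ L L, ∃ s : Fin m → L,
      E = ∑ q, s q • D q) {s : Fin p → Fin r → Fin m → L}
    (hs : ∀ k j f, Δ k j f = Δ' k j f + ∑ q, s k j q * D q f) {lam : L} (hlam : lam ≠ 0)
    {y' : Fin n → L} (hy : ∀ j, y j = lam * y' j) (k : Fin p) (j : Fin r) :
    (fun i => Δ' k j (y' i)) ∈ Submodule.span L
      (Set.range (vec D (fun i => Δ' (b i).1 (b i).2) y')) := by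
  set S := Submodule.span L (Set.range (vec D (fun i => Δ' (b i).1 (b i).2) y')) with hS
  have m0 : y' ∈ S := Submodule.subset_span ⟨Sum.inl (), rfl⟩
  have m1 : ∀ q, (fun i => D q (y' i)) ∈ S := fun q =>
    Submodule.subset_span ⟨Sum.inr (Sum.inl q), rfl⟩
  have m2 : ∀ i, (fun j => Δ' (b i).1 (b i).2 (y' j)) ∈ S := fun i =>
    Submodule.subset_span ⟨Sum.inr (Sum.inr i), rfl⟩
  have n0 : y ∈ S := by
    have : y = lam • y' := funext fun j => by rw [Pi.smul_apply, smul_eq_mul, hy]
    rw [this]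
    exact S.smul_mem _ m0
  have n1 : ∀ q, (fun i => D q (y i)) ∈ S := fun q => by
    have : (fun i => D q (y i)) = lam • (fun i => D q (y' i)) + (D q lam) • y' := by
      funext i
      simp only [hy, Derivation.leibniz, smul_eq_mul, Pi.add_apply, Pi.smul_apply]
      ring
    rw [this]
    exact S.add_mem (S.smul_mem _ (m1 q)) (S.smul_mem _ m0)
  have n3 : ∀ E : Derivation ℂ L L, (fun i => E (y i)) ∈ S := fun E => by
    obtain ⟨r, rfl⟩ := hD E
    have : (fun i => (∑ q, r q • D q) (y i)) = ∑ q, r q • fun i => D q (y i) := by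
      funext i
      simp [der_sum, Finset.sum_apply]
    rw [this]
    exact S.sum_mem fun q _ => S.smul_mem _ (n1 q)
  have n4 : ∀ k j, (fun i => ∑ q, s k j q * D q (y i)) ∈ S := fun k j => by
    have : (fun i => ∑ q, s k j q * D q (y i)) = ∑ q, s k j q • fun i => D q (y i) := by
      funext i
      simp [Finset.sum_apply]
    rw [this]
    exact S.sum_mem fun q _ => S.smul_mem _ (n1 q)
  have n2 : ∀ i, (fun l => Δ (b i).1 (b i).2 (y l)) ∈ S := fun i => by
    have : (fun l => Δ (b i).1 (b i).2 (y l)) = lam • (fun l => Δ' (b i).1 (b i).2 (y' l)) +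
        (Δ' (b i).1 (b i).2 lam) • y' + fun l => ∑ q, s (b i).1 (b i).2 q * D q (y l) := by
      funext l
      simp only [hs, Pi.add_apply, Pi.smul_apply, smul_eq_mul]
      congr 1
      rw [hy, Derivation.leibniz, smul_eq_mul, smul_eq_mul]
      ring
    rw [this]
    exact S.add_mem (S.add_mem (S.smul_mem _ (m2 i)) (S.smul_mem _ m0)) (n4 _ _)
  have hle : Submodule.span L (Set.range (vec D0 (fun i => Δ (b i).1 (b i).2) y)) ≤ S := by
    rw [Submodule.span_le]
    rintro _ ⟨_ | q | i, rfl⟩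
    · exact n0
    · exact n3 (D0 q)
    · exact n2 i
  have h1 := hle (h.span k j)
  have h2 : (fun i => Δ' k j (y' i)) = lam⁻¹ • ((fun i => Δ k j (y i)) -
      (fun i => ∑ q, s k j q * D q (y i))) - (lam⁻¹ * Δ' k j lam) • y' := by
    funext i
    simp only [hs, Pi.sub_apply, Pi.smul_apply, smul_eq_mul, add_sub_cancel_right]
    rw [hy, Derivation.leibniz, smul_eq_mul, smul_eq_mul]
    field_simp
    ring
  rw [h2]
  exact S.sub_mem (S.smul_mem _ (S.sub_mem h1 (n4 k j))) (S.smul_mem _ m0)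

/-- **The local estimate for the global minors.** -/
theorem Gl.loc (h : Gl F B e δ Δ y D0 b) (hess : Algebra.EssFiniteType ℂ L) (hm : 0 < m)
    (htr : Algebra.trdeg ℂ L = m) {P : Place ℂ L} (hP : Divisorial m P) {lam : L}
    (hlam : lam ≠ 0) {y' : Fin n → L} (hy : ∀ j, y j = lam * y' j) (hy' : ∀ j, Ge P 0 (y' j))
    (hy1 : ∃ j, y' j = 1) (hl : ∀ k, MvPolynomial.aeval y' (F k) ≠ 0) (D : Fin m → Derivation ℂ L L)
    (σ : Ix m c → Fin n) :
    ((∀ q, DerReg P (D q)) → (∀ q, DerLog P (D q)) →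
        Ge P (((1 + m + c : ℕ) : ℤ) * P.ord lam + ∑ k ∈ un b, P.ord (MvPolynomial.aeval y' (F k)))
        (sg (fun i => Pi.single i 1) (vec D (fun i => Δ (b i).1 (b i).2) y) σ)) ∧
      ((∀ q, DerReg P (D q)) →
        Ge P (((1 + m + c : ℕ) : ℤ) * P.ord lam + (∑ k ∈ un b, P.ord (MvPolynomial.aeval y' (F k)) - 1))
        (sg (fun i => Pi.single i 1) (vec D (fun i => Δ (b i).1 (b i).2) y) σ) ∧
        (∑ k ∈ un b, P.ord (MvPolynomial.aeval y' (F k)) = 0 →
          Ge P (((1 + m + c : ℕ) : ℤ) * P.ord lam + 0)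
          (sg (fun i => Pi.single i 1) (vec D (fun i => Δ (b i).1 (b i).2) y) σ))) := by
  rcases dep_or_basis htr D with hD | hD
  · rw [sg_dep hD]
    exact ⟨fun _ _ => Ge.zero, fun _ => ⟨Ge.zero, fun _ => Ge.zero⟩⟩
  choose Δ' hΔ' using fun k j => exists_lift hess hm htr hP (δ k j)
  have hs : ∀ k j, ∃ s : Fin m → L, ∀ f, Δ k j f = Δ' k j f + ∑ q, s q * D q f := by
    intro k j
    obtain ⟨E, hE⟩ := ext_sub (h.ext k j) (hΔ' k j).ext
    obtain ⟨s, rfl⟩ := hD E
    exact ⟨s, fun f => by rw [hE]; simp [der_sum]⟩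
  choose s hs using hs
  have hyf : y = fun j => lam * y' j := funext hy
  have e1 : sg (fun i => Pi.single i 1) (vec D (fun i => Δ (b i).1 (b i).2) y) σ =
      lam ^ (1 + m + c) *
      sg (fun i => Pi.single i 1) (vec D (fun i => Δ' (b i).1 (b i).2) y') σ := by
    rw [hyf]
    exact sg_change D (fun i => s (b i).1 (b i).2) (fun i f => hs _ _ f) lam y' σ
  have h1 := VH.loc (D := D) (b := b) h.mv hΔ' hy' hy1 hl
    (fun k j => h.mem hD hs hlam hy k j) (fun i => Sum.inl (σ i))
  have h2 : Ge P (((1 + m + c : ℕ) : ℤ) * P.ord lam) (lam ^ (1 + m + c)) := by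
    rw [← P.ord_pow]
    exact ge_ord P _
  rw [e1]
  exact ⟨fun r l => h2.mul (h1.1 r l), fun r => ⟨h2.mul (h1.2 r).1, fun h0 => h2.mul ((h1.2 r).2 h0)⟩⟩

end Pool.Agent.K9h12.VH
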