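import Pool.Agent.K9h12.VH.Chg
import Pool.Agent.W602.GT.Circ
import Pool.Agent.TH152.HY.QDefs

/-!
Very general hypersurfaces: the pluricanonical forms.
-/

set_option autoImplicit false

open FF

namespace Pool.Agent.K9h12.VH

open Pool.Agent.W603.LV Pool.Agent.W602.GT

variable {L : Type} [Field L] [Algebra ℂ L]

variable {n p r m c : ℕ}

/-- the choice of homogeneous coordinates at a place -/
theorem exists_prim (P : Place ℂ L) {y : Fin n → L} (hy1 : ∃ j, y j = 1) :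
    ∃ (lam : L) (y' : Fin n → L), lam ≠ 0 ∧ (∀ j, y j = lam * y' j) ∧ (∀ j, Ge P 0 (y' j)) ∧
    (∃ j, y' j = 1) ∧ P.ord lam ≤ 0 ∧ (∀ j, Ge P (P.ord lam) (y j)) ∧
    TH152.HY.Norm P y (P.ord lam) := by
  classical
  obtain ⟨j1, hj1⟩ := hy1
  obtain ⟨j0, hj0, hmin⟩ : ∃ j0, y j0 ≠ 0 ∧ ∀ j, y j ≠ 0 → P.ord (y j0) ≤ P.ord (y j) := by
    have hne : (Finset.univ.filter fun j => y j ≠ 0).Nonempty :=
      ⟨j1, Finset.mem_filter.2 ⟨Finset.mem_univ _, by rw [hj1]; exact one_ne_zero⟩⟩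
    obtain ⟨j0, h1, h2⟩ := Finset.exists_min_image _ (fun j => P.ord (y j)) hne
    exact ⟨j0, (Finset.mem_filter.1 h1).2, fun j hj =>
      h2 j (Finset.mem_filter.2 ⟨Finset.mem_univ _, hj⟩)⟩
  have hge : ∀ j, Ge P (P.ord (y j0)) (y j) := fun j => by
    by_cases hj : y j = 0
    · exact Or.inl hj
    · exact Or.inr (hmin j hj)
  have h0 : P.ord (y j0) ≤ 0 := by
    have := hmin j1 (by rw [hj1]; exact one_ne_zero)
    rwa [hj1, P.ord_one] at this
  refine ⟨y j0, fun j => y j / y j0, hj0, fun j => by field_simp, fun j => ?_,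
    ⟨j0, div_self hj0⟩, h0, hge, hmin, j0, hj0, rfl⟩
  have := ge_div hj0 (hge j)
  rwa [sub_self] at this

/-- the factor -/
noncomputable def gg (F : Fin p → MvPolynomial (Fin n) ℂ) (b : Fin c → Fin p × Fin r)
    (A : MvPolynomial (Fin n) ℂ) (y : Fin n → L) (z : L) : L :=
  ((∏ k ∈ (un b)ᶜ, MvPolynomial.aeval y (F k)) * MvPolynomial.aeval y A * z) /
    ∏ k ∈ un b, MvPolynomial.aeval y (F k)

theorem ge_gg {P : Place ℂ L} {F : Fin p → MvPolynomial (Fin n) ℂ}
    {b : Fin c → Fin p × Fin r}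
    {A : MvPolynomial (Fin n) ℂ} {y : Fin n → L} {z : L}
    (hl : ∀ k, MvPolynomial.aeval y (F k) ≠ 0) {α β : ℤ}
    (hA : Ge P α (MvPolynomial.aeval y A)) (hz : Ge P β z) :
    Ge P (∑ k ∈ (un b)ᶜ, P.ord (MvPolynomial.aeval y (F k)) + α + β -
      ∑ k ∈ un b, P.ord (MvPolynomial.aeval y (F k))) (gg F b A y z) := by
  classical
  have h1 : ∏ k ∈ un b, MvPolynomial.aeval y (F k) ≠ 0 :=
    Finset.prod_ne_zero_iff.2 fun k _ => hl k
  have h2 : P.ord (∏ k ∈ un b, MvPolynomial.aeval y (F k)) =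
      ∑ k ∈ un b, P.ord (MvPolynomial.aeval y (F k)) :=
    W602.GT.ord_prod' P _ _ fun k _ => hl k
  rw [← h2]
  refine ge_div h1 ((Ge.mul ?_ hA).mul hz)
  exact Ge.prod _ _ _ fun k _ => ge_ord P _

theorem card_un (b : Fin c → Fin p × Fin r) : (un b)ᶜ.card ≤ c := by
  classical
  have h1 : (un b)ᶜ ⊆ Finset.univ.image fun i => (b i).1 := by
    intro k hk
    simp only [un, Finset.mem_compl, Finset.mem_filter, Finset.mem_univ, true_and, not_forall,
      not_not] at hk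
    obtain ⟨i, hi⟩ := hk
    exact Finset.mem_image.2 ⟨i, Finset.mem_univ _, hi⟩
  refine (Finset.card_le_card h1).trans (Finset.card_image_le.trans ?_)
  simp

/-- the numbers -/
theorem num {S S' μ α R u u' d e : ℤ} (hμ : μ ≤ 0) (hq : 2 * R + u' + d + 1 ≤ u)
    (he : e = 2 * (R * μ + S) + (S' + u' * μ + (α + d * μ) + μ - (S + u * μ))) :
    S + S' + α ≤ e := by
  subst he
  nlinarith [mul_nonneg (sub_nonneg.2 hq) (neg_nonneg.2 hμ)]

/-- the forms -/
noncomputable def om {m c : ℕ} (F : Fin p → MvPolynomial (Fin n) ℂ)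
    (Δ : Fin p → Fin r → Derivation ℤ L L) (b : Fin c → Fin p × Fin r)
    (A : MvPolynomial (Fin n) ℂ) (y : Fin n → L) (σ : Ix m c → Fin n) (z : L)
    (D : Fin m → Derivation ℂ L L) : L :=
  sg (fun i => Pi.single i 1) (vec D (fun i => Δ (b i).1 (b i).2) y) σ ^ 2 * gg F b A y z

/-- the degrees are large enough for the subvarieties of dimension `m` -/
def Big (n m : ℕ) (e : Fin p → ℕ) (d : ℕ) : Prop :=
  ∀ T : Finset (Fin p), T.card + 1 + m ≤ n → 2 * n + 1 + d + ∑ k ∈ T, e k ≤ ∑ k ∈ Tᶜ, e k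

theorem Big.mono {n m m' : ℕ} {e : Fin p → ℕ} {d : ℕ} (h : Big n m e d) (hm : m ≤ m') :
    Big n m' e d := fun T hT => h T (by omega)

/-- the point `y` with values in `L` does not meet the hypersurfaces `F k = 0` of degrees `e k` in
a simple contact at the place `P`, outside the hypersurface `A = 0` of degree `d` -/
def Ctp (F : Fin p → MvPolynomial (Fin n) ℂ) (e : Fin p → ℕ) (A : MvPolynomial (Fin n) ℂ) (d : ℕ)
    (P : Place ℂ L) (y : Fin n → L) : Prop :=
  ∀ c : ℤ, TH152.HY.Norm P y c → P.ord (MvPolynomial.aeval y A) = d * c →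
    ∑ k, (P.ord (MvPolynomial.aeval y (F k)) - e k * c) ≠ 1

/-- **The forms are regular.** -/
theorem om_reg {F : Fin p → MvPolynomial (Fin n) ℂ}
    {B : Fin p → Fin r → MvPolynomial (Fin n) ℂ} {e : Fin p → ℕ}
    {δ : Fin p → Fin r → Derivation ℤ ℂ ℂ}
    {Δ : Fin p → Fin r → Derivation ℤ L L} {y : Fin n → L} {D0 : Fin m → Derivation ℂ L L}
    {b : Fin c → Fin p × Fin r} (h : Gl F B e δ Δ y D0 b) (hy1 : ∃ j, y j = 1)
    (hess : Algebra.EssFiniteType ℂ L) (hm : 0 < m) (htr : Algebra.trdeg ℂ L = m)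
    (hc : 1 + m + c ≤ n) {A : MvPolynomial (Fin n) ℂ} {d : ℕ} (hAh : A.IsHomogeneous d)
    (hp : Big n m e d)
    (hl : ∀ k, MvPolynomial.aeval y (F k) ≠ 0) (hA : MvPolynomial.aeval y A ≠ 0)
    (σ : Ix m c → Fin n) {z : L} (hz : ∃ j, z = y j) {P : Place ℂ L}
    (hP : Divisorial m P) :
    LogAt P (om F Δ b A y σ z) ∧ (Ctp F e A d P y → RegAt P (om F Δ b A y σ z)) := by
  classical
  obtain ⟨lam, y', hlam, hy, hy', hy1', hμ, hx, hN⟩ := exists_prim P hy1
  have hyf : y = fun j => lam * y' j := funext hy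
  set μ := P.ord lam with hμd
  have hell : ∀ {G : MvPolynomial (Fin n) ℂ} {g : ℕ}, G.IsHomogeneous g →
      MvPolynomial.aeval y G = lam ^ g * MvPolynomial.aeval y' G := by
    intro G g hG
    obtain ⟨n', rfl⟩ : ∃ n', n = n' + 1 := ⟨n - 1, by omega⟩
    rw [hyf]
    exact val_smul hG lam y'
  have hl' : ∀ k, MvPolynomial.aeval y' (F k) ≠ 0 := fun k h0 =>
    hl k (by rw [hell (h.mv.hom k), h0, mul_zero])
  have hA' : MvPolynomial.aeval y' A ≠ 0 := fun h0 =>
    hA (by rw [hell hAh, h0, mul_zero])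
  have hord : ∀ k, P.ord (MvPolynomial.aeval y (F k)) =
      P.ord (MvPolynomial.aeval y' (F k)) + e k * μ :=
    fun k => by
      rw [hell (h.mv.hom k), P.ord_mul (pow_ne_zero _ hlam) (hl' k), P.ord_pow]
      ring
  have hordA : P.ord (MvPolynomial.aeval y A) = P.ord (MvPolynomial.aeval y' A) + d * μ := by
    rw [hell hAh, P.ord_mul (pow_ne_zero _ hlam) hA', P.ord_pow]
    ring
  have he0 : ∀ k, 0 ≤ P.ord (MvPolynomial.aeval y' (F k)) := fun k =>
    (ge_aeval0 hy' (F k)).resolve_left (hl' k)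
  have hα0 : 0 ≤ P.ord (MvPolynomial.aeval y' A) := (ge_aeval0 hy' A).resolve_left hA'
  have hzge : Ge P μ z := by
    obtain ⟨j, rfl⟩ := hz
    exact hx j
  have hAge : Ge P (P.ord (MvPolynomial.aeval y A)) (MvPolynomial.aeval y A) := ge_ord P _
  have hg := ge_gg (b := b) hl hAge hzge
  set α := P.ord (MvPolynomial.aeval y' A) with hαd
  set S := ∑ k ∈ un b, P.ord (MvPolynomial.aeval y' (F k)) with hS
  set S' := ∑ k ∈ (un b)ᶜ, P.ord (MvPolynomial.aeval y' (F k)) with hS'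
  have e1 : ∑ k ∈ un b, P.ord (MvPolynomial.aeval y (F k)) = S + (∑ k ∈ un b, e k : ℕ) * μ := by
    rw [Finset.sum_congr rfl fun k _ => hord k, Finset.sum_add_distrib, ← Finset.sum_mul,
      Nat.cast_sum]
  have e2 : ∑ k ∈ (un b)ᶜ, P.ord (MvPolynomial.aeval y (F k)) =
      S' + (∑ k ∈ (un b)ᶜ, e k : ℕ) * μ := by
    rw [Finset.sum_congr rfl fun k _ => hord k, Finset.sum_add_distrib, ← Finset.sum_mul,
      Nat.cast_sum]
  have e3 : S + S' = ∑ k, P.ord (MvPolynomial.aeval y' (F k)) := Finset.sum_add_sum_compl _ _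
  have hS0 : 0 ≤ S := Finset.sum_nonneg fun k _ => he0 k
  have hS0' : 0 ≤ S' := Finset.sum_nonneg fun k _ => he0 k
  rw [e1, e2, hordA] at hg
  have c2 := card_un b
  have c3 := hp (un b)ᶜ (by omega)
  rw [compl_compl] at c3
  have hq : 2 * ((1 + m + c : ℕ) : ℤ) + (∑ k ∈ (un b)ᶜ, e k : ℕ) + d + 1 ≤
      (∑ k ∈ un b, e k : ℕ) := by
    omega
  have hreg : ∀ {D : Fin m → Derivation ℂ L L}, (∀ q, DerLog P (D q)) → ∀ q, DerReg P (D q) := by
    intro D hD q f hf
    by_cases hf0 : f = 0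
    · rw [hf0, map_zero]
      exact P.reg_zero
    · have h1 : Ge P 0 (D q f / f) := hD q f
      have h2 := h1.mul (show Ge P 0 f from hf)
      rw [div_mul_cancel₀ _ hf0] at h2
      exact h2
  have h3 := num hμ hq (S := S) (S' := S') (α := α) (R := ((1 + m + c : ℕ) : ℤ)) rfl
  refine ⟨fun D hD => ?_, fun hst D hD => ?_⟩
  · have h1 := ((h.loc hess hm htr hP hlam hy hy' hy1' hl' D σ).1 (hreg hD) hD).pow 2
    have h2 := h1.mul hg
    refine h2.mono ?_
    push_cast at h3 ⊢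
    linarith
  · obtain ⟨r1, r2⟩ := (h.loc hess hm htr hP hlam hy hy' hy1' hl' D σ).2 hD
    by_cases hS1 : S = 0
    · have h2 := ((r2 hS1).pow 2).mul hg
      refine h2.mono ?_
      push_cast at h3 ⊢
      rw [hS1] at h3 ⊢
      linarith
    · have h2 := (r1.pow 2).mul hg
      have h4 : 2 ≤ S + S' + α := by
        by_contra hcon
        have h5 : S = 1 ∧ S' = 0 ∧ α = 0 := by omega
        obtain ⟨h6, h7, h8⟩ := h5
        refine hst μ hN (by rw [hordA, h8, zero_add]) ?_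
        rw [Finset.sum_congr rfl fun k _ => by rw [hord k, add_sub_cancel_right], ← e3, h6, h7]
        rfl
      refine h2.mono ?_
      push_cast at h3 ⊢
      linarith

end Pool.Agent.K9h12.VH
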