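import Pool.Agent.K9h12.VG.High

/-!
Very general hyperplanes in projective space: definitions.
-/

set_option autoImplicit false
set_option linter.unusedSectionVars false

open FF

namespace Pool.Agent.K9h12.VH

open Pool.Agent.W603.LV Pool.Agent.W602.GT

variable {L : Type} [Field L] [Algebra ℂ L]

/-- the linear form with the coefficients `c` -/
def lf {n : ℕ} (c : Fin n → L) (y : Fin n → L) : L := ∑ j, c j * y j

/-- the minor of the vectors `v i` with respect to the linear forms `φ (σ j)` -/
noncomputable def sg {n : ℕ} {ι ρ : Type} [Fintype ι] [DecidableEq ι] (φ : ρ → Fin n → L)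
    (v : ι → Fin n → L) (σ : ι → ρ) : L := (Matrix.of fun i j => lf (φ (σ j)) (v i)).det

/-- the coordinates and the linear forms with the coefficients `a k` -/
def ph {n p : ℕ} (a : Fin p → Fin n → L) : Fin n ⊕ Fin p → Fin n → L :=
  Sum.elim (fun i => Pi.single i 1) a

/-- the index type of the vectors -/
abbrev Ix (m c : ℕ) := Unit ⊕ (Fin m ⊕ Fin c)

/-- the vector `y` and its derivatives -/
def vec {n m c : ℕ} (D : Fin m → Derivation ℂ L L) (Δ : Fin c → Derivation ℤ L L)
    (y : Fin n → L) : Ix m c → Fin n → L :=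
  Sum.elim (fun _ => y) (Sum.elim (fun q j => D q (y j)) fun b j => Δ b (y j))

theorem lf_single {n : ℕ} (i : Fin n) (y : Fin n → L) : lf (Pi.single i 1) y = y i := by
  unfold lf
  rw [Finset.sum_eq_single i]
  · simp
  · intro j _ hj
    simp [hj]
  · intro h
    exact absurd (Finset.mem_univ i) h

theorem ph_inl {n p : ℕ} (a : Fin p → Fin n → L) (i : Fin n) (y : Fin n → L) :
    lf (ph a (Sum.inl i)) y = y i := lf_single i y

theorem ph_inr {n p : ℕ} (a : Fin p → Fin n → L) (k : Fin p) (y : Fin n → L) :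
    lf (ph a (Sum.inr k)) y = lf (a k) y := rfl

theorem lf_add {n : ℕ} (c : Fin n → L) (y z : Fin n → L) : lf c (y + z) = lf c y + lf c z := by
  unfold lf
  rw [← Finset.sum_add_distrib]
  refine Finset.sum_congr rfl fun j _ => ?_
  rw [Pi.add_apply]
  ring

theorem lf_smul {n : ℕ} (c : Fin n → L) (s : L) (y : Fin n → L) : lf c (s • y) = s * lf c y := by
  unfold lf
  rw [Finset.mul_sum]
  refine Finset.sum_congr rfl fun j _ => ?_
  rw [Pi.smul_apply, smul_eq_mul]
  ring

theorem lf_ge {P : Place ℂ L} {n : ℕ} {c : Fin n → L} (hc : ∀ j, Ge P 0 (c j)) {y : Fin n → L}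
    {e : ℤ} (hy : ∀ j, Ge P e (y j)) : Ge P e (lf c y) := by
  refine Ge.sum _ _ fun j _ => ?_
  have := (hc j).mul (hy j)
  rwa [zero_add] at this

end Pool.Agent.K9h12.VH
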