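import Pool.Agent.K9h12.VH.Defs

/-!
The order of a determinant with logarithmic columns.
-/

set_option autoImplicit false

open FF

namespace Pool.Agent.K9h12.VH

open Pool.Agent.W603.LV Pool.Agent.W602.GT

variable {L : Type} [Field L] [Algebra ℂ L]

/-- a determinant with bounds for the columns -/
theorem det_ge_col {ι : Type} [Fintype ι] [DecidableEq ι] (P : Place ℂ L) (M : Matrix ι ι L) (e : ι → ℤ)
    (hM : ∀ i j, Ge P (e j) (M i j)) : Ge P (∑ j, e j) M.det := by
  rw [Matrix.det_apply']
  refine Ge.sum _ _ fun σ _ => ?_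
  have h1 := (Ge.intCast (P := P) (Equiv.Perm.sign σ : ℤ)).mul
    (Ge.prod Finset.univ (fun i => M (σ i) i) e (fun i _ => hM _ _))
  rwa [zero_add] at h1

/-- determinants with columns which are multiples of regular columns -/
theorem det_ge_log {ι : Type} [Fintype ι] [DecidableEq ι] (P : Place ℂ L) (M : Matrix ι ι L)
    (T : Finset ι) (h : ι → L) (hT : ∀ j ∈ T, h j ≠ 0) (hM : ∀ i, ∀ j ∉ T, Ge P 0 (M i j))
    (hlog : ∀ i, ∀ j ∈ T, Ge P 0 (M i j / h j)) : Ge P (∑ j ∈ T, P.ord (h j)) M.det := by
  have h1 := det_ge_col P M (fun j => if j ∈ T then P.ord (h j) else 0) fun i j => by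
    by_cases hj : j ∈ T
    · rw [if_pos hj]
      have h2 : Ge P (P.ord (h j)) (h j) := Or.inr le_rfl
      have h3 := h2.mul (hlog i j hj)
      rwa [add_zero, mul_div_cancel₀ _ (hT j hj)] at h3
    · rw [if_neg hj]
      exact hM i j hj
  rwa [Finset.sum_ite_mem, Finset.univ_inter] at h1

/-- determinants with columns which are multiples of columns with poles of order one with
proportional polar parts -/
theorem det_ge_reg {ι : Type} [Fintype ι] [DecidableEq ι] (P : Place ℂ L) (M : Matrix ι ι L)
    (T : Finset ι) (h : ι → L) (hT : ∀ j ∈ T, h j ≠ 0 ∧ P.ord (h j) ≠ 0)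
    (hM : ∀ i, ∀ j ∉ T, Ge P 0 (M i j))
    (r : ι → L) (hr : ∀ i, Ge P (-1) (r i))
    (hreg : ∀ i, ∀ j ∈ T, Ge P 0 (M i j / h j - P.ord (h j) * r i)) :
    Ge P (∑ j ∈ T, P.ord (h j) - 1) M.det := by
  rcases T.eq_empty_or_nonempty with rfl | ⟨j0, hj0⟩
  · have h1 := det_ge_log P M ∅ h (fun j hj => absurd hj (Finset.notMem_empty j)) hM
      fun i j hj => absurd hj (Finset.notMem_empty j)
    exact h1.mono (by omega)
  -- the constants
  set c : ι → L := fun j => if j ∈ T ∧ j ≠ j0 then
    algebraMap ℂ L ((P.ord (h j) : ℂ) / (P.ord (h j0) : ℂ)) else 0 with hc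
  have ho : ((P.ord (h j0) : ℤ) : ℂ) ≠ 0 := Int.cast_ne_zero.2 (hT j0 hj0).2
  have hoL : ∀ j, algebraMap ℂ L ((P.ord (h j) : ℂ) / (P.ord (h j0) : ℂ)) * (P.ord (h j0) : L) =
      (P.ord (h j) : L) := by
    intro j
    have h2 : ((P.ord (h j0) : ℤ) : L) = algebraMap ℂ L ((P.ord (h j0) : ℤ) : ℂ) := by
      rw [map_intCast]
    rw [h2, ← map_mul, div_mul_cancel₀ _ ho, map_intCast]
  set N : Matrix ι ι L := Matrix.of fun i j => if j ∈ T then M i j / h j else M i j with hN
  set N' : Matrix ι ι L := Matrix.of fun i j => N i j - c j * N i j0 with hN'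
  have hc0 : c j0 = 0 := by
    rw [hc]
    exact if_neg fun h => h.2 rfl
  have hNN : N.det = N'.det := by
    rw [← Matrix.det_transpose N, ← Matrix.det_transpose N']
    refine Matrix.det_eq_of_forall_row_eq_smul_add_const c j0 hc0 fun j i => ?_
    rw [Matrix.transpose_apply, Matrix.transpose_apply, Matrix.transpose_apply, hN', Matrix.of_apply,
      Matrix.of_apply, hc0]
    ring
  have hMN : M.det = (∏ j, if j ∈ T then h j else 1) * N.det := by
    rw [← Matrix.det_mul_row]
    congr 1
    ext i j
    rw [Matrix.of_apply, hN, Matrix.of_apply]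
    by_cases hj : j ∈ T
    · rw [if_pos hj, if_pos hj, mul_div_cancel₀ _ (hT j hj).1]
    · rw [if_neg hj, if_neg hj, one_mul]
  have hj0N : ∀ i, N i j0 = M i j0 / h j0 := by
    intro i
    rw [hN, Matrix.of_apply, if_pos hj0]
  have hdet : Ge P (-1) N'.det := by
    have h1 := det_ge_col P N' (fun j => if j = j0 then -1 else 0) fun i j => by
      rw [hN', Matrix.of_apply]
      by_cases hj : j = j0
      · subst hj
        rw [if_pos rfl, hc0, zero_mul, sub_zero, hj0N]
        have h2 := (hreg i j hj0).mono (show (-1 : ℤ) ≤ 0 by norm_num)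
        have h3 := (Ge.intCast (P := P) (P.ord (h j))).mul (hr i)
        rw [zero_add] at h3
        have h4 := h2.add h3
        rwa [sub_add_cancel] at h4
      · rw [if_neg hj]
        by_cases hjT : j ∈ T
        · have hcj : c j = algebraMap ℂ L ((P.ord (h j) : ℂ) / (P.ord (h j0) : ℂ)) := by
            rw [hc]
            exact if_pos ⟨hjT, hj⟩
          have h2 : N i j = M i j / h j := by
            rw [hN, Matrix.of_apply, if_pos hjT]
          have h3 : N i j - c j * N i j0 = (M i j / h j - P.ord (h j) * r i) -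
              algebraMap ℂ L ((P.ord (h j) : ℂ) / (P.ord (h j0) : ℂ)) *
                (M i j0 / h j0 - P.ord (h j0) * r i) := by
            rw [h2, hcj, hj0N]
            have h4 := hoL j
            linear_combination (-(r i)) * h4
          rw [h3]
          have h5 := (Ge.const (P := P) ((P.ord (h j) : ℂ) / (P.ord (h j0) : ℂ))).mul (hreg i j0 hj0)
          rw [zero_add] at h5
          exact (hreg i j hjT).sub h5
        · have hcj : c j = 0 := by
            rw [hc]
            exact if_neg fun h => hjT h.1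
          rw [hcj, zero_mul, sub_zero, hN, Matrix.of_apply, if_neg hjT]
          exact hM i j hjT
    rwa [Finset.sum_ite_eq', if_pos (Finset.mem_univ j0)] at h1
  have hprod : Ge P (∑ j ∈ T, P.ord (h j)) (∏ j, if j ∈ T then h j else 1) := by
    have h1 := Ge.prod (P := P) Finset.univ (fun j => if j ∈ T then h j else 1)
      (fun j => if j ∈ T then P.ord (h j) else 0) fun j _ => by
        by_cases hj : j ∈ T
        · rw [if_pos hj, if_pos hj]
          exact Or.inr le_rfl
        · rw [if_neg hj, if_neg hj]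
          exact Ge.one
    rwa [Finset.sum_ite_mem, Finset.univ_inter] at h1
  rw [hMN, hNN]
  exact hprod.mul hdet

end Pool.Agent.K9h12.VH
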