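import Pool.Agent.TH152.HY.QMain

/-!
The contact orders of a quasi-projective variety over projective space with hypersurfaces.
-/

set_option autoImplicit false

open MvPolynomial

namespace Pool.Agent.K9h12.VH

open Pool.Agent.W602.Cov Pool.Agent.W602.Cov.Cover Pool.Agent.W602.Cov.R
open Pool.Agent.TH152.HY hiding main

variable {N n p : ℕ}

/-- Outside `G1 = 0`, the variety `X - D` has no simple contacts with the hypersurfaces `F k = 0` of
degrees `e k` outside the hypersurface `A = 0` of degree `d`: for every point of `X` over a field `L`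
which is not on `G1 = 0`, `F k = 0` or `A = 0`, and for every place of `L` whose centre is not in `D`
and not in `A = 0`, the total contact order with the hypersurfaces is not one. -/
def NoSimple (G1 : BiPoly N n) (F : Fin p → MvPolynomial (Fin (n + 1)) ℂ) (e : Fin p → ℕ)
    (A : MvPolynomial (Fin (n + 1)) ℂ) (d : ℕ) (X D : BiSet N n) : Prop :=
  ∀ (L : Type) [Field L] [Algebra ℂ L] (x : Fin (N + 1) → L) (y : Fin (n + 1) → L), X.Mem x y →
    aeval (Sum.elim x y) G1 ≠ 0 → (∀ k, aeval y (F k) ≠ 0) → aeval y A ≠ 0 →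
    ∀ P : FF.Place ℂ L, ¬ CentreIn D x y P → ∀ c : ℤ, Norm P y c → P.ord (aeval y A) = d * c →
      ∑ k, (P.ord (aeval y (F k)) - e k * c) ≠ 1

/-- Outside `G1 = 0`, the variety `X - D` is ramified over the hypersurfaces `F k = 0` of degree `e`:
if the contact orders of a germ of a curve on `X - D` with the hypersurfaces are `w k`, then the
number of the positive `w k` is at most `1 - s` times the sum of the `w k`. -/
def Ram (G1 : BiPoly N n) (F : Fin p → MvPolynomial (Fin (n + 1)) ℂ) (e : ℕ) (s : ℝ)
    (X D : BiSet N n) : Prop :=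
  ∀ (L : Type) [Field L] [Algebra ℂ L] (x : Fin (N + 1) → L) (y : Fin (n + 1) → L), X.Mem x y →
    aeval (Sum.elim x y) G1 ≠ 0 → (∀ k, aeval y (F k) ≠ 0) →
    ∀ P : FF.Place ℂ L, ¬ CentreIn D x y P → ∀ (c : ℤ) (w : Fin p → ℕ), Norm P y c →
      (∀ k, P.ord (aeval y (F k)) = e * c + w k) →
      ((Finset.univ.filter fun k => w k ≠ 0).card : ℝ) ≤ ∑ k, (1 - s) * (w k : ℝ)

end Pool.Agent.K9h12.VH
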