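import Pool.Agent.K9h12.VH.Fin
import Pool.Agent.K9h12.VH.Bi
import Pool.Agent.K9h12.VH.Sim

/-!
Quasi-projective varieties over projective space without simple contacts with very general
hypersurfaces: the subvarieties of given dimensions.
-/

set_option autoImplicit false
set_option linter.unusedSectionVars false

open MvPolynomial Metric Filter Topology

namespace Pool.Agent.K9h12.VH

open Pool.Agent.W602.Cov Pool.Agent.W602.Cov.Cover Pool.Agent.W602.Cov.R Pool.Agent.W603.BP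
open Pool.Agent.W601.PH Pool.Agent.W602.GT
open Pool.Agent.TH152.HY hiding main
open Pool.Agent.Y190.SC (FiniteOver)
open Pool.Agent.TH152.DS (Effective)

variable {N n p r : ℕ}

/-- **The transfer.** -/
theorem bi_transfer2 {X D : BiSet N n} {K : Type} [Field K] [Algebra ℂ K] {x : Fin (N + 1) → K}
    {y : Fin (n + 1) → K} (hK : X.FunctionField K x y) (hD : ¬ D.Mem x y)
    (halg : Algebra.IsAlgebraic
      (IntermediateField.adjoin ℂ {f : K | ∃ i j, y j ≠ 0 ∧ f = y i / y j}) K)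
    {G1 : BiPoly N n} {a1 b1 : ℕ} (hG1 : BiHom G1 a1 b1) (hG1x : aeval (Sum.elim x y) G1 ≠ 0)
    {Q1 : MvPolynomial (Fin (n + 1)) ℂ} {E1 : ℕ} (hQ1 : Q1.IsHomogeneous E1)
    (hy : aeval y Q1 ≠ 0) :
    ∃ (G : BiPoly N n) (E E' : ℕ), BiHom G E E' ∧ aeval (Sum.elim x y) G ≠ 0 ∧
      (∃ u v, QMem X D u v ∧ eval (Sum.elim u v) G ≠ 0) ∧
      (∀ (L : Type) [Field L] [Algebra ℂ L] (x' : Fin (N + 1) → L) (y' : Fin (n + 1) → L),
        X.Mem x' y' → aeval (Sum.elim x' y') G ≠ 0 →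
        IntermediateField.adjoin ℂ ({f : L | ∃ i j, x' j ≠ 0 ∧ f = x' i / x' j} ∪
          {f : L | ∃ i j, y' j ≠ 0 ∧ f = y' i / y' j}) = ⊤ →
        aeval (Sum.elim x' y') G1 ≠ 0 ∧ aeval y' Q1 ≠ 0 ∧ Algebra.EssFiniteType ℂ L ∧
        Algebra.IsAlgebraic
          (IntermediateField.adjoin ℂ {f : L | ∃ i j, y' j ≠ 0 ∧ f = y' i / y' j}) L) ∧
      (FiniteOver X → G = G1 * rename Sum.inr Q1) := by
  classical
  by_cases hfin : FiniteOver X
  · have hG := biHom_mul hG1 (biHom_rename (N := N) hQ1)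
    have hne : aeval (Sum.elim x y) (G1 * rename Sum.inr Q1 : BiPoly N n) ≠ 0 := by
      rw [map_mul, aeval_inr']
      exact mul_ne_zero hG1x hy
    refine ⟨G1 * rename Sum.inr Q1, _, _, hG, hne, exists_pt hK hD hG hne, ?_, fun _ => rfl⟩
    intro L _ _ x' y' hmem hne hgen
    rw [map_mul, aeval_inr'] at hne
    obtain ⟨hne1, hne⟩ := mul_ne_zero_iff.1 hne
    exact ⟨hne1, hne, ess_of_gen' hgen, hfin.alg hmem hgen⟩
  choose Dg mm e hrel using fun i j => exists_rel hK halg i j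
  let Q0 : MvPolynomial (Fin (n + 1)) ℂ :=
    ∏ i : Fin (N + 1), ∏ j : Fin (N + 1), e i j (mm i j)
  let Q : MvPolynomial (Fin (n + 1)) ℂ := Q0 * Q1
  obtain ⟨E, hQh⟩ : ∃ E, Q.IsHomogeneous E :=
    ⟨_, (IsHomogeneous.prod _ _ _ fun i _ => IsHomogeneous.prod _ _ _ fun j _ =>
      (hrel i j).1.hom _ le_rfl).mul hQ1⟩
  have hsplit : ∀ {L : Type} [Field L] [Algebra ℂ L] (y' : Fin (n + 1) → L), aeval y' Q ≠ 0 →
      (∀ i j, aeval y' (e i j (mm i j)) ≠ 0) ∧ aeval y' Q1 ≠ 0 := by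
    intro L _ _ y' hy
    simp only [Q, Q0, map_mul, map_prod] at hy
    refine ⟨fun i j h0 => hy ?_, fun h0 => hy ?_⟩
    · rw [Finset.prod_eq_zero (Finset.mem_univ i) (Finset.prod_eq_zero (Finset.mem_univ j) h0),
        zero_mul]
    · rw [h0, mul_zero]
  have hyQ : aeval y Q ≠ 0 := by
    simp only [Q, Q0, map_mul, map_prod]
    exact mul_ne_zero (Finset.prod_ne_zero_iff.mpr fun i _ =>
      Finset.prod_ne_zero_iff.mpr fun j _ => (hrel i j).2) hy
  have hG := biHom_mul hG1 (biHom_rename (N := N) hQh)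
  have hne : aeval (Sum.elim x y) (G1 * rename Sum.inr Q : BiPoly N n) ≠ 0 := by
    rw [map_mul, aeval_inr']
    exact mul_ne_zero hG1x hyQ
  refine ⟨G1 * rename Sum.inr Q, _, _, hG, hne, exists_pt hK hD hG hne, ?_,
    fun h => absurd h hfin⟩
  intro L _ _ x' y' hmem hne hgen
  rw [map_mul, aeval_inr'] at hne
  obtain ⟨hne1, hne⟩ := mul_ne_zero_iff.1 hne
  obtain ⟨h1, h2⟩ := hsplit y' hne
  exact ⟨hne1, h2, ess_of_gen' hgen, alg_sub (fun i j => (hrel i j).1) hmem h1 hgen⟩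

section main

variable {𝕜 : Type} [Field 𝕜] [Algebra 𝕜 ℂ]

variable {e : Fin p → ℕ} {H : Fin p → MvPolynomial (Fin (n + 1)) 𝕜}
    {B : Fin p → Fin r → MvPolynomial (Fin (n + 1)) 𝕜} {a : Fin p → Fin r → ℂ}

/-- **The main theorem**, for the subvarieties of dimension at least `w`. -/
theorem main2 (hF : Fam e H B a) {A : MvPolynomial (Fin (n + 1)) ℂ} {d : ℕ}
    (hA : A.IsHomogeneous d) {w : ℕ} (hw : 1 ≤ w) (hp : Big (n + 1) w e d) {X D : BiSet N n}
    {G1 : BiPoly N n} {a1 b1 : ℕ} (hG1 : BiHom G1 a1 b1)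
    (hns : NoSimple G1 (mem H B a) e A d X D) {K : Type}
    [Field K] [Algebra ℂ K] {x : Fin (N + 1) → K} {y : Fin (n + 1) → K}
    (hK : X.FunctionField K x y) (hD : ¬ D.Mem x y) (hG1x : aeval (Sum.elim x y) G1 ≠ 0)
    (halg : Algebra.IsAlgebraic
      (IntermediateField.adjoin ℂ {f : K | ∃ i j, y j ≠ 0 ∧ f = y i / y j}) K)
    (hy : ∀ k, aeval y (mem H B a k) ≠ 0) (hyA : aeval y A ≠ 0) :
    ∃ (G : BiPoly N n) (E E' : ℕ), BiHom G E E' ∧ aeval (Sum.elim x y) G ≠ 0 ∧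
      (∃ u v, QMem X D u v ∧ eval (Sum.elim u v) G ≠ 0) ∧
      (∀ (L : Type) [Field L] [Algebra ℂ L] (x' : Fin (N + 1) → L) (y' : Fin (n + 1) → L) (t : ℕ),
        X.Mem x' y' → aeval (Sum.elim x' y') G ≠ 0 →
        IntermediateField.adjoin ℂ ({f : L | ∃ i j, x' j ≠ 0 ∧ f = x' i / x' j} ∪
          {f : L | ∃ i j, y' j ≠ 0 ∧ f = y' i / y' j}) = ⊤ → Algebra.trdeg ℂ L = t → w ≤ t →
        LogGeneralType ℂ L t (CentreIn D x' y') ∧ Effective L 2 t (CentreIn D x' y') y') ∧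
      (FiniteOver X → G = G1 * rename Sum.inr ((∏ k, mem H B a k) * A)) := by
  obtain ⟨δ, hmv⟩ := hF.move
  obtain ⟨G, E, E', g1, g2, g3, g4, g5⟩ := bi_transfer2 hK hD halg hG1 hG1x
    (Q1 := (∏ k, mem H B a k) * A)
    ((IsHomogeneous.prod _ _ _ fun k _ => hmv.hom k).mul hA) (by
      rw [map_mul, map_prod]
      exact mul_ne_zero (Finset.prod_ne_zero_iff.2 fun k _ => hy k) hyA)
  refine ⟨G, E, E', g1, g2, g3, ?_, g5⟩
  intro L _ _ x' y' t hmem hne hgen htr hwt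
  obtain ⟨hne1, hne2, hess, halg'⟩ := g4 L x' y' hmem hne hgen
  rw [map_mul, map_prod] at hne2
  obtain ⟨h1, h2⟩ := mul_ne_zero_iff.1 hne2
  have h1 : ∀ k, aeval y' (mem H B a k) ≠ 0 := fun k =>
    Finset.prod_ne_zero_iff.1 h1 k (Finset.mem_univ k)
  exact core hmv hA (hp.mono hwt) hmem.2.1 hess (by omega) htr halg' h1 h2 fun P hP =>
    hns L x' y' hmem hne1 h1 h2 P hP

end main

end Pool.Agent.K9h12.VH
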