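import Pool.Agent.TH152.HY.QMain

/-!
The contact orders of holomorphic maps from the punctured disc.
-/

set_option autoImplicit false

open MvPolynomial Metric Filter Topology

namespace Pool.Agent.K9h12.VH

open Pool.Agent.W602.Cov Pool.Agent.W602.Cov.Cover Pool.Agent.W602.Cov.R Pool.Agent.W603.BP
open Pool.Agent.W601.PH Pool.Agent.W602.Cov.G Pool.Agent.W602.GT
open Pool.Agent.TH152.HY hiding main

variable {N n q : ℕ}

/-- the multiplicities of holomorphic maps from the punctured disc -/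
theorem disc_cond2 {X D : BiSet N n} {G1 : BiPoly N n} {F0 : Fin q → MvPolynomial (Fin (n + 1)) ℂ}
    {e : ℕ} {Φ : (Fin q → ℕ) → Prop}
    (hram : ∀ (L : Type) [Field L] [Algebra ℂ L] (x : Fin (N + 1) → L) (y : Fin (n + 1) → L),
      X.Mem x y → aeval (Sum.elim x y) G1 ≠ 0 → (∀ i, aeval y (F0 i) ≠ 0) → ∀ P : FF.Place ℂ L,
      ¬ CentreIn D x y P → ∀ (c : ℤ) (w : Fin q → ℕ), Norm P y c →
      (∀ i, P.ord (aeval y (F0 i)) = e * c + w i) → Φ w)
    {u : ℂ → Fin (N + 1) → ℂ} {v : ℂ → Fin (n + 1) → ℂ} (huv : QDisc X D u v)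
    (hG1 : ∃ z ∈ PB 1, eval (Sum.elim (u z) (v z)) G1 ≠ 0) {z0 : ℂ}
    (hz0 : z0 ∈ PB 1) (w : Fin q → ℕ)
    (hw : ∀ i, analyticOrderAt (fun z => aeval (v z) (F0 i)) z0 = w i) : Φ w := by
  have hopen : IsOpen (PB 1) := PB_open 1
  have hu := fun j => an_of_diffOn huv.diffu j
  have hv := fun j => an_of_diffOn huv.diffv j
  have hmemz : ∀ z ∈ PB 1, QMem X D (u z) (v z) := fun z hz => huv.mem z (mem_disc.mpr hz)
  obtain ⟨L, _, _, P, T, hT, hord⟩ := point_place hopen (PB_preconn one_pos) hz0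
  have hTne : ∀ f : Aly (PB 1), f ≠ 0 → T f ≠ 0 := by
    intro f hf h0
    apply hf
    apply hT
    rw [h0, map_zero]
  have hℓan : ∀ i, AnalyticOnNhd ℂ (fun z => aeval (v z) (F0 i)) (PB 1) := fun i z hz =>
    AnalyticAt.aeval_mvPolynomial (fun j => hv j z hz) _
  let U : Fin (N + 1) → Aly (PB 1) := fun j => mk (fun z => u z j) (hu j)
  let W : Fin (n + 1) → Aly (PB 1) := fun j => mk (fun z => v z j) (hv j)
  let F : Fin q → Aly (PB 1) := fun i => mk (fun z => aeval (v z) (F0 i)) (hℓan i)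
  have hext : ∀ f g : Aly (PB 1), (∀ z : PB 1, evs z f = evs z g) → f = g :=
    fun f g h => Subtype.ext (funext h)
  have hrep : ∀ (f : ℂ → ℂ) (hf : AnalyticOnNhd ℂ f (PB 1)),
      analyticOrderAt (rep (PB 1) (mk f hf)) z0 = analyticOrderAt f z0 := by
    intro f hf
    refine analyticOrderAt_congr ?_
    filter_upwards [hopen.mem_nhds hz0] with z hz
    exact rep_mk f hf z hz
  have hF : ∀ i, aeval (fun j => T (W j)) (F0 i) = T (F i) := by
    intro i
    have h4 : F i = aeval W (F0 i) := by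
      apply hext
      intro z
      have h5 : evs z (aeval W (F0 i)) = aeval (fun j => evs z (W j)) (F0 i) := by
        rw [← AlgHom.comp_apply, comp_aeval]
      rw [h5]
      rfl
    rw [h4, ← AlgHom.comp_apply, comp_aeval]
  have hFne : ∀ i, F i ≠ 0 := by
    intro i h0
    have h1 := hw i
    rw [← hrep _ (hℓan i)] at h1
    have h2 : rep (PB 1) (F i) =ᶠ[𝓝 z0] fun _ => 0 := by
      filter_upwards [hopen.mem_nhds hz0] with z hz
      rw [← rep_eq (F i) ⟨z, hz⟩, h0]
      rfl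
    have h3 : analyticOrderAt (rep (PB 1) (F i)) z0 = ⊤ := by
      rw [analyticOrderAt_congr h2, analyticOrderAt_eq_top]
      simp
    rw [show mk _ (hℓan i) = F i from rfl, h3] at h1
    exact absurd h1.symm (ENat.natCast_ne_top _)
  -- polynomials
  have hpoly : ∀ G : BiPoly N n, ∀ z : PB 1,
      evs z (aeval (Sum.elim U W) G) = eval (Sum.elim (u z) (v z)) G := by
    intro G z
    have h7 : evs z (aeval (Sum.elim U W) G) = aeval (fun s => evs z (Sum.elim U W s)) G := by
      rw [← AlgHom.comp_apply, comp_aeval]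
    rw [h7]
    have h8 : (fun s => evs z (Sum.elim U W s)) = Sum.elim (u z) (v z) := by
      funext s
      rcases s with s | s <;> rfl
    rw [h8]
    rfl
  have hTpoly : ∀ G : BiPoly N n, aeval (Sum.elim (fun j => T (U j)) (fun j => T (W j))) G
      = T (aeval (Sum.elim U W) G) := by
    intro G
    rw [← AlgHom.comp_apply, comp_aeval]
    congr 2
    funext s
    rcases s with s | s <;> rfl
  have hmem : X.Mem (fun j => T (U j)) (fun j => T (W j)) := by
    obtain ⟨⟨ha, hb, _⟩, _⟩ := hmemz z0 hz0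
    refine ⟨?_, ?_, ?_⟩
    · intro h0
      apply ha
      funext j
      by_contra hj
      exact hTne (U j) (mk_ne (hu j) hz0 hj) (congrFun h0 j)
    · intro h0
      apply hb
      funext j
      by_contra hj
      exact hTne (W j) (mk_ne (hv j) hz0 hj) (congrFun h0 j)
    · intro G hG
      have h5 : aeval (Sum.elim U W) G = (0 : Aly (PB 1)) := by
        apply hext
        intro z
        rw [map_zero, hpoly]
        exact (hmemz z z.2).1.2.2 G hG
      rw [hTpoly, h5, map_zero]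
  have horder0 : ∀ (f : ℂ → ℂ) (hf : AnalyticOnNhd ℂ f (PB 1)), f z0 ≠ 0 → P.ord (T (mk f hf)) = 0 := by
    intro f hf hne
    rw [(hord _ (mk_ne hf hz0 hne)).2, hrep f hf, (hf z0 hz0).analyticOrderAt_eq_zero.mpr hne]
    rfl
  have hnonneg : ∀ f : Aly (PB 1), f ≠ 0 → 0 ≤ P.ord (T f) := by
    intro f hf
    rw [(hord _ hf).2]
    exact Int.natCast_nonneg _
  have hn0 : ∀ {k : ℕ} (x : ℂ → Fin k → ℂ) (hx : ∀ j, AnalyticOnNhd ℂ (fun z => x z j) (PB 1)),
      x z0 ≠ 0 → Norm P (fun j => T (mk (fun z => x z j) (hx j))) 0 := by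
    intro k x hx h0
    refine ⟨fun j hj => hnonneg _ fun h1 => hj (by
      show T (mk (fun z => x z j) (hx j)) = 0
      rw [h1, map_zero]), ?_⟩
    obtain ⟨j, hj⟩ := Function.ne_iff.mp h0
    exact ⟨j, hTne _ (mk_ne (hx j) hz0 hj), horder0 _ (hx j) hj⟩
  have hNa : Norm P (fun j => T (U j)) 0 := hn0 u hu (hmemz z0 hz0).1.1
  have hNb : Norm P (fun j => T (W j)) 0 := hn0 v hv (hmemz z0 hz0).1.2.1
  have hG1' : aeval (Sum.elim (fun j => T (U j)) (fun j => T (W j))) G1 ≠ 0 := by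
    obtain ⟨z1, hz1, hne1⟩ := hG1
    rw [hTpoly]
    apply hTne
    intro h0
    apply hne1
    rw [← hpoly G1 ⟨z1, hz1⟩, h0, map_zero]
  refine hram L (fun j => T (U j)) (fun j => T (W j)) hmem hG1'
    (fun i => by rw [hF]; exact hTne _ (hFne i)) P ?_ 0 w hNb ?_
  · intro hcen
    apply (hmemz z0 hz0).2
    refine ⟨(hmemz z0 hz0).1.1, (hmemz z0 hz0).1.2.1, fun G hG => ?_⟩
    obtain ⟨E, E', hE⟩ := D.hom G hG
    by_contra hne
    have hne' : evs ⟨z0, hz0⟩ (aeval (Sum.elim U W) G) ≠ 0 := by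
      rw [hpoly]
      exact hne
    have hG0 : aeval (Sum.elim U W) G ≠ 0 := by
      intro h0
      rw [h0, map_zero] at hne'
      exact hne' rfl
    rcases hcen 0 0 hNa hNb G hG E E' hE with h1 | h1
    · rw [hTpoly] at h1
      exact hTne _ hG0 h1
    · rw [hTpoly, (hord _ hG0).2] at h1
      have h2 : analyticOrderAt (rep (PB 1) (aeval (Sum.elim U W) G)) z0 = 0 := by
        rw [(rep_an _ z0 hz0).analyticOrderAt_eq_zero, ← rep_eq _ ⟨z0, hz0⟩]
        exact hne'
      rw [h2] at h1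
      simp at h1
  · intro i
    rw [hF, (hord _ (hFne i)).2, mul_zero, zero_add]
    have h1 : analyticOrderAt (rep (PB 1) (F i)) z0 = w i := by
      rw [← hw i]
      exact hrep _ (hℓan i)
    rw [h1]
    simp

end Pool.Agent.K9h12.VH
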