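import Pool.Agent.K9h12.VH.Defs

/-!
The minor of least order.
-/

set_option autoImplicit false

open FF

namespace Pool.Agent.K9h12.VH

open Pool.Agent.W603.LV Pool.Agent.W602.GT

variable {L : Type} [Field L] [Algebra ℂ L]

omit [Algebra ℂ L] in
theorem lf_zero {n : ℕ} (c : Fin n → L) : lf c (0 : Fin n → L) = 0 := by
  unfold lf
  refine Finset.sum_eq_zero fun j _ => ?_
  rw [Pi.zero_apply, mul_zero]

/-- Cramer's rule for the minors -/
theorem sg_cramer {n : ℕ} {ι ρ : Type} [Fintype ι] [DecidableEq ι] (φ : ρ → Fin n → L)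
    (v : ι → Fin n → L) (σ : ι → ρ) (k : ρ) {w : Fin n → L} (hw : w ∈ Submodule.span L (Set.range v)) :
    sg φ v σ * lf (φ k) w = ∑ j, sg φ v (Function.update σ j k) * lf (φ (σ j)) w := by
  induction hw using Submodule.span_induction with
  | mem x hx =>
    obtain ⟨i, rfl⟩ := hx
    have h1 := Matrix.mulVec_cramer (Matrix.of fun i j => lf (φ (σ j)) (v i)) fun i => lf (φ k) (v i)
    have h2 := congrFun h1 i
    rw [Pi.smul_apply, smul_eq_mul] at h2
    show (Matrix.of fun i j => lf (φ (σ j)) (v i)).det * lf (φ k) (v i) = _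
    rw [← h2, Matrix.mulVec, dotProduct]
    refine Finset.sum_congr rfl fun j _ => ?_
    rw [Matrix.of_apply, mul_comm, Matrix.cramer_apply]
    congr 1
    unfold sg
    congr 1
    ext a b
    rw [Matrix.updateCol_apply, Matrix.of_apply, Matrix.of_apply]
    by_cases hb : b = j
    · rw [if_pos hb, hb, Function.update_self]
    · rw [if_neg hb, Function.update_of_ne hb]
  | zero =>
    rw [lf_zero, mul_zero]
    refine (Finset.sum_eq_zero fun j _ => ?_).symm
    rw [lf_zero, mul_zero]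
  | add x y _ _ hx hy =>
    rw [lf_add, mul_add, hx, hy, ← Finset.sum_add_distrib]
    refine Finset.sum_congr rfl fun j _ => ?_
    rw [lf_add, mul_add]
  | smul s x _ hx =>
    rw [lf_smul, mul_left_comm, hx, Finset.mul_sum]
    refine Finset.sum_congr rfl fun j _ => ?_
    rw [lf_smul, mul_left_comm]

/-- **Exchange.** If the span of the vectors `v` contains for all `k ∈ I` a regular vector `w` such
that the linear form `φ k` is a unit at `w` and the other linear forms with index in `I` vanish at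
`w` modulo the maximal ideal, then among the minors of least order there is one which contains all
the linear forms with index in `I`. -/
theorem exch {n : ℕ} {ι ρ : Type} [Fintype ι] [DecidableEq ι] [Finite ρ] (P : Place ℂ L)
    (φ : ρ → Fin n → L) (hφ : ∀ r j, Ge P 0 (φ r j)) (v : ι → Fin n → L) (I : Finset ρ)
    (hI : ∀ k ∈ I, ∃ w ∈ Submodule.span L (Set.range v), (∀ l, Ge P 0 (w l)) ∧
      ¬ Ge P 1 (lf (φ k) w) ∧ ∀ k' ∈ I, k' ≠ k → Ge P 1 (lf (φ k') w)) :
    (∀ σ, sg φ v σ = 0) ∨ ∃ σ0 : ι → ρ, (∀ k ∈ I, ∃ j, σ0 j = k) ∧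
      ∀ (e : ℤ), Ge P e (sg φ v σ0) → ∀ σ, Ge P e (sg φ v σ) := by
  classical
  by_cases hall : ∀ σ, sg φ v σ = 0
  · exact Or.inl hall
  right
  push Not at hall
  obtain ⟨σ1, hσ1⟩ := hall
  obtain ⟨σ2, hσ2, hmin2⟩ := Set.exists_min_image {σ : ι → ρ | sg φ v σ ≠ 0} (fun σ => P.ord (sg φ v σ))
    (Set.toFinite _) ⟨σ1, hσ1⟩
  obtain ⟨σ0, ⟨hσ0, hmin⟩, hmax⟩ := Set.exists_max_image
    {σ : ι → ρ | sg φ v σ ≠ 0 ∧ ∀ σ', sg φ v σ' ≠ 0 → P.ord (sg φ v σ) ≤ P.ord (sg φ v σ')}
    (fun σ => (I.filter fun k => ∃ j, σ j = k).card) (Set.toFinite _) ⟨σ2, hσ2, hmin2⟩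
  have hge : ∀ σ, Ge P (P.ord (sg φ v σ0)) (sg φ v σ) := by
    intro σ
    by_cases h : sg φ v σ = 0
    · exact Or.inl h
    · exact Or.inr (hmin σ h)
  refine ⟨σ0, fun k hk => ?_, fun e he σ => (hge σ).mono (he.resolve_left hσ0)⟩
  by_contra hcon
  push Not at hcon
  obtain ⟨w, hw, hreg, hunit, hoth⟩ := hI k hk
  have hreg' : ∀ r, Ge P 0 (lf (φ r) w) := fun r => lf_ge (hφ r) hreg
  -- a column which can be exchanged
  obtain ⟨j, hj⟩ : ∃ j, ¬ Ge P (P.ord (sg φ v σ0) + 1) (sg φ v (Function.update σ0 j k) * lf (φ (σ0 j)) w) := by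
    by_contra h
    push Not at h
    have h1 : Ge P (P.ord (sg φ v σ0) + 1) (sg φ v σ0 * lf (φ k) w) := by
      rw [sg_cramer φ v σ0 k hw]
      exact Ge.sum _ _ fun j _ => h j
    have h2 := Ge.of_mul hσ0 h1
    rw [add_sub_cancel_left] at h2
    exact hunit h2
  have hjI : σ0 j ∉ I := by
    intro h
    exact hj ((hge _).mul (hoth _ h (hcon j)))
  have hne : sg φ v (Function.update σ0 j k) ≠ 0 := by
    intro h
    exact hj (Or.inl (by rw [h, zero_mul]))
  have hord : P.ord (sg φ v (Function.update σ0 j k)) ≤ P.ord (sg φ v σ0) := by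
    by_contra h
    push Not at h
    refine hj ?_
    have h1 : Ge P (P.ord (sg φ v σ0) + 1) (sg φ v (Function.update σ0 j k)) := Or.inr (by omega)
    have h2 := h1.mul (hreg' (σ0 j))
    rwa [add_zero] at h2
  have h3 := hmax (Function.update σ0 j k) ⟨hne, fun σ' hσ' => hord.trans (hmin σ' hσ')⟩
  have h4 : (I.filter fun k => ∃ j, σ0 j = k) ⊂ I.filter fun k' => ∃ j', Function.update σ0 j k j' = k' := by
    rw [Finset.ssubset_iff_of_subset]
    · refine ⟨k, Finset.mem_filter.2 ⟨hk, j, Function.update_self _ _ _⟩, fun h => ?_⟩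
      obtain ⟨j', hj'⟩ := (Finset.mem_filter.1 h).2
      exact hcon j' hj'
    · intro k' hk'
      obtain ⟨h5, j', hj'⟩ := Finset.mem_filter.1 hk'
      refine Finset.mem_filter.2 ⟨h5, j', ?_⟩
      rw [Function.update_of_ne]
      · exact hj'
      · rintro rfl
        rw [hj'] at hjI
        exact hjI h5
  exact absurd h3 (not_le.2 (Finset.card_lt_card h4))

end Pool.Agent.K9h12.VH
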