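import Pool.Agent.K9h12.VH.Defs

/-!
Extensions of derivations of the complex numbers to function fields of several variables.
-/

set_option autoImplicit false

open FF

namespace Pool.Agent.K9h12.VH

open Pool.Agent.W603.LV Pool.Agent.W602.GT MvPolynomial

variable {L : Type} [Field L] [Algebra ℂ L]

/-- the ring homomorphism to the dual numbers given by a derivation of the constants -/
noncomputable def dualC (δ : Derivation ℤ ℂ ℂ) : ℂ →+* TrivSqZeroExt L L where
  toFun c := TrivSqZeroExt.inl (algebraMap ℂ L c) + TrivSqZeroExt.inr (algebraMap ℂ L (δ c))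
  map_one' := by
    ext
    · simp
    · simp
  map_mul' x y := by
    ext
    · simp only [TrivSqZeroExt.fst_add, TrivSqZeroExt.fst_inl, TrivSqZeroExt.fst_inr,
        TrivSqZeroExt.fst_mul, add_zero, map_mul]
    · simp only [TrivSqZeroExt.snd_add, TrivSqZeroExt.snd_inl, TrivSqZeroExt.snd_inr,
        TrivSqZeroExt.snd_mul, TrivSqZeroExt.fst_add, TrivSqZeroExt.fst_inl,
        TrivSqZeroExt.fst_inr, add_zero, zero_add, Derivation.leibniz, smul_eq_mul, map_add,
        map_mul, op_smul_eq_mul]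
      ring
  map_zero' := by
    ext
    · simp
    · simp
  map_add' x y := by
    ext
    · simp only [TrivSqZeroExt.fst_add, TrivSqZeroExt.fst_inl, TrivSqZeroExt.fst_inr, add_zero,
        map_add]
    · simp only [TrivSqZeroExt.snd_add, TrivSqZeroExt.snd_inl, TrivSqZeroExt.snd_inr, zero_add,
        map_add]

theorem dualC_fst (δ : Derivation ℤ ℂ ℂ) (c : ℂ) :
    (dualC (L := L) δ c).fst = algebraMap ℂ L c := by
  change (TrivSqZeroExt.inl (algebraMap ℂ L c) + TrivSqZeroExt.inr (algebraMap ℂ L (δ c)) :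
    TrivSqZeroExt L L).fst = _
  rw [TrivSqZeroExt.fst_add, TrivSqZeroExt.fst_inl, TrivSqZeroExt.fst_inr, add_zero]

theorem dualC_snd (δ : Derivation ℤ ℂ ℂ) (c : ℂ) :
    (dualC (L := L) δ c).snd = algebraMap ℂ L (δ c) := by
  change (TrivSqZeroExt.inl (algebraMap ℂ L c) + TrivSqZeroExt.inr (algebraMap ℂ L (δ c)) :
    TrivSqZeroExt L L).snd = _
  rw [TrivSqZeroExt.snd_add, TrivSqZeroExt.snd_inl, TrivSqZeroExt.snd_inr, zero_add]

/-- the ring homomorphism of the polynomial ring to the dual numbers -/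
noncomputable def dualP {ι : Type} (δ : Derivation ℤ ℂ ℂ) (t : ι → L) :
    MvPolynomial ι ℂ →+* TrivSqZeroExt L L :=
  eval₂Hom (dualC δ) fun i => TrivSqZeroExt.inl (t i)

theorem dualP_fst {ι : Type} (δ : Derivation ℤ ℂ ℂ) (t : ι → L) (p : MvPolynomial ι ℂ) :
    (dualP δ t p).fst = aeval t p := by
  have h : ((TrivSqZeroExt.fstHom L L L : TrivSqZeroExt L L →ₐ[L] L) :
      TrivSqZeroExt L L →+* L).comp (dualP δ t) = ((aeval t : MvPolynomial ι ℂ →ₐ[ℂ] L) :
      MvPolynomial ι ℂ →+* L) := by
    apply MvPolynomial.ringHom_ext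
    · intro c
      simp [dualP, dualC]
    · intro i
      simp [dualP]
  exact RingHom.congr_fun h p

/-- derivations of the constants extend to function fields, by zero on a transcendence basis -/
theorem exists_ext {ι : Type} (δ : Derivation ℤ ℂ ℂ) (t : ι → L) (ht : IsTranscendenceBasis ℂ t) :
    ∃ Δ : Derivation ℤ L L, (∀ c, Δ (algebraMap ℂ L c) = algebraMap ℂ L (δ c)) ∧
      ∀ i, Δ (t i) = 0 := by
  have hinj : Function.Injective (aeval t : MvPolynomial ι ℂ →ₐ[ℂ] L) := ht.1
  have halg := alg_of_basis t ht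
  let _ : Algebra (MvPolynomial ι ℂ) L :=
    ((aeval t : MvPolynomial ι ℂ →ₐ[ℂ] L) : MvPolynomial ι ℂ →+* L).toAlgebra
  have hst : IsScalarTower ℂ (MvPolynomial ι ℂ) L := IsScalarTower.of_algebraMap_eq' (by
    ext c
    simp [RingHom.algebraMap_toAlgebra])
  have hfs : FaithfulSMul (MvPolynomial ι ℂ) L := (faithfulSMul_iff_algebraMap_injective _ _).2 hinj
  let _ : Algebra (FractionRing (MvPolynomial ι ℂ)) L := FractionRing.liftAlgebra (MvPolynomial ι ℂ) L
  have hst2 : IsScalarTower (MvPolynomial ι ℂ) (FractionRing (MvPolynomial ι ℂ)) L := inferInstance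
  have halg2 : Algebra.IsAlgebraic (FractionRing (MvPolynomial ι ℂ)) L :=
    (IsFractionRing.comap_isAlgebraic_iff (A := MvPolynomial ι ℂ)
      (K := FractionRing (MvPolynomial ι ℂ)) (C := L)).1 halg
  have hchar : CharZero (FractionRing (MvPolynomial ι ℂ)) := inferInstance
  have hsep : Algebra.IsSeparable (FractionRing (MvPolynomial ι ℂ)) L := inferInstance
  have h1 : Algebra.FormallyEtale (FractionRing (MvPolynomial ι ℂ)) L :=
    Algebra.FormallyEtale.of_isSeparable _ _
  have h2 : Algebra.FormallyEtale (MvPolynomial ι ℂ) (FractionRing (MvPolynomial ι ℂ)) :=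
    Algebra.FormallyEtale.of_isLocalization (nonZeroDivisors (MvPolynomial ι ℂ))
  have h3 : Algebra.FormallyEtale (MvPolynomial ι ℂ) L :=
    Algebra.FormallyEtale.comp (MvPolynomial ι ℂ) (FractionRing (MvPolynomial ι ℂ)) L
  have ha : ∀ p, algebraMap (MvPolynomial ι ℂ) L p = aeval t p := fun p => rfl
  let e := KaehlerDifferential.tensorKaehlerEquivOfFormallyEtale ℤ (MvPolynomial ι ℂ) L
  let d : Derivation ℤ (MvPolynomial ι ℂ) L := Derivation.mk'
    (AddMonoidHom.toIntLinearMap
      { toFun := fun p => (dualP δ t p).snd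
        map_zero' := by simp
        map_add' := fun p q => by simp })
    (fun p q => by
      change (dualP δ t (p * q)).snd = p • (dualP δ t q).snd + q • (dualP δ t p).snd
      rw [map_mul, TrivSqZeroExt.snd_mul, dualP_fst, dualP_fst,
        Algebra.smul_def (R := MvPolynomial ι ℂ), Algebra.smul_def (R := MvPolynomial ι ℂ) q, ha,
        ha, smul_eq_mul, op_smul_eq_mul, mul_comm _ (aeval t q)])
  have hdC : ∀ c, d (C c) = algebraMap ℂ L (δ c) := fun c => by
    change (dualP δ t (C c)).snd = _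
    rw [dualP, coe_eval₂Hom, eval₂_C, dualC_snd]
  have hdX : ∀ i, d (X i) = 0 := fun i => by
    change (dualP δ t (X i)).snd = _
    rw [dualP, coe_eval₂Hom, eval₂_X, TrivSqZeroExt.snd_inl]
  let l : Ω[MvPolynomial ι ℂ⁄ℤ] →ₗ[MvPolynomial ι ℂ] L := d.liftKaehlerDifferential
  let Λ : Ω[L⁄ℤ] →ₗ[L] L := (LinearMap.liftBaseChange L l).comp e.symm.toLinearMap
  let D : Derivation ℤ L L := Λ.compDer (KaehlerDifferential.D ℤ L)
  have hD : ∀ p : MvPolynomial ι ℂ, D (algebraMap (MvPolynomial ι ℂ) L p) = d p := fun p => by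
    change Λ (KaehlerDifferential.D ℤ L (algebraMap (MvPolynomial ι ℂ) L p)) = _
    change LinearMap.liftBaseChange L l (e.symm (KaehlerDifferential.D ℤ L
      (algebraMap (MvPolynomial ι ℂ) L p))) = _
    rw [KaehlerDifferential.tensorKaehlerEquivOfFormallyEtale_symm_D_algebraMap]
    simp [l]
  refine ⟨D, fun c => ?_, fun i => ?_⟩
  · have h5 : algebraMap ℂ L c = algebraMap (MvPolynomial ι ℂ) L (C c) := by
      simp [RingHom.algebraMap_toAlgebra]
    rw [h5, hD, hdC]
  · have h5 : t i = algebraMap (MvPolynomial ι ℂ) L (X i) := by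
      simp [RingHom.algebraMap_toAlgebra]
    rw [h5, hD, hdX]

/-- two extensions of a derivation of the constants differ by a derivation over the constants -/
theorem ext_sub {δ : Derivation ℤ ℂ ℂ} {Δ Δ' : Derivation ℤ L L}
    (h : ∀ c, Δ (algebraMap ℂ L c) = algebraMap ℂ L (δ c))
    (h' : ∀ c, Δ' (algebraMap ℂ L c) = algebraMap ℂ L (δ c)) :
    ∃ E : Derivation ℂ L L, ∀ f, Δ f = Δ' f + E f := by
  refine ⟨Derivation.mk'
    { toFun := fun f => Δ f - Δ' f
      map_add' := fun f g => by
        rw [map_add, map_add]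
        ring
      map_smul' := fun c f => by
        rw [Algebra.smul_def c f, Derivation.leibniz, Derivation.leibniz, h, h', RingHom.id_apply,
          Algebra.smul_def c (Δ f - Δ' f)]
        simp only [smul_eq_mul]
        ring } (fun f g => ?_), fun f => ?_⟩
  · change Δ (f * g) - Δ' (f * g) = f • (Δ g - Δ' g) + g • (Δ f - Δ' f)
    rw [Derivation.leibniz, Derivation.leibniz]
    simp only [smul_eq_mul]
    ring
  · change Δ f = Δ' f + (Δ f - Δ' f)
    ring

theorem exists_basis_fin {m : ℕ} (htr : Algebra.trdeg ℂ L = m) :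
    ∃ s : Fin m → L, IsTranscendenceBasis ℂ s := by
  obtain ⟨s, hs⟩ := exists_isTranscendenceBasis ℂ L
  have hcard := hs.cardinalMk_eq_trdeg
  rw [htr] at hcard
  have hfin : Finite s := by
    rw [← Cardinal.lt_aleph0_iff_finite, hcard]
    exact Cardinal.natCast_lt_aleph0
  have := Fintype.ofFinite s
  rw [Cardinal.mk_fintype] at hcard
  have h2 : Fintype.card s = m := by exact_mod_cast hcard
  let e : Fin m ≃ s := (Fintype.equivFinOfCardEq h2).symm
  exact ⟨fun i => (e i : L), hs.comp_equiv e⟩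

/-- derivations are linearly dependent or a basis of all derivations -/
theorem dep_or_basis {m : ℕ} (htr : Algebra.trdeg ℂ L = m) (D : Fin m → Derivation ℂ L L) :
    (∃ c : Fin m → L, c ≠ 0 ∧ ∑ q, c q • D q = 0) ∨
      ∀ E : Derivation ℂ L L, ∃ c : Fin m → L, E = ∑ q, c q • D q := by
  obtain ⟨s, hs⟩ := exists_basis_fin htr
  let M : Matrix (Fin m) (Fin m) L := Matrix.of fun q i => D q (s i)
  have hap : ∀ (c : Fin m → L) (f : L), (∑ q, c q • D q) f = ∑ q, c q * D q f := fun c f => by
    rw [← Derivation.coeFnAddMonoidHom_apply, map_sum, Finset.sum_apply]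
    rfl
  by_cases hM : M.det = 0
  · left
    obtain ⟨c, hc, hcM⟩ := Matrix.exists_vecMul_eq_zero_iff.2 hM
    refine ⟨c, hc, der_ext s hs fun i => ?_⟩
    rw [hap]
    have := congrFun hcM i
    simpa [Matrix.vecMul, dotProduct, M] using this
  · right
    intro E
    have hu : IsUnit M.det := isUnit_iff_ne_zero.2 hM
    let c : Fin m → L := Matrix.vecMul (fun i => E (s i)) M⁻¹
    refine ⟨c, der_ext s hs fun i => ?_⟩
    rw [hap]
    have h1 : Matrix.vecMul c M = fun i => E (s i) := by
      rw [Matrix.vecMul_vecMul, Matrix.nonsing_inv_mul _ hu, Matrix.vecMul_one]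
    have := congrFun h1 i
    simpa [Matrix.vecMul, dotProduct, M] using this.symm

end Pool.Agent.K9h12.VH
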