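import Pool.Agent.K9h12.VH.Core
import Pool.Agent.TH152.DS.LangDefs
import Pool.Agent.TH152.HY.Pl

/-!
Very general hypersurfaces: the main theorem.
-/

set_option autoImplicit false
set_option linter.unusedSectionVars false

open FF

namespace Pool.Agent.K9h12.VH

open Pool.Agent.W603.LV Pool.Agent.W602.GT Pool.Agent.K9h12.FR

section family

variable {𝕜 : Type} [Field 𝕜] [Algebra 𝕜 ℂ] {n p r : ℕ}

/-- the general member of the linear systems `H k + ⟨B k j⟩` with the coefficients `a k j` -/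
noncomputable def mem (H : Fin p → MvPolynomial (Fin n) 𝕜)
    (B : Fin p → Fin r → MvPolynomial (Fin n) 𝕜) (a : Fin p → Fin r → ℂ) (k : Fin p) :
    MvPolynomial (Fin n) ℂ :=
  MvPolynomial.map (algebraMap 𝕜 ℂ) (H k) +
    ∑ j, MvPolynomial.C (a k j) * MvPolynomial.map (algebraMap 𝕜 ℂ) (B k j)

/-- forms over `𝕜` without common zeros, and coefficients algebraically independent over `𝕜` -/
structure Fam (e : Fin p → ℕ) (H : Fin p → MvPolynomial (Fin n) 𝕜)
    (B : Fin p → Fin r → MvPolynomial (Fin n) 𝕜) (a : Fin p → Fin r → ℂ) : Prop where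
  homH : ∀ k, (H k).IsHomogeneous (e k)
  homB : ∀ k j, (B k j).IsHomogeneous (e k)
  bpf : ∀ k (u : Fin n → ℂ), u ≠ 0 → ∃ j, MvPolynomial.aeval u (B k j) ≠ 0
  ind : AlgebraicIndependent 𝕜 fun q : Fin p × Fin r => a q.1 q.2

variable {e : Fin p → ℕ} {H : Fin p → MvPolynomial (Fin n) 𝕜}
  {B : Fin p → Fin r → MvPolynomial (Fin n) 𝕜} {a : Fin p → Fin r → ℂ}

variable {L : Type} [Field L] [Algebra ℂ L]

theorem gr_add (F G : MvPolynomial (Fin n) ℂ) (y z : Fin n → L) :
    lf (gr (F + G) y) z = lf (gr F y) z + lf (gr G y) z := by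
  unfold lf gr
  rw [← Finset.sum_add_distrib]
  exact Finset.sum_congr rfl fun i _ => by rw [map_add, map_add]; ring

theorem gr_sum {ι : Type} (s : Finset ι) (F : ι → MvPolynomial (Fin n) ℂ) (y z : Fin n → L) :
    lf (gr (∑ i ∈ s, F i) y) z = ∑ i ∈ s, lf (gr (F i) y) z := by
  classical
  induction s using Finset.induction_on with
  | empty =>
    unfold lf gr
    simp
  | insert i s hi ih => rw [Finset.sum_insert hi, Finset.sum_insert hi, gr_add, ih]

theorem gr_C_mul (c : ℂ) (F : MvPolynomial (Fin n) ℂ) (y z : Fin n → L) :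
    lf (gr (MvPolynomial.C c * F) y) z = algebraMap ℂ L c * lf (gr F y) z := by
  unfold lf gr
  rw [Finset.mul_sum]
  refine Finset.sum_congr rfl fun i _ => ?_
  rw [MvPolynomial.pderiv_C_mul, map_mul, MvPolynomial.aeval_C]
  ring

/-- polynomials with constant coefficients -/
theorem ext_map {δ : Derivation ℤ ℂ ℂ} (hδ : ∀ c : 𝕜, δ (algebraMap 𝕜 ℂ c) = 0)
    {Δ : Derivation ℤ L L} (hΔ : ∀ c, Δ (algebraMap ℂ L c) = algebraMap ℂ L (δ c))
    (G : MvPolynomial (Fin n) 𝕜) (y : Fin n → L) :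
    Δ (MvPolynomial.aeval y (MvPolynomial.map (algebraMap 𝕜 ℂ) G)) =
      lf (gr (MvPolynomial.map (algebraMap 𝕜 ℂ) G) y) (fun i => Δ (y i)) := by
  induction G using MvPolynomial.induction_on with
  | C c =>
    rw [MvPolynomial.map_C, MvPolynomial.aeval_C, hΔ, hδ, map_zero]
    unfold lf gr
    simp
  | add p q hp hq => rw [map_add, gr_add, map_add, map_add, hp, hq]
  | mul_X p i hp =>
    rw [map_mul, MvPolynomial.map_X, map_mul, MvPolynomial.aeval_X, Δ.leibniz, hp, smul_eq_mul,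
      smul_eq_mul]
    generalize MvPolynomial.map (algebraMap 𝕜 ℂ) p = p'
    unfold lf gr
    have h1 : ∀ j, MvPolynomial.aeval y (MvPolynomial.pderiv j (p' * MvPolynomial.X i)) * Δ (y j) =
        (if j = i then MvPolynomial.aeval y p' * Δ (y j) else 0) +
        y i * (MvPolynomial.aeval y (MvPolynomial.pderiv j p') * Δ (y j)) := by
      intro j
      rw [Derivation.leibniz, MvPolynomial.pderiv_X, Pi.single_apply]
      by_cases hij : j = i
      · subst hij
        simp only [if_true, smul_eq_mul, mul_one, map_add, map_mul, MvPolynomial.aeval_X]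
        ring
      · simp only [if_neg hij, if_neg (fun h : i = j => hij h.symm), smul_eq_mul, mul_zero,
          zero_add, map_mul, MvPolynomial.aeval_X]
        ring
    rw [Finset.sum_congr rfl fun j _ => h1 j, Finset.sum_add_distrib, Finset.mul_sum]
    simp

/-- the chain rule for the members of the family -/
theorem ext_mem {δ : Derivation ℤ ℂ ℂ} (hδ : ∀ c : 𝕜, δ (algebraMap 𝕜 ℂ c) = 0)
    {Δ : Derivation ℤ L L} (hΔ : ∀ c, Δ (algebraMap ℂ L c) = algebraMap ℂ L (δ c)) (k : Fin p)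
    (y : Fin n → L) : Δ (MvPolynomial.aeval y (mem H B a k)) =
      ∑ j, algebraMap ℂ L (δ (a k j)) *
        MvPolynomial.aeval y (MvPolynomial.map (algebraMap 𝕜 ℂ) (B k j)) +
      lf (gr (mem H B a k) y) (fun i => Δ (y i)) := by
  unfold mem
  rw [map_add, map_add, ext_map hδ hΔ, gr_add, gr_sum, map_sum, map_sum]
  have h1 : ∀ j, Δ (MvPolynomial.aeval y (MvPolynomial.C (a k j) *
      MvPolynomial.map (algebraMap 𝕜 ℂ) (B k j))) = algebraMap ℂ L (δ (a k j)) *
        MvPolynomial.aeval y (MvPolynomial.map (algebraMap 𝕜 ℂ) (B k j)) +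
      lf (gr (MvPolynomial.C (a k j) * MvPolynomial.map (algebraMap 𝕜 ℂ) (B k j)) y)
        (fun i => Δ (y i)) := by
    intro j
    rw [gr_C_mul, map_mul, MvPolynomial.aeval_C, Δ.leibniz, hΔ, ext_map hδ hΔ, smul_eq_mul,
      smul_eq_mul]
    ring
  rw [Finset.sum_congr rfl fun j _ => h1 j, Finset.sum_add_distrib]
  ring

/-- the moving derivations -/
theorem Fam.move (h : Fam e H B a) : ∃ δ : Fin p → Fin r → Derivation ℤ ℂ ℂ,
    Mv (mem H B a) (fun k j => MvPolynomial.map (algebraMap 𝕜 ℂ) (B k j)) e δ := by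
  classical
  have hchar : CharZero 𝕜 := (algebraMap 𝕜 ℂ).charZero
  choose δ hδ1 hδ2 hδ3 using fun q : Fin p × Fin r => VG.exists_move h.ind q
  refine ⟨fun k j => δ (k, j), ?_, ?_, ?_, ?_⟩
  · intro k
    refine ((h.homH k).map _).add (MvPolynomial.IsHomogeneous.sum _ _ _ fun j _ => ?_)
    have := (MvPolynomial.isHomogeneous_C (Fin n) (a k j)).mul
      ((h.homB k j).map (algebraMap 𝕜 ℂ))
    rwa [zero_add] at this
  · intro L _ _ k j Δ hΔ y
    rw [ext_mem (hδ3 (k, j)) hΔ k y]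
    congr 1
    rw [Finset.sum_eq_single j]
    · have := hδ1 (k, j)
      simp only at this
      rw [this, map_one, one_mul]
    · intro i _ hij
      have := hδ2 (k, j) (k, i) fun h => hij (congrArg Prod.snd h)
      simp only at this
      rw [this, map_zero, zero_mul]
    · intro h
      exact absurd (Finset.mem_univ _) h
  · intro L _ _ k j Δ hΔ y l hl
    rw [ext_mem (hδ3 (k, j)) hΔ l y, Finset.sum_eq_zero, zero_add]
    intro i _
    have := hδ2 (k, j) (l, i) fun h => hl (congrArg Prod.fst h)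
    simp only at this
    rw [this, map_zero, zero_mul]
  · intro k i
    have h1 : (MvPolynomial.X i : MvPolynomial (Fin n) ℂ) ∈ MvPolynomial.vanishingIdeal ℂ
        (MvPolynomial.zeroLocus ℂ (Ideal.span (Set.range fun j =>
          MvPolynomial.map (algebraMap 𝕜 ℂ) (B k j)))) := by
      rw [MvPolynomial.mem_vanishingIdeal_iff]
      intro u hu
      rw [MvPolynomial.mem_zeroLocus_iff] at hu
      rw [MvPolynomial.aeval_X]
      by_contra hne
      obtain ⟨j, hj⟩ := h.bpf k u fun h0 => hne (by rw [h0]; rfl)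
      apply hj
      have := hu _ (Ideal.subset_span ⟨j, rfl⟩)
      rwa [MvPolynomial.aeval_map_algebraMap] at this
    rw [MvPolynomial.vanishingIdeal_zeroLocus_eq_radical] at h1
    exact h1

end family

variable {L : Type} [Field L] [Algebra ℂ L]

variable {n p r : ℕ}

/-- the vector and its derivatives are linearly independent -/
theorem indep {d : ℕ} {y : Fin n → L} {j0 : Fin n} (hj0 : y j0 = 1) {J : Fin d → Fin n}
    {D0 : Fin d → Derivation ℂ L L} (hD0 : ∀ q r, D0 q (y (J r)) = if q = r then 1 else 0) :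
    LinearIndependent L (Sum.elim (fun _ : Unit => y) fun q j => D0 q (y j)) := by
  rw [Fintype.linearIndependent_iff]
  intro g hg
  rw [Fintype.sum_sum_type] at hg
  simp only [Finset.univ_unique, Finset.sum_singleton, Sum.elim_inl, Sum.elim_inr] at hg
  have h0 := congrFun hg j0
  simp only [Pi.add_apply, Pi.smul_apply, Finset.sum_apply, hj0, smul_eq_mul, mul_one,
    Derivation.map_one_eq_zero, mul_zero, Finset.sum_const_zero, add_zero, Pi.zero_apply] at h0
  have h0' : g (Sum.inl ()) = 0 := h0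
  rintro (_ | r)
  · exact h0'
  · have h1 := congrFun hg (J r)
    simp only [Pi.add_apply, Pi.smul_apply, Finset.sum_apply, smul_eq_mul,
      Pi.zero_apply, hD0] at h1
    rw [show g (Sum.inl default) = 0 from h0', zero_mul, zero_add] at h1
    simpa using h1

/-- **All subvarieties are of log general type**, with one coordinate equal to one. -/
theorem core1 {F : Fin p → MvPolynomial (Fin n) ℂ}
    {B : Fin p → Fin r → MvPolynomial (Fin n) ℂ} {e : Fin p → ℕ}
    {δ : Fin p → Fin r → Derivation ℤ ℂ ℂ} (hmv : Mv F B e δ)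
    {A : MvPolynomial (Fin n) ℂ} {a0 : ℕ} (hAh : A.IsHomogeneous a0) {d : ℕ} (hp : Big n d e a0)
    {y : Fin n → L} {j0 : Fin n} (hj0 : y j0 = 1)
    {Bd : Place ℂ L → Prop} (hess : Algebra.EssFiniteType ℂ L) (hd : 0 < d)
    (htr : Algebra.trdeg ℂ L = d)
    (halg : Algebra.IsAlgebraic (IntermediateField.adjoin ℂ (Set.range y)) L)
    (hl : ∀ k, MvPolynomial.aeval y (F k) ≠ 0) (hA : MvPolynomial.aeval y A ≠ 0)
    (hst : ∀ P, ¬ Bd P → Ctp F e A a0 P y) :
    LogGeneralType ℂ L d Bd ∧ TH152.DS.Effective L 2 d Bd y := by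
  classical
  have halg' : Algebra.IsAlgebraic (Algebra.adjoin ℂ (Set.range y)) L := by
    rw [← IntermediateField.isAlgebraic_adjoin_iff_top]
    exact halg
  -- a transcendence basis
  obtain ⟨s, hs, hbas⟩ := exists_isTranscendenceBasis_subset (R := ℂ) (Set.range y)
  have hcard := hbas.cardinalMk_eq_trdeg
  rw [htr] at hcard
  obtain ⟨ε⟩ : Nonempty (Fin d ≃ s) := by
    have h1 : Cardinal.mk (Fin d) = Cardinal.mk s := by
      rw [hcard]
      simp
    exact Cardinal.eq.1 h1
  choose f hf using fun z : s => hs z.2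
  have hx' : IsTranscendenceBasis ℂ (fun l => y (f (ε l))) := by
    have h1 : (fun l => y (f (ε l))) = fun l => ((ε l : s) : L) := funext fun l => hf _
    rw [h1]
    exact hbas.comp_equiv ε
  set J : Fin d → Fin n := fun l => f (ε l) with hJ
  choose D0 hD0 using fun q : Fin d => exists_der (fun l => y (J l)) hx' fun r =>
    if q = r then (1 : L) else 0
  -- the moving derivations
  choose Δ hΔ1 hΔ2 using fun q : Fin p × Fin r => exists_ext (δ q.1 q.2) _ hx'
  obtain ⟨c, b, hc, hind, hsp⟩ := exists_choice (J := Fin p × Fin r)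
    y (fun q j => D0 q (y j)) (indep hj0 hD0) fun q i => Δ q (y i)
  have hgl : Gl F B e δ (fun k j => Δ (k, j)) y D0 b :=
    ⟨hmv, fun k j z => hΔ1 (k, j) z, fun k j => hsp (k, j)⟩
  obtain ⟨σ1, hσ1⟩ := exists_minor hind
  have hsg : sg (fun i => Pi.single i 1) (vec D0 (fun i => (fun k j => Δ (k, j)) (b i).1 (b i).2)
      y) (σ1 : Ix d c → _) ≠ 0 := by
    unfold sg
    simp_rw [lf_single]
    exact hσ1
  -- the functions
  let z : Fin (d + 1) → L := Fin.cons 1 fun r => y (J r)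
  have hz : ∀ l, ∃ j, z l = y j := by
    intro l
    refine Fin.cases ⟨j0, hj0.symm⟩ (fun r => ⟨J r, rfl⟩) l
  have hu : (∏ k ∈ (un b)ᶜ, MvPolynomial.aeval y (F k)) * MvPolynomial.aeval y A /
      ∏ k ∈ un b, MvPolynomial.aeval y (F k) ≠ 0 :=
    div_ne_zero (mul_ne_zero (Finset.prod_ne_zero_iff.2 fun k _ => hl k) hA)
      (Finset.prod_ne_zero_iff.2 fun k _ => hl k)
  have hom : ∀ l, om F (fun k j => Δ (k, j)) b A y σ1 (z l) D0 =
      om F (fun k j => Δ (k, j)) b A y σ1 1 D0 * z l := by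
    intro l
    unfold om gg
    ring
  have h1 : om F (fun k j => Δ (k, j)) b A y σ1 1 D0 ≠ 0 := by
    unfold om gg
    rw [mul_one]
    exact mul_ne_zero (pow_ne_zero _ hsg) hu
  have hpl : ∀ zz : L, IsPluri 2 (om F (fun k j => Δ (k, j)) b A y σ1 zz) := fun zz M D => by
    change sg (fun i => Pi.single i 1) (vec (fun i => ∑ j, M i j • D j) _ _) _ ^ 2 * _ =
      M.det ^ 2 * (sg (fun i => Pi.single i 1) (vec D _ _) _ ^ 2 * _)
    rw [sg_pluri]
    ring
  have hmul : ∀ j, (fun D => om F (fun k j => Δ (k, j)) b A y σ1 1 D * y j) =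
      om F (fun k j => Δ (k, j)) b A y σ1 (y j) := fun j => by
    funext D
    unfold om gg
    ring
  refine ⟨⟨htr, 2, two_pos, fun l => om F (fun k j => Δ (k, j)) b A y σ1 (z l),
    fun l => hpl _, fun P hP l => ?_, fun P hP hB l => ?_, D0, ?_, ?_⟩,
    om F (fun k j => Δ (k, j)) b A y σ1 1, hpl 1, ⟨D0, h1⟩, fun P hP j => ?_,
    fun P hP hB j => ?_⟩
  · exact (om_reg hgl ⟨j0, hj0⟩ hess hd htr hc hAh hp hl hA _ (hz l) hP).1
  · exact (om_reg hgl ⟨j0, hj0⟩ hess hd htr hc hAh hp hl hA _ (hz l) hP).2 (hst P hB)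
  · exact h1
  · have h2 : (fun i : Fin d => om F (fun k j => Δ (k, j)) b A y σ1
        (z i.succ) D0 / om F (fun k j => Δ (k, j)) b A y σ1 (z 0) D0) = fun l => y (J l) := by
      funext i
      rw [hom, show z 0 = 1 from rfl, mul_div_cancel_left₀ _ h1]
      rfl
    rw [h2]
    exact hx'.1
  · rw [hmul]
    exact (om_reg hgl ⟨j0, hj0⟩ hess hd htr hc hAh hp hl hA _ ⟨j, rfl⟩ hP).1
  · rw [hmul]
    exact (om_reg hgl ⟨j0, hj0⟩ hess hd htr hc hAh hp hl hA _ ⟨j, rfl⟩ hP).2 (hst P hB)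

/-- **All subvarieties are of log general type.** -/
theorem core {F : Fin p → MvPolynomial (Fin (n + 1)) ℂ}
    {B : Fin p → Fin r → MvPolynomial (Fin (n + 1)) ℂ} {e : Fin p → ℕ}
    {δ : Fin p → Fin r → Derivation ℤ ℂ ℂ} (hmv : Mv F B e δ)
    {A : MvPolynomial (Fin (n + 1)) ℂ} {a0 : ℕ} (hAh : A.IsHomogeneous a0)
    {d : ℕ} (hp : Big (n + 1) d e a0) {y : Fin (n + 1) → L} (hy : y ≠ 0)
    {Bd : Place ℂ L → Prop} (hess : Algebra.EssFiniteType ℂ L) (hd : 0 < d)
    (htr : Algebra.trdeg ℂ L = d)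
    (halg : Algebra.IsAlgebraic
      (IntermediateField.adjoin ℂ {f : L | ∃ i j, y j ≠ 0 ∧ f = y i / y j}) L)
    (hl : ∀ k, MvPolynomial.aeval y (F k) ≠ 0) (hA : MvPolynomial.aeval y A ≠ 0)
    (hst : ∀ P, ¬ Bd P → Ctp F e A a0 P y) :
    LogGeneralType ℂ L d Bd ∧ TH152.DS.Effective L 2 d Bd y := by
  obtain ⟨j0, hj0⟩ := Function.ne_iff.1 hy
  have hj0 : y j0 ≠ 0 := hj0
  set y' : Fin (n + 1) → L := fun i => y i / y j0 with hy'
  have hyy : y = fun i => y j0 * y' i := by
    funext i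
    simp only [hy']
    field_simp
  have hell : ∀ {G : MvPolynomial (Fin (n + 1)) ℂ} {g : ℕ}, G.IsHomogeneous g →
      MvPolynomial.aeval y G = y j0 ^ g * MvPolynomial.aeval y' G := by
    intro G g hG
    conv_lhs => rw [hyy]
    exact val_smul hG (y j0) y'
  have hl' : ∀ k, MvPolynomial.aeval y' (F k) ≠ 0 := fun k h0 =>
    hl k (by rw [hell (hmv.hom k), h0, mul_zero])
  have hA' : MvPolynomial.aeval y' A ≠ 0 := fun h0 =>
    hA (by rw [hell hAh, h0, mul_zero])
  suffices hkey : LogGeneralType ℂ L d Bd ∧ TH152.DS.Effective L 2 d Bd y' by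
    obtain ⟨hkey1, ω, w1, ⟨D1, w2⟩, w3, w4⟩ := hkey
    have hmul : ∀ j, (fun D => (y j0)⁻¹ * ω D * y j) = fun D => ω D * y' j := fun j => by
      funext D
      simp only [hy']
      ring
    refine ⟨hkey1, fun D => (y j0)⁻¹ * ω D, fun M D => ?_,
      ⟨D1, mul_ne_zero (inv_ne_zero hj0) w2⟩, fun P hP j => ?_, fun P hP hB j => ?_⟩
    · change (y j0)⁻¹ * ω (fun i => ∑ j, M i j • D j) = M.det ^ 2 * ((y j0)⁻¹ * ω D)
      rw [w1]
      ring
    · rw [hmul]
      exact w3 P hP j
    · rw [hmul]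
      exact w4 P hP hB j
  refine core1 hmv hAh hp (y := y') (j0 := j0) (div_self hj0) hess hd htr ?_ hl' hA'
    fun P hP c hc hc2 => ?_
  · refine TH152.HY.alg_mono ?_ halg
    rw [IntermediateField.adjoin_le_iff]
    rintro _ ⟨i, j, hj, rfl⟩
    have e1 : y i / y j = y' i / y' j := by
      simp only [hy']
      field_simp
    rw [e1]
    exact div_mem (IntermediateField.subset_adjoin ℂ _ ⟨i, rfl⟩)
      (IntermediateField.subset_adjoin ℂ _ ⟨j, rfl⟩)
  · have hne : ∀ j, y j ≠ 0 ↔ y' j ≠ 0 := fun j => by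
      simp only [hy', div_ne_zero_iff]
      exact ⟨fun h => ⟨h, hj0⟩, fun h => h.1⟩
    have hord : ∀ j, y j ≠ 0 → P.ord (y j) = P.ord (y' j) + P.ord (y j0) := fun j hj => by
      have := P.ord_div hj hj0
      simp only [hy']
      omega
    have hN : TH152.HY.Norm P y (c + P.ord (y j0)) := by
      refine ⟨fun j hj => ?_, ?_⟩
      · have := hc.1 j ((hne j).1 hj)
        rw [hord j hj]
        omega
      · obtain ⟨j, h1, h2⟩ := hc.2
        exact ⟨j, (hne j).2 h1, by rw [hord j ((hne j).2 h1), h2]⟩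
    have hordF : ∀ k, P.ord (MvPolynomial.aeval y (F k)) =
        e k * P.ord (y j0) + P.ord (MvPolynomial.aeval y' (F k)) := fun k => by
      rw [hell (hmv.hom k), P.ord_mul (pow_ne_zero _ hj0) (hl' k), P.ord_pow]
    have h1 := hst P hP _ hN (by
      rw [hell hAh, P.ord_mul (pow_ne_zero _ hj0) hA', P.ord_pow, hc2]
      ring)
    have h2 : ∑ k, (P.ord (MvPolynomial.aeval y (F k)) - e k * (c + P.ord (y j0))) =
        ∑ k, (P.ord (MvPolynomial.aeval y' (F k)) - e k * c) :=
      Finset.sum_congr rfl fun k _ => by rw [hordF]; ring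
    rwa [h2] at h1

end Pool.Agent.K9h12.VH
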