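import Pool.Agent.W601.SM.Gen

/-!
Very general hyperplanes impose independent conditions on forms.
-/

set_option autoImplicit false

namespace Pool.Agent.K9h12.VH

open MvPolynomial Pool.Agent.W601.SM

/-- hyperplanes with algebraically independent coefficients impose independent conditions -/
theorem ind_of_indep {𝕜 : Type} [Field 𝕜] [Algebra 𝕜 ℂ] {q n k : ℕ}
    (hq : q ≤ (n + k).choose n) {ℓ : Fin q → Fin (n + 1) → ℂ}
    (h : AlgebraicIndependent 𝕜 fun x : Fin q × Fin (n + 1) => ℓ x.1 x.2) :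
    Pool.Agent.W601.SM.Ind k ℓ := by
  classical
  obtain ⟨m, hm, hk⟩ := exists_mon hq
  refine ind_of_Psi hk ?_
  -- the same determinant over the small field
  let P : MvPolynomial (Fin q × Fin (n + 1)) 𝕜 :=
    (Matrix.of fun i j => ∏ l, X (i, l) ^ m j l :
      Matrix (Fin q) (Fin q) (MvPolynomial (Fin q × Fin (n + 1)) 𝕜)).det
  have hP : MvPolynomial.map (algebraMap 𝕜 ℂ) P = Psi m := by
    unfold Psi
    show MvPolynomial.map (algebraMap 𝕜 ℂ) (Matrix.det _) = _
    rw [RingHom.map_det]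
    congr 1
    ext1 i j
    simp [RingHom.mapMatrix_apply, Matrix.map_apply]
  have hP0 : P ≠ 0 := by
    intro h0
    apply Psi_ne hm
    rw [← hP, h0, map_zero]
  intro h1
  apply hP0
  rw [AlgebraicIndependent, injective_iff_map_eq_zero] at h
  apply h P
  rw [← hP, MvPolynomial.eval_map] at h1
  rw [MvPolynomial.aeval_def]
  exact h1

/-- the numbers -/
theorem weights {n : ℕ} (hn : 1 ≤ n) {s : ℝ} (hs : 0 < s) {K q : ℕ} (hK : 2 * n ≤ K * s)
    (hq : (n + K).choose n < q) : ∃ k : ℕ, q ≤ (n + k).choose n ∧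
      2 * (((n + k - 1).choose (n - 1) : ℕ) : ℝ) < q * s := by
  classical
  obtain ⟨m, rfl⟩ : ∃ m, n = m + 1 := ⟨n - 1, by omega⟩
  have hmono : ∀ k, (m + 1 + k).choose (m + 1) < (m + 1 + (k + 1)).choose (m + 1) := by
    intro k
    have h1 : (m + 1 + (k + 1)).choose (m + 1)
        = (m + 1 + k).choose m + (m + 1 + k).choose (m + 1) := by
      rw [← add_assoc, Nat.choose_succ_succ]
    have h2 : 0 < (m + 1 + k).choose m := Nat.choose_pos (by omega)
    omega
  have hsm : StrictMono fun k => (m + 1 + k).choose (m + 1) := strictMono_nat_of_lt_succ hmono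
  have hex : ∃ k, q ≤ (m + 1 + k).choose (m + 1) := ⟨q, hsm.id_le q⟩
  set k := Nat.find hex with hk
  have hk1 : q ≤ (m + 1 + k).choose (m + 1) := Nat.find_spec hex
  have hKk : K < k := by
    by_contra hcon
    push Not at hcon
    have h1 : (m + 1 + k).choose (m + 1) ≤ (m + 1 + K).choose (m + 1) := hsm.monotone hcon
    omega
  obtain ⟨j, hj⟩ : ∃ j, k = j + 1 := ⟨k - 1, by omega⟩
  have hk2 : (m + 1 + j).choose (m + 1) < q := by
    have := Nat.find_min hex (m := j) (by omega)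
    omega
  refine ⟨k, hk1, ?_⟩
  rw [hj]
  have e1 : m + 1 + (j + 1) - 1 = m + 1 + j := by omega
  have e2 : m + 1 - 1 = m := by omega
  rw [e1, e2]
  have h3 : (m + 1 + j).choose (m + 1) * (m + 1) = (m + 1 + j).choose m * (j + 1) := by
    rw [Nat.choose_succ_right_eq]
    congr 1
    omega
  set c1 := (m + 1 + j).choose (m + 1) with hc1
  set c0 := (m + 1 + j).choose m with hc0
  have hc0pos : 0 < c0 := Nat.choose_pos (by omega)
  have h5 : ((K : ℝ)) ≤ (j + 1 : ℕ) := by
    exact_mod_cast (by omega : K ≤ j + 1)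
  have h6 : 2 * ((m + 1 : ℕ) : ℝ) ≤ (j + 1 : ℕ) * s :=
    hK.trans (mul_le_mul_of_nonneg_right h5 hs.le)
  have h7 : (c1 : ℝ) * (m + 1 : ℕ) = c0 * (j + 1 : ℕ) := by exact_mod_cast h3
  have h8 : (c1 : ℝ) < q := by exact_mod_cast hk2
  have hmpos : (0 : ℝ) < (m + 1 : ℕ) := by positivity
  have h9 : (2 * (c0 : ℝ)) * (m + 1 : ℕ) < (q * s) * (m + 1 : ℕ) := by
    calc (2 * (c0 : ℝ)) * (m + 1 : ℕ) = c0 * (2 * ((m + 1 : ℕ) : ℝ)) := by ring
      _ ≤ c0 * ((j + 1 : ℕ) * s) :=
          mul_le_mul_of_nonneg_left h6 (by exact_mod_cast hc0pos.le)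
      _ = (c1 * (m + 1 : ℕ)) * s := by rw [h7]; ring
      _ < (q * (m + 1 : ℕ)) * s := by
          apply mul_lt_mul_of_pos_right _ hs
          exact mul_lt_mul_of_pos_right h8 hmpos
      _ = _ := by ring
  exact lt_of_mul_lt_mul_right h9 hmpos.le

end Pool.Agent.K9h12.VH
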