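import Pool.Agent.K9h12.VH.LiftO

/-!
A bound for the poles of a derivation on integral elements.
-/

set_option autoImplicit false

open FF

namespace Pool.Agent.K9h12.VH

open Pool.Agent.W603.LV Pool.Agent.W602.GT

variable {L : Type} [Field L] [Algebra ℂ L]

variable {P : Place ℂ L} {m : ℕ} {t : Fin (m + 1) → L}

/-- the derivation acts on the coefficients of polynomials in the coordinates -/
theorem der_poly {δ : Derivation ℤ ℂ ℂ} {Δ : Derivation ℤ L L}
    (hΔ : ∀ c, Δ (algebraMap ℂ L c) = algebraMap ℂ L (δ c)) {k : ℕ} {s : Fin k → L}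
    (hΔt : ∀ i, Δ (s i) = 0) (G : MvPolynomial (Fin k) ℂ) :
    ∃ G' : MvPolynomial (Fin k) ℂ, Δ (MvPolynomial.aeval s G) = MvPolynomial.aeval s G' := by
  induction G using MvPolynomial.induction_on with
  | C a =>
    refine ⟨MvPolynomial.C (δ a), ?_⟩
    rw [MvPolynomial.aeval_C, MvPolynomial.aeval_C, hΔ]
  | add p q hp hq =>
    obtain ⟨p', hp'⟩ := hp
    obtain ⟨q', hq'⟩ := hq
    refine ⟨p' + q', ?_⟩
    rw [map_add, map_add, map_add, hp', hq']
  | mul_X p i hp =>
    obtain ⟨p', hp'⟩ := hp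
    refine ⟨p' * MvPolynomial.X i, ?_⟩
    rw [map_mul (MvPolynomial.aeval s) p, map_mul (MvPolynomial.aeval s) p',
      MvPolynomial.aeval_X, Derivation.leibniz, hΔt i, smul_zero, zero_add, hp', smul_eq_mul,
      mul_comm]

omit [Algebra ℂ L] in
/-- integrality along ring homomorphisms -/
theorem int_comp {R S : Type} [CommRing R] [CommRing S] [Algebra R L] [Algebra S L] (φ : R →+* S)
    (h : (algebraMap S L).comp φ = algebraMap R L) {f : L} (hf : IsIntegral R f) :
    IsIntegral S f := by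
  obtain ⟨p, hp, hp0⟩ := hf
  refine ⟨p.map φ, hp.map φ, ?_⟩
  rw [Polynomial.eval₂_map, h]
  exact hp0

theorem mem_adj {x : L} (hx : x ∈ Algebra.adjoin ℂ (Set.range t)) :
    ∃ G : MvPolynomial (Fin (m + 1)) ℂ, MvPolynomial.aeval t G = x := by
  rw [Algebra.adjoin_range_eq_range_aeval] at hx
  exact hx

/-- integral elements are regular -/
theorem Co.int (h : Co P t) {f : L} (hf : IsIntegral (Algebra.adjoin ℂ (Set.range t)) f) :
    Ge P 0 f := by
  have hO : ∀ x ∈ Algebra.adjoin ℂ (Set.range t), x ∈ P.O := by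
    intro x hx
    obtain ⟨G, rfl⟩ := mem_adj hx
    exact h.ge G
  let φ : Algebra.adjoin ℂ (Set.range t) →+* P.O :=
    (algebraMap (Algebra.adjoin ℂ (Set.range t)) L).codRestrict P.O.toSubring
      (fun x => hO x x.2)
  have h1 : IsIntegral P.O f := int_comp φ rfl hf
  obtain ⟨y, hy⟩ := IsIntegrallyClosed.isIntegral_iff.1 h1
  have h2 : f ∈ P.O := by
    rw [← hy]
    exact y.2
  exact h2

/-- a bound for the poles of a derivation on integral elements -/
theorem Co.bound (h : Co P t) (hess : Algebra.EssFiniteType ℂ L) {δ : Derivation ℤ ℂ ℂ}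
    {Δ : Derivation ℤ L L} (hΔ : ∀ c, Δ (algebraMap ℂ L c) = algebraMap ℂ L (δ c))
    (hΔt : ∀ i, Δ (t i) = 0) : ∃ C : ℕ, ∀ f,
      IsIntegral (Algebra.adjoin ℂ (Set.range t)) f → Ge P (-(C : ℤ)) (Δ f) := by
  have halg := alg_of_basis t h.basis
  let iA : Algebra (MvPolynomial (Fin (m + 1)) ℂ) L :=
    ((MvPolynomial.aeval t : MvPolynomial (Fin (m + 1)) ℂ →ₐ[ℂ] L) :
      MvPolynomial (Fin (m + 1)) ℂ →+* L).toAlgebra
  have hmap : ∀ G : MvPolynomial (Fin (m + 1)) ℂ, algebraMap _ L G = MvPolynomial.aeval t G :=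
    fun _ => rfl
  have hinj : Function.Injective (algebraMap (MvPolynomial (Fin (m + 1)) ℂ) L) := h.basis.1
  have hf1 : FaithfulSMul (MvPolynomial (Fin (m + 1)) ℂ) L :=
    (faithfulSMul_iff_algebraMap_injective _ _).2 hinj
  have ht0 : IsScalarTower ℂ (MvPolynomial (Fin (m + 1)) ℂ) L := by
    refine IsScalarTower.of_algebraMap_eq fun c => ?_
    rw [hmap, MvPolynomial.algebraMap_eq, MvPolynomial.aeval_C]
  let iK : Algebra (FractionRing (MvPolynomial (Fin (m + 1)) ℂ)) L :=
    FractionRing.liftAlgebra _ L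
  have ht1 : IsScalarTower (MvPolynomial (Fin (m + 1)) ℂ)
      (FractionRing (MvPolynomial (Fin (m + 1)) ℂ)) L := FractionRing.isScalarTower_liftAlgebra _ L
  have ht2 : IsScalarTower ℂ (FractionRing (MvPolynomial (Fin (m + 1)) ℂ)) L := by
    refine IsScalarTower.of_algebraMap_eq fun c => ?_
    rw [IsScalarTower.algebraMap_apply ℂ (MvPolynomial (Fin (m + 1)) ℂ)
      (FractionRing (MvPolynomial (Fin (m + 1)) ℂ)), ← IsScalarTower.algebraMap_apply
      (MvPolynomial (Fin (m + 1)) ℂ) (FractionRing (MvPolynomial (Fin (m + 1)) ℂ)) L,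
      ← IsScalarTower.algebraMap_apply ℂ (MvPolynomial (Fin (m + 1)) ℂ) L]
  have hKalg : Algebra.IsAlgebraic (FractionRing (MvPolynomial (Fin (m + 1)) ℂ)) L :=
    (IsFractionRing.comap_isAlgebraic_iff (A := MvPolynomial (Fin (m + 1)) ℂ)).1 halg
  have hKess : Algebra.EssFiniteType (FractionRing (MvPolynomial (Fin (m + 1)) ℂ)) L :=
    Algebra.EssFiniteType.of_comp ℂ _ L
  have hKfin : FiniteDimensional (FractionRing (MvPolynomial (Fin (m + 1)) ℂ)) L :=
    Algebra.finite_of_essFiniteType_of_isAlgebraic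
  have hsep : Algebra.IsSeparable (FractionRing (MvPolynomial (Fin (m + 1)) ℂ)) L := inferInstance
  have hfin : Module.Finite (MvPolynomial (Fin (m + 1)) ℂ)
      (integralClosure (MvPolynomial (Fin (m + 1)) ℂ) L) :=
    IsIntegralClosure.finite _ (FractionRing (MvPolynomial (Fin (m + 1)) ℂ)) L _
  obtain ⟨n, s, hs⟩ := Module.Finite.exists_fin (R := MvPolynomial (Fin (m + 1)) ℂ)
    (M := integralClosure (MvPolynomial (Fin (m + 1)) ℂ) L)
  -- the two rings
  let e := h.basis.1.aevalEquiv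
  have he : ∀ G, ((e G : Algebra.adjoin ℂ (Set.range t)) : L) = MvPolynomial.aeval t G := fun G =>
    h.basis.1.algebraMap_aevalEquiv G
  have hto : ∀ f : L, IsIntegral (MvPolynomial (Fin (m + 1)) ℂ) f →
      IsIntegral (Algebra.adjoin ℂ (Set.range t)) f := fun f hf =>
    int_comp (e : MvPolynomial (Fin (m + 1)) ℂ →+* Algebra.adjoin ℂ (Set.range t))
      (RingHom.ext fun G => he G) hf
  have hfrom : ∀ f : L, IsIntegral (Algebra.adjoin ℂ (Set.range t)) f →
      IsIntegral (MvPolynomial (Fin (m + 1)) ℂ) f := fun f hf =>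
    int_comp (e.symm : Algebra.adjoin ℂ (Set.range t) →+* MvPolynomial (Fin (m + 1)) ℂ)
      (RingHom.ext fun G => by
        have h1 := he (e.symm G)
        rw [AlgEquiv.apply_symm_apply] at h1
        exact h1.symm) hf
  refine ⟨∑ i, (P.ord (Δ (s i : L))).natAbs, fun f hf => ?_⟩
  have hsi : ∀ i, Ge P 0 (s i : L) := fun i => h.int (hto _ (s i).2)
  have hdi : ∀ i, Ge P (-((∑ i, (P.ord (Δ (s i : L))).natAbs : ℕ) : ℤ)) (Δ (s i : L)) := by
    intro i
    right
    have h1 : (P.ord (Δ (s i : L))).natAbs ≤ ∑ i, (P.ord (Δ (s i : L))).natAbs :=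
      Finset.single_le_sum (f := fun i => (P.ord (Δ (s i : L))).natAbs)
        (fun _ _ => Nat.zero_le _) (Finset.mem_univ i)
    omega
  have hmem : (⟨f, hfrom f hf⟩ : integralClosure (MvPolynomial (Fin (m + 1)) ℂ) L) ∈
      Submodule.span (MvPolynomial (Fin (m + 1)) ℂ) (Set.range s) := by
    rw [hs]
    exact Submodule.mem_top
  obtain ⟨c, hc⟩ := (Submodule.mem_span_range_iff_exists_fun _).1 hmem
  have hfc : f = ∑ i, MvPolynomial.aeval t (c i) * (s i : L) := by
    have h1 := congrArg (Subtype.val) hc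
    rw [← show ((⟨f, hfrom f hf⟩ : integralClosure (MvPolynomial (Fin (m + 1)) ℂ) L) : L) = f from rfl,
      ← h1]
    rw [AddSubmonoidClass.coe_finsetSum]
    refine Finset.sum_congr rfl fun i _ => ?_
    rfl
  rw [hfc, map_sum]
  refine Ge.sum _ _ fun i _ => ?_
  rw [Derivation.leibniz, smul_eq_mul, smul_eq_mul]
  refine Ge.add ?_ ?_
  · have := (h.ge (c i)).mul (hdi i)
    rwa [zero_add] at this
  · obtain ⟨G', hG'⟩ := der_poly hΔ hΔt (c i)
    rw [hG']
    have := (hsi i).mul (h.ge G')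
    rw [add_zero] at this
    exact this.mono (by omega)

end Pool.Agent.K9h12.VH
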