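import Pool.Agent.K9h12.VH.LiftB

/-!
The residue field is algebraic over the residues of the coordinates; regularity of the lift.
-/

set_option autoImplicit false

open FF

namespace Pool.Agent.K9h12.VH

open Pool.Agent.W603.LV Pool.Agent.W602.GT

variable {L : Type} [Field L] [Algebra ℂ L]

variable {P : Place ℂ L} {m : ℕ} {t : Fin (m + 1) → L}

/-- the residue of a polynomial in the coordinates -/
theorem Co.red (h : Co P t) (G : MvPolynomial (Fin (m + 1)) ℂ) : ∃ g : MvPolynomial (Fin m) ℂ,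
    Ge P 1 (MvPolynomial.aeval t G - MvPolynomial.aeval (fun i : Fin m => t i.succ) g) := by
  set φ := MvPolynomial.finSuccEquiv ℂ m with hφ
  set q := φ G with hq
  have hG : G = φ.symm q := (φ.symm_apply_apply G).symm
  refine ⟨q.coeff 0, ?_⟩
  have e1 : MvPolynomial.aeval t (φ.symm q) =
      MvPolynomial.aeval (fun i : Fin m => t i.succ) (q.coeff 0) +
        MvPolynomial.aeval t (φ.symm q.divX) * t 0 := by
    rw [hφ, aeval_fin, aeval_fin]
    conv_lhs => rw [← q.divX_mul_X_add]
    rw [Polynomial.eval₂_add, Polynomial.eval₂_mul, Polynomial.eval₂_X, Polynomial.eval₂_C,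
      add_comm]
    rfl
  have h3 : Ge P 1 (MvPolynomial.aeval t (φ.symm q.divX) * t 0) := by
    have h4 : Ge P 1 (t 0) := Or.inr h.unif.ge
    simpa using (h.ge (φ.symm q.divX)).mul h4
  rw [hG, e1, add_sub_cancel_left]
  exact h3

/-- an algebraic relation which does not vanish at the prime divisor -/
theorem Co.rel (h : Co P t) (f : L) : ∃ (N : ℕ) (H : ℕ → MvPolynomial (Fin (m + 1)) ℂ) (j : ℕ),
    j ≤ N ∧ ¬ Ge P 1 (MvPolynomial.aeval t (H j)) ∧
      ∑ i ∈ Finset.range (N + 1), MvPolynomial.aeval t (H i) * f ^ i = 0 := by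
  have halg := alg_of_basis t h.basis
  let _ : Algebra (MvPolynomial (Fin (m + 1)) ℂ) L :=
    ((MvPolynomial.aeval t : MvPolynomial (Fin (m + 1)) ℂ →ₐ[ℂ] L) :
      MvPolynomial (Fin (m + 1)) ℂ →+* L).toAlgebra
  have hmap : ∀ G : MvPolynomial (Fin (m + 1)) ℂ, algebraMap _ L G = MvPolynomial.aeval t G :=
    fun _ => rfl
  obtain ⟨p, hp0, hp⟩ := halg.isAlgebraic f
  have hkey : ∀ i ∈ p.support, ∃ (e : ℕ) (G' : MvPolynomial (Fin (m + 1)) ℂ),
      p.coeff i = MvPolynomial.X 0 ^ e * G' ∧
      MvPolynomial.aeval t G' ≠ 0 ∧ P.ord (MvPolynomial.aeval t G') = 0 := by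
    intro i hi
    exact h.ord (Polynomial.mem_support_iff.1 hi)
  choose! e G' he using hkey
  obtain ⟨j0, hj0, hmin⟩ := p.support.exists_min_image e (Polynomial.support_nonempty.2 hp0)
  have ht0 : t 0 ≠ 0 := by
    intro h0
    have := h.unif
    rw [h0, P.ord_zero] at this
    omega
  refine ⟨p.natDegree, fun i => if i ∈ p.support then MvPolynomial.X 0 ^ (e i - e j0) * G' i else 0,
    j0, Polynomial.le_natDegree_of_mem_supp j0 hj0, ?_, ?_⟩
  · dsimp only
    rw [if_pos hj0, Nat.sub_self, pow_zero, one_mul]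
    rintro (h1 | h1)
    · exact (he j0 hj0).2.1 h1
    · rw [(he j0 hj0).2.2] at h1
      omega
  · have hcoef : ∀ i, MvPolynomial.aeval t (p.coeff i) = t 0 ^ e j0 * MvPolynomial.aeval t
        (if i ∈ p.support then MvPolynomial.X 0 ^ (e i - e j0) * G' i else 0) := by
      intro i
      by_cases hi : i ∈ p.support
      · rw [if_pos hi, (he i hi).1, map_mul, map_pow, MvPolynomial.aeval_X, map_mul, map_pow,
          MvPolynomial.aeval_X, ← mul_assoc, ← pow_add, Nat.add_sub_cancel' (hmin i hi)]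
      · rw [if_neg hi, map_zero, mul_zero, Polynomial.notMem_support_iff.1 hi, map_zero]
    have h1 : t 0 ^ e j0 * ∑ i ∈ Finset.range (p.natDegree + 1), MvPolynomial.aeval t
        (if i ∈ p.support then MvPolynomial.X 0 ^ (e i - e j0) * G' i else 0) * f ^ i = 0 := by
      rw [Finset.mul_sum, ← hp, Polynomial.aeval_eq_sum_range]
      refine Finset.sum_congr rfl fun i _ => ?_
      rw [Algebra.smul_def, hmap, hcoef, mul_assoc]
    exact (mul_eq_zero.1 h1).resolve_left (pow_ne_zero _ ht0)

/-- the residues of regular elements are algebraic over the residues of the coordinates -/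
theorem Co.root₀ (h : Co P t) {f : L} (hf : Ge P 0 f) :
    ∃ p : Polynomial (MvPolynomial (Fin m) ℂ), p ≠ 0 ∧
      Ge P 1 (Polynomial.eval₂ (MvPolynomial.aeval (fun i : Fin m => t i.succ) :
        MvPolynomial (Fin m) ℂ →ₐ[ℂ] L).toRingHom f p) := by
  obtain ⟨N, H, j, hjN, hj, hsum⟩ := h.rel f
  choose g hg using fun i => h.red (H i)
  refine ⟨∑ i ∈ Finset.range (N + 1), Polynomial.monomial i (g i), ?_, ?_⟩
  · intro h0
    have h1 : (∑ i ∈ Finset.range (N + 1), Polynomial.monomial i (g i)).coeff j = g j := by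
      rw [Polynomial.finsetSum_coeff]
      simp only [Polynomial.coeff_monomial]
      rw [Finset.sum_ite_eq', if_pos (Finset.mem_range.2 (Nat.lt_succ_of_le hjN))]
    rw [h0, Polynomial.coeff_zero] at h1
    apply hj
    have h2 := hg j
    rwa [← h1, map_zero, sub_zero] at h2
  · have e1 : Polynomial.eval₂ (MvPolynomial.aeval (fun i : Fin m => t i.succ) :
        MvPolynomial (Fin m) ℂ →ₐ[ℂ] L).toRingHom f
          (∑ i ∈ Finset.range (N + 1), Polynomial.monomial i (g i)) =
        - ∑ i ∈ Finset.range (N + 1), (MvPolynomial.aeval t (H i) -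
          MvPolynomial.aeval (fun i : Fin m => t i.succ) (g i)) * f ^ i := by
      rw [Polynomial.eval₂_finsetSum]
      have e2 : ∀ i ∈ Finset.range (N + 1), (MvPolynomial.aeval t (H i) -
          MvPolynomial.aeval (fun i : Fin m => t i.succ) (g i)) * f ^ i =
          MvPolynomial.aeval t (H i) * f ^ i -
            MvPolynomial.aeval (fun i : Fin m => t i.succ) (g i) * f ^ i := fun i _ => sub_mul _ _ _
      rw [Finset.sum_congr rfl e2, Finset.sum_sub_distrib, hsum, zero_sub, neg_neg]
      refine Finset.sum_congr rfl fun i _ => ?_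
      rw [Polynomial.eval₂_monomial]
      rfl
    rw [e1]
    refine (Ge.sum _ _ fun i _ => ?_).neg
    simpa using (hg i).mul (hf.pow i)

/-- the residues of regular elements are simple roots of polynomials in the residues of the
coordinates -/
theorem Co.root (h : Co P t) {f : L} (hf : Ge P 0 f) :
    ∃ p : Polynomial (MvPolynomial (Fin m) ℂ),
      Ge P 1 (Polynomial.eval₂ (MvPolynomial.aeval (fun i : Fin m => t i.succ) :
        MvPolynomial (Fin m) ℂ →ₐ[ℂ] L).toRingHom f p) ∧
      Polynomial.eval₂ (MvPolynomial.aeval (fun i : Fin m => t i.succ) :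
        MvPolynomial (Fin m) ℂ →ₐ[ℂ] L).toRingHom f (Polynomial.derivative p) ≠ 0 ∧
      P.ord (Polynomial.eval₂ (MvPolynomial.aeval (fun i : Fin m => t i.succ) :
        MvPolynomial (Fin m) ℂ →ₐ[ℂ] L).toRingHom f (Polynomial.derivative p)) = 0 := by
  set φ : MvPolynomial (Fin m) ℂ →+* L := (MvPolynomial.aeval (fun i : Fin m => t i.succ) :
        MvPolynomial (Fin m) ℂ →ₐ[ℂ] L).toRingHom with hφd
  have hφ : ∀ a, Ge P 0 (φ a) := fun a => by
    by_cases ha : a = 0
    · rw [ha, map_zero]; exact Ge.zero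
    · exact Or.inr (h.res a ha).2.ge
  have hge : ∀ p : Polynomial (MvPolynomial (Fin m) ℂ), Ge P 0 (Polynomial.eval₂ φ f p) := by
    intro p
    rw [Polynomial.eval₂_eq_sum_range]
    refine Ge.sum _ _ fun i _ => ?_
    have := (hφ (p.coeff i)).mul (hf.pow i)
    simpa using this
  classical
  have hex : ∃ d : ℕ, ∃ p : Polynomial (MvPolynomial (Fin m) ℂ), p.natDegree = d ∧ p ≠ 0 ∧
      Ge P 1 (Polynomial.eval₂ φ f p) := by
    obtain ⟨p, hp, hp'⟩ := h.root₀ hf
    exact ⟨_, p, rfl, hp, hp'⟩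
  obtain ⟨p, hd, hp0, hp⟩ := Nat.find_spec hex
  have hmin := fun (d : ℕ) (hd : d < Nat.find hex) => Nat.find_min hex hd
  have hpos : 0 < p.natDegree := by
    rw [Nat.pos_iff_ne_zero]
    intro h0
    have h1 := Polynomial.eq_C_of_natDegree_eq_zero h0
    have h2 : p.coeff 0 ≠ 0 := by
      intro h3
      rw [h3, map_zero] at h1
      exact hp0 h1
    rw [h1, Polynomial.eval₂_C] at hp
    obtain ⟨h3, h4⟩ := h.res _ h2
    rcases hp with h5 | h5
    · exact h3 h5
    · have h6 : P.ord (φ (p.coeff 0)) = 0 := h4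
      omega
  have hder : Polynomial.derivative p ≠ 0 := by
    intro h0
    have := Polynomial.derivative_eq_zero.1 h0
    omega
  have hlt : (Polynomial.derivative p).natDegree < Nat.find hex := by
    rw [← hd]
    exact Polynomial.natDegree_derivative_lt hpos.ne'
  have hnot : ¬ Ge P 1 (Polynomial.eval₂ φ f (Polynomial.derivative p)) := fun h1 =>
    hmin _ hlt ⟨_, rfl, hder, h1⟩
  refine ⟨p, hp, fun h0 => hnot (Or.inl h0), ?_⟩
  have h1 := (hge (Polynomial.derivative p)).resolve_left (fun h0 => hnot (Or.inl h0))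
  have h2 : ¬ 1 ≤ P.ord (Polynomial.eval₂ φ f (Polynomial.derivative p)) := fun h0 => hnot (Or.inr h0)
  omega

end Pool.Agent.K9h12.VH
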