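import Pool.Agent.K9h12.VH.Ext

/-!
Polynomials in coordinates at a prime divisor, and fractions of integral elements.
-/

set_option autoImplicit false

open FF

namespace Pool.Agent.K9h12.VH

open Pool.Agent.W603.LV Pool.Agent.W602.GT

section horner

open Polynomial

variable {R L : Type*} [CommRing R] [Field L] [Algebra R L]

/-- the product of a root and the leading coefficient is integral -/
theorem lead_int (x : L) (n : ℕ) (a : ℕ → L) (ha : ∀ i, IsIntegral R (a i))
    (h : ∑ i ∈ Finset.range (n + 1), a i * x ^ i = 0) : IsIntegral R (a n * x) := by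
  by_cases hn : a n = 0
  · rw [hn, zero_mul]
    exact isIntegral_zero
  let c : ℕ → integralClosure R L := fun i => ⟨a i, ha i⟩
  let q : (integralClosure R L)[X] := ∑ i ∈ Finset.range (n + 1), monomial i (c i)
  have hq : ∀ i, q.coeff i = if i < n + 1 then c i else 0 := by
    intro i
    simp only [q, finsetSum_coeff, coeff_monomial]
    rw [Finset.sum_ite_eq']
    simp [Finset.mem_range]
  have hcn : c n ≠ 0 := by
    intro h0
    exact hn (congrArg Subtype.val h0)
  have hdeg : q.natDegree = n := by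
    refine natDegree_eq_of_le_of_coeff_ne_zero ?_ ?_
    · rw [natDegree_le_iff_coeff_eq_zero]
      intro i hi
      rw [hq, if_neg (by omega)]
    · rw [hq, if_pos (Nat.lt_succ_self n)]
      exact hcn
  have hlead : q.leadingCoeff = c n := by
    unfold Polynomial.leadingCoeff
    rw [hdeg, hq, if_pos (Nat.lt_succ_self n)]
  have hroot : aeval x q = 0 := by
    simp only [q, map_sum, aeval_monomial]
    exact h
  have h1 := isIntegral_leadingCoeff_smul q x hroot
  rw [hlead] at h1
  exact isIntegral_trans (R := R) _ h1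

/-- partial sums of the Horner scheme -/
def horner (a : ℕ → L) (x : L) (N : ℕ) : ℕ → L
  | 0 => a N
  | s + 1 => horner a x N s * x + a (N - (s + 1))

theorem horner_int (x : L) (N : ℕ) (a : ℕ → L) (ha : ∀ i, IsIntegral R (a i))
    (h : ∑ i ∈ Finset.range (N + 1), a i * x ^ i = 0) (s : ℕ) (hs : s ≤ N) :
    IsIntegral R (horner a x N s) ∧ IsIntegral R (horner a x N s * x) ∧
      (∑ i ∈ Finset.range (N - s), a i * x ^ i) + horner a x N s * x ^ (N - s) = 0 := by
  induction s with
  | zero =>
    refine ⟨ha N, lead_int x N a ha h, ?_⟩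
    rw [Finset.sum_range_succ] at h
    exact h
  | succ s ih =>
    obtain ⟨h1, h2, h3⟩ := ih (by omega)
    have hint : IsIntegral R (horner a x N (s + 1)) := h2.add (ha _)
    have e : N - s = N - (s + 1) + 1 := by omega
    have hrel : (∑ i ∈ Finset.range (N - (s + 1)), a i * x ^ i) +
        horner a x N (s + 1) * x ^ (N - (s + 1)) = 0 := by
      rw [e, Finset.sum_range_succ, pow_succ] at h3
      change _ + (horner a x N s * x + a (N - (s + 1))) * _ = _
      rw [← h3]
      ring
    refine ⟨hint, ?_, hrel⟩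
    set n := N - (s + 1) with hn
    have h4 := lead_int (R := R) x n (Function.update a n (horner a x N (s + 1))) ?_ ?_
    · rwa [Function.update_self] at h4
    · intro i
      by_cases hi : i = n
      · subst hi
        rw [Function.update_self]
        exact hint
      · rw [Function.update_of_ne hi]
        exact ha i
    · rw [Finset.sum_range_succ, Function.update_self, ← hrel]
      congr 1
      refine Finset.sum_congr rfl fun i hi => ?_
      rw [Function.update_of_ne (Finset.mem_range.1 hi).ne]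

end horner

variable {L : Type} [Field L] [Algebra ℂ L]

/-- coordinates at a prime divisor: a uniformizer, and elements whose residues are algebraically
independent -/
structure Co {m : ℕ} (P : Place ℂ L) (t : Fin (m + 1) → L) : Prop where
  basis : IsTranscendenceBasis ℂ t
  unif : P.ord (t 0) = 1
  res : ∀ F : MvPolynomial (Fin m) ℂ, F ≠ 0 →
        MvPolynomial.aeval (fun i : Fin m => t i.succ) F ≠ 0 ∧
        P.ord (MvPolynomial.aeval (fun i : Fin m => t i.succ) F) = 0

variable {P : Place ℂ L} {m : ℕ} {t : Fin (m + 1) → L}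

theorem Co.ge (h : Co P t) (G : MvPolynomial (Fin (m + 1)) ℂ) : Ge P 0 (MvPolynomial.aeval t G) := by
  refine ge_mvaeval P (fun j => ?_) G
  refine Fin.cases ?_ (fun i => ?_) j
  · right
    rw [h.unif]
    exact zero_le_one
  · right
    have := (h.res (MvPolynomial.X i) (MvPolynomial.X_ne_zero i)).2
    rw [MvPolynomial.aeval_X] at this
    rw [this]

/-- evaluation in terms of the first variable -/
theorem aeval_fin (t : Fin (m + 1) → L) (q : Polynomial (MvPolynomial (Fin m) ℂ)) :
    MvPolynomial.aeval t ((MvPolynomial.finSuccEquiv ℂ m).symm q) =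
      q.eval₂ (MvPolynomial.aeval (fun i : Fin m => t i.succ) :
        MvPolynomial (Fin m) ℂ →ₐ[ℂ] L).toRingHom (t 0) := by
  obtain ⟨G, rfl⟩ := (MvPolynomial.finSuccEquiv ℂ m).surjective q
  rw [AlgEquiv.symm_apply_apply]
  induction G using MvPolynomial.induction_on with
  | C a =>
    rw [MvPolynomial.finSuccEquiv_apply]
    simp
  | add p q hp hq => rw [map_add, map_add, Polynomial.eval₂_add, hp, hq]
  | mul_X p j hp =>
    rw [map_mul, map_mul, Polynomial.eval₂_mul, hp, MvPolynomial.aeval_X]
    congr 1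
    refine Fin.cases ?_ (fun i => ?_) j
    · rw [MvPolynomial.finSuccEquiv_X_zero, Polynomial.eval₂_X]
    · rw [MvPolynomial.finSuccEquiv_X_succ, Polynomial.eval₂_C]
      simp

/-- the order of a polynomial in the coordinates -/
theorem Co.ord (h : Co P t) {G : MvPolynomial (Fin (m + 1)) ℂ} (hG : G ≠ 0) :
    ∃ (e : ℕ) (G' : MvPolynomial (Fin (m + 1)) ℂ), G = MvPolynomial.X 0 ^ e * G' ∧
      MvPolynomial.aeval t G' ≠ 0 ∧ P.ord (MvPolynomial.aeval t G') = 0 := by
  set φ := MvPolynomial.finSuccEquiv ℂ m with hφ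
  have hp : φ G ≠ 0 := by
    rw [Ne, EmbeddingLike.map_eq_zero_iff]
    exact hG
  obtain ⟨q, hq, hnd⟩ := (φ G).exists_eq_pow_rootMultiplicity_mul_and_not_dvd hp 0
  rw [map_zero, sub_zero] at hq hnd
  have hq0 : q.coeff 0 ≠ 0 := fun h0 => hnd (Polynomial.X_dvd_iff.2 h0)
  refine ⟨(φ G).rootMultiplicity 0, φ.symm q, ?_, ?_⟩
  · apply φ.injective
    rw [map_mul, map_pow, AlgEquiv.apply_symm_apply, hφ, MvPolynomial.finSuccEquiv_X_zero]
    exact hq
  · have e1 : MvPolynomial.aeval t (φ.symm q) =
        MvPolynomial.aeval (fun i : Fin m => t i.succ) (q.coeff 0) +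
          MvPolynomial.aeval t (φ.symm q.divX) * t 0 := by
      rw [hφ, aeval_fin, aeval_fin]
      conv_lhs => rw [← q.divX_mul_X_add]
      rw [Polynomial.eval₂_add, Polynomial.eval₂_mul, Polynomial.eval₂_X, Polynomial.eval₂_C,
        add_comm]
      rfl
    obtain ⟨h1, h2⟩ := h.res _ hq0
    have h3 : Ge P 1 (MvPolynomial.aeval t (φ.symm q.divX) * t 0) := by
      have h4 : Ge P 1 (t 0) := Or.inr h.unif.ge
      simpa using (h.ge (φ.symm q.divX)).mul h4
    rw [e1]
    rcases h3 with h3 | h3
    · rw [h3, add_zero]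
      exact ⟨h1, h2⟩
    · by_cases h4 : MvPolynomial.aeval t (φ.symm q.divX) * t 0 = 0
      · rw [h4, add_zero]
        exact ⟨h1, h2⟩
      · have h5 := P.ord_add_eq h1 h4 (by rw [h2]; omega)
        rw [h2] at h5
        exact h5

theorem horner_ge {a : ℕ → L} {x : L} {N : ℕ} (hx : Ge P 0 x) (s : ℕ) (hs : s ≤ N)
    (ha : ∀ i, N - s < i → i ≤ N → Ge P 1 (a i)) : Ge P 1 (horner a x N s - a (N - s)) := by
  induction s with
  | zero =>
    left
    exact sub_self _
  | succ s ih =>
    have h1 := ih (by omega) (fun i h1 h2 => ha i (by omega) h2)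
    have h2 : Ge P 1 (horner a x N s) := by
      have h3 := h1.add (ha (N - s) (by omega) (by omega))
      rwa [sub_add_cancel] at h3
    have e : horner a x N (s + 1) - a (N - (s + 1)) = horner a x N s * x := add_sub_cancel_right _ _
    rw [e]
    simpa using h2.mul hx

/-- regular elements are fractions of integral elements whose denominator is a unit -/
theorem Co.frac (h : Co P t) {f : L} (hf : Ge P 0 f) :
    ∃ b c : L, IsIntegral (Algebra.adjoin ℂ (Set.range t)) b ∧
      IsIntegral (Algebra.adjoin ℂ (Set.range t)) c ∧ b ≠ 0 ∧ P.ord b = 0 ∧ f = c / b := by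
  have halg := alg_of_basis t h.basis
  let _ : Algebra (MvPolynomial (Fin (m + 1)) ℂ) L :=
    ((MvPolynomial.aeval t : MvPolynomial (Fin (m + 1)) ℂ →ₐ[ℂ] L) :
      MvPolynomial (Fin (m + 1)) ℂ →+* L).toAlgebra
  have hmap : ∀ G : MvPolynomial (Fin (m + 1)) ℂ, algebraMap _ L G = MvPolynomial.aeval t G :=
    fun _ => rfl
  obtain ⟨p, hp0, hp⟩ := halg.isAlgebraic f
  have hkey : ∀ i ∈ p.support, ∃ (e : ℕ) (G' : MvPolynomial (Fin (m + 1)) ℂ),
      p.coeff i = MvPolynomial.X 0 ^ e * G' ∧
      MvPolynomial.aeval t G' ≠ 0 ∧ P.ord (MvPolynomial.aeval t G') = 0 := by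
    intro i hi
    exact h.ord (Polynomial.mem_support_iff.1 hi)
  choose! e G' he using hkey
  obtain ⟨j0, hj0, hmin⟩ := p.support.exists_min_image e (Polynomial.support_nonempty.2 hp0)
  have ht0 : t 0 ≠ 0 := by
    intro h0
    have := h.unif
    rw [h0, P.ord_zero] at this
    omega
  set a : ℕ → L := fun i => if i ∈ p.support then t 0 ^ (e i - e j0) * MvPolynomial.aeval t (G' i)
    else 0 with ha
  have hamem : ∀ i, ∃ H : MvPolynomial (Fin (m + 1)) ℂ, a i = MvPolynomial.aeval t H := by
    intro i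
    by_cases hi : i ∈ p.support
    · refine ⟨MvPolynomial.X 0 ^ (e i - e j0) * G' i, ?_⟩
      simp only [ha]
      rw [if_pos hi, map_mul, map_pow, MvPolynomial.aeval_X]
    · refine ⟨0, ?_⟩
      simp only [ha]
      rw [if_neg hi, map_zero]
  have haint : ∀ i, IsIntegral (Algebra.adjoin ℂ (Set.range t)) (a i) := by
    intro i
    obtain ⟨H, hH⟩ := hamem i
    have hm : a i ∈ Algebra.adjoin ℂ (Set.range t) := by
      rw [Algebra.adjoin_range_eq_range_aeval, hH]
      exact ⟨H, rfl⟩
    exact isIntegral_algebraMap (x := (⟨a i, hm⟩ : Algebra.adjoin ℂ (Set.range t)))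
  have hage : ∀ i, Ge P 0 (a i) := by
    intro i
    obtain ⟨H, hH⟩ := hamem i
    rw [hH]
    exact h.ge H
  have hcoef : ∀ i, MvPolynomial.aeval t (p.coeff i) = t 0 ^ e j0 * a i := by
    intro i
    by_cases hi : i ∈ p.support
    · simp only [ha]
      rw [if_pos hi, (he i hi).1, map_mul, map_pow, MvPolynomial.aeval_X, ← mul_assoc, ← pow_add,
        Nat.add_sub_cancel' (hmin i hi)]
    · simp only [ha]
      rw [if_neg hi, mul_zero, Polynomial.notMem_support_iff.1 hi, map_zero]
  have hsum : ∑ i ∈ Finset.range (p.natDegree + 1), a i * f ^ i = 0 := by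
    have h1 : t 0 ^ e j0 * ∑ i ∈ Finset.range (p.natDegree + 1), a i * f ^ i = 0 := by
      rw [Finset.mul_sum, ← hp, Polynomial.aeval_eq_sum_range]
      refine Finset.sum_congr rfl fun i _ => ?_
      rw [Algebra.smul_def, hmap, hcoef, mul_assoc]
    exact (mul_eq_zero.1 h1).resolve_left (pow_ne_zero _ ht0)
  have haj0 : ¬ Ge P 1 (a j0) := by
    have e1 : a j0 = MvPolynomial.aeval t (G' j0) := by
      simp only [ha]
      rw [if_pos hj0, Nat.sub_self, pow_zero, one_mul]
    rw [e1]
    rintro (h1 | h1)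
    · exact (he j0 hj0).2.1 h1
    · rw [(he j0 hj0).2.2] at h1
      omega
  classical
  obtain ⟨j, hj, hjmax⟩ := ((Finset.range (p.natDegree + 1)).filter (fun i => ¬ Ge P 1 (a i))).exists_max_image
    id ⟨j0, Finset.mem_filter.2 ⟨Finset.mem_range.2
      (Nat.lt_succ_of_le (Polynomial.le_natDegree_of_mem_supp j0 hj0)), haj0⟩⟩
  rw [Finset.mem_filter, Finset.mem_range] at hj
  obtain ⟨hjN, hj1⟩ := hj
  have hjN' : j ≤ p.natDegree := Nat.lt_succ_iff.1 hjN
  set N := p.natDegree with hN
  have hbig : ∀ i, N - (N - j) < i → i ≤ N → Ge P 1 (a i) := by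
    intro i h1 h2
    by_contra h3
    have := hjmax i (Finset.mem_filter.2 ⟨Finset.mem_range.2 (Nat.lt_succ_of_le h2), h3⟩)
    simp only [id] at this
    omega
  have hge := horner_ge (a := a) hf (N - j) (Nat.sub_le _ _) hbig
  obtain ⟨hi1, hi2, -⟩ := horner_int f N a haint hsum (N - j) (Nat.sub_le _ _)
  rw [Nat.sub_sub_self hjN'] at hge
  set b := horner a f N (N - j) with hb
  have haj : a j ≠ 0 ∧ P.ord (a j) = 0 := by
    have h1 : a j ≠ 0 := fun h0 => hj1 (Or.inl h0)
    refine ⟨h1, ?_⟩
    have h2 : ¬ 1 ≤ P.ord (a j) := fun h0 => hj1 (Or.inr h0)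
    have h3 := (hage j).resolve_left h1
    omega
  have hb1 : b ≠ 0 ∧ P.ord b = 0 := by
    have e1 : b = a j + (b - a j) := by ring
    by_cases h0 : b - a j = 0
    · rw [h0, add_zero] at e1
      rw [e1]
      exact haj
    · have h2 := P.ord_add_eq haj.1 h0 (by
        have := hge.resolve_left h0
        rw [haj.2]; omega)
      rw [← e1, haj.2] at h2
      exact h2
  refine ⟨b, b * f, hi1, hi2, hb1.1, hb1.2, ?_⟩
  rw [mul_div_cancel_left₀ _ hb1.1]

end Pool.Agent.K9h12.VH
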