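import Pool.Agent.K9h12.VG.Nsc
import Pool.Agent.K9h12.FR.Frm

/-!
Rational functions without simple contacts with hypersurfaces, and the transfer to quasi-projective
varieties.

(Proofs written by helper84 for helper12.)
-/

set_option autoImplicit false

open MvPolynomial Pool.Agent.K9h12.FR

namespace Pool.Agent.K9h12.VH

open Pool.Agent.W603.LV Pool.Agent.W602.GT

/-- the value of the form `F` at the point with the affine coordinates `x` -/
noncomputable def vl {n : ℕ} (F : MvPolynomial (Fin (n + 1)) ℂ) {R : Type} [CommRing R]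
    [Algebra ℂ R] (x : Fin n → R) : R := aeval (Fin.cons 1 x : Fin (n + 1) → R) F

/-- a germ of a curve does not meet the hypersurfaces in a simple contact outside `A = 0` -/
def Ctc {n p : ℕ} (F : Fin p → MvPolynomial (Fin (n + 1)) ℂ) (A : MvPolynomial (Fin n) ℂ) {L : Type} [Field L]
    [Algebra ℂ L] (P : FF.Place ℂ L) (x : Fin n → L) : Prop :=
  (∀ j, Ge P 0 (x j)) → P.ord (aeval x A) = 0 → ∑ k, P.ord (vl (F k) x) ≠ 1

/-- The rational functions `x 0, ..., x (n - 1)` on the quasi-projective variety `X - D`, with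
generic point `g`, have no simple contacts with the hypersurfaces `F k = 0` of `P^n` outside
`A = 0`: there are forms `h 0, h 1, ...` of the same degree with `x j = h (j + 1) / h 0` and a form
`G0` which does not vanish on `X` such that for all points `g'` of `X` over a field `L`, outside
`G0 = 0` and `h 0 = 0`, and all places `v` of `L` whose centre is not in `D` and at which the values
`x' j` of the `x j` at `g'` are regular, the sum of the orders at `v` of the functions
`F k (1, x' 0, ..., x' (n - 1))` is not one (if these functions and `A (x')` are not zero and the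
order of the last one at `v` is zero). -/
def NoSimpleContact {n p : ℕ} (F : Fin p → MvPolynomial (Fin (n + 1)) ℂ) (A : MvPolynomial (Fin n) ℂ) {N : ℕ}
    (X D : PSet N) {K : Type} [Field K] [Algebra ℂ K] (g : Fin (N + 1) → K) (x : Fin n → K) :
    Prop :=
  ∃ (δ : ℕ) (h : Fin (n + 1) → MvPolynomial (Fin (N + 1)) ℂ) (G0 : MvPolynomial (Fin (N + 1)) ℂ),
    (∀ i, (h i).IsHomogeneous δ) ∧ (∃ E : ℕ, G0.IsHomogeneous E) ∧ aeval g G0 ≠ 0 ∧
    aeval g (h 0) ≠ 0 ∧ (∀ j : Fin n, x j = aeval g (h j.succ) / aeval g (h 0)) ∧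
    ∀ (L : Type) [Field L] [Algebra ℂ L] (g' : Fin (N + 1) → L) (x' : Fin n → L),
      (∀ j : Fin n, x' j = aeval g' (h j.succ) / aeval g' (h 0)) →
      X.Mem g' → aeval g' G0 ≠ 0 → aeval g' (h 0) ≠ 0 →
      ∀ v : FF.Place ℂ L, ¬ CentreIn D g' v → (∀ j, v.Reg (x' j)) →
        (∀ k, vl (F k) x' ≠ 0) → aeval x' A ≠ 0 → v.ord (aeval x' A) = 0 →
        ∑ k, v.ord (vl (F k) x') ≠ 1

variable {n p : ℕ}

/-- algebra homomorphisms and the values of forms -/
theorem vl_map {R S : Type} [CommRing R] [Algebra ℂ R] [CommRing S] [Algebra ℂ S] (f : R →ₐ[ℂ] S)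
    (F : MvPolynomial (Fin (n + 1)) ℂ) (x : Fin n → R) : f (vl F x) = vl F fun j => f (x j) := by
  unfold vl
  rw [← AlgHom.comp_apply, comp_aeval]
  congr 2
  funext j
  refine Fin.cases ?_ (fun j => ?_) j
  · simp
  · simp

/-- polynomials are regular at regular points -/
theorem ge_aeval0 {L : Type} [Field L] [Algebra ℂ L] {P : FF.Place ℂ L} {k : ℕ} {y : Fin k → L}
    (hy : ∀ j, Ge P 0 (y j)) (F : MvPolynomial (Fin k) ℂ) : Ge P 0 (aeval y F) := by
  induction F using MvPolynomial.induction_on with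
  | C c => rw [aeval_C]; exact Ge.const c
  | add p q hp hq => rw [map_add]; exact hp.add hq
  | mul_X p i hp => rw [map_mul, aeval_X]; simpa using hp.mul (hy i)

/-- the order of a product -/
theorem ord_prod' {L : Type} [Field L] [Algebra ℂ L] (v : FF.Place ℂ L) {ι : Type}
    (s : Finset ι) (f : ι → L) (hf : ∀ i ∈ s, f i ≠ 0) :
    v.ord (∏ i ∈ s, f i) = ∑ i ∈ s, v.ord (f i) := by
  classical
  induction s using Finset.induction_on with
  | empty =>
    rw [Finset.prod_empty, Finset.sum_empty]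
    exact v.ord_one
  | insert i s hi ih =>
    rw [Finset.prod_insert hi, Finset.sum_insert hi, v.ord_mul (hf i (Finset.mem_insert_self _ _))
      (Finset.prod_ne_zero_iff.2 fun j hj => hf j (Finset.mem_insert_of_mem hj)),
      ih fun j hj => hf j (Finset.mem_insert_of_mem hj)]

/-- nonnegative integers with sum one -/
theorem sum_one' {ι : Type} [Fintype ι] {e : ι → ℤ} (h0 : ∀ i, 0 ≤ e i) (h1 : ∑ i, e i = 1) :
    ∃ i, e i = 1 ∧ ∀ j, j ≠ i → e j = 0 := by
  classical
  obtain ⟨i, hi⟩ : ∃ i, e i ≠ 0 := by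
    by_contra hcon
    push Not at hcon
    rw [Finset.sum_eq_zero fun i _ => hcon i] at h1
    exact zero_ne_one h1
  have h2 : e i + ∑ j ∈ Finset.univ.erase i, e j = 1 := by
    rw [Finset.add_sum_erase _ _ (Finset.mem_univ i)]
    exact h1
  have h3 : 0 ≤ ∑ j ∈ Finset.univ.erase i, e j := Finset.sum_nonneg fun j _ => h0 j
  have h4 := h0 i
  have h5 : ∑ j ∈ Finset.univ.erase i, e j = 0 := by omega
  refine ⟨i, by omega, fun j hj => ?_⟩
  exact (Finset.sum_eq_zero_iff_of_nonneg fun j _ => h0 j).1 h5 j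
    (Finset.mem_erase.2 ⟨hj, Finset.mem_univ j⟩)

/-- If `w ^ m = A(x) ^ s * ∏ F k (1, x) ^ r k` and `m` divides none of the `r k`, then there are no
simple contacts. -/
theorem noSimple_of_root {F : Fin p → MvPolynomial (Fin (n + 1)) ℂ} {A : MvPolynomial (Fin n) ℂ} {N : ℕ}
    {X D : PSet N} {K : Type} [Field K] [Algebra ℂ K] {g : Fin (N + 1) → K}
    (hK : X.FunctionField K g) {x : Fin n → K} {w : K} {m s : ℕ} {r : Fin p → ℕ}
    (hr : ∀ k, ¬ m ∣ r k) (hw : w ^ m = aeval x A ^ s * ∏ k, vl (F k) x ^ r k) :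
    NoSimpleContact F A X D g x := by
  obtain ⟨δ, h, hh, hh0, hhw⟩ := exists_common hK (Fin.snoc x w : Fin (n + 1) → K)
  have ex : ∀ j : Fin n, x j = aeval g (h j.castSucc.succ) / aeval g (h 0) := fun j => by
    rw [← hhw, Fin.snoc_castSucc]
  have ew : w = aeval g (h (Fin.last n).succ) / aeval g (h 0) := by
    rw [← hhw, Fin.snoc_last]
  refine ⟨δ, Fin.cons (h 0) fun j => h j.castSucc.succ, 1, ?_, ⟨0, isHomogeneous_one _ _⟩, by simp,
    by rw [Fin.cons_zero]; exact hh0, fun j => ?_, ?_⟩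
  · intro i
    refine Fin.cases ?_ (fun i => ?_) i
    · rw [Fin.cons_zero]; exact hh 0
    · rw [Fin.cons_succ]; exact hh _
  · rw [Fin.cons_succ, Fin.cons_zero]
    exact ex j
  · intro L _ _ g' x' hx' hg' _ hg0' v _ hrx hel hAx hA0 hone
    simp only [Fin.cons_succ, Fin.cons_zero] at hx' hg0'
    set w' := aeval g' (h (Fin.last n).succ) / aeval g' (h 0) with hw'
    let Φ : MvPolynomial (Fin (n + 1)) ℂ := MvPolynomial.X (Fin.last n) ^ m -
      rename Fin.castSucc A ^ s *
        ∏ k, vl (F k) (fun j : Fin n => (MvPolynomial.X j.castSucc :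
          MvPolynomial (Fin (n + 1)) ℂ)) ^ r k
    have hval : ∀ {M : Type} [Field M] [Algebra ℂ M] (z : Fin (n + 1) → M),
        aeval z Φ = z (Fin.last n) ^ m - aeval (fun j : Fin n => z j.castSucc) A ^ s *
          ∏ k, vl (F k) (fun j : Fin n => z j.castSucc) ^ r k := by
      intro M _ _ z
      have h1 : aeval z (rename Fin.castSucc A) = aeval (fun j : Fin n => z j.castSucc) A := by
        rw [aeval_rename]
        rfl
      simp only [Φ, map_sub, map_mul, map_pow, aeval_X, h1, map_prod, vl_map]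
    have hF : aeval (fun i : Fin (n + 1) => aeval g (h i.succ) / aeval g (h 0)) Φ = 0 := by
      rw [hval]
      simp only [← ex, ← ew]
      rw [hw, sub_self]
    have hF' := spec_rel hK hh hh0 hF hg' hg0'
    rw [hval] at hF'
    simp only [← hx', ← hw'] at hF'
    have hrel : w' ^ m = aeval x' A ^ s * ∏ k, vl (F k) x' ^ r k := sub_eq_zero.1 hF'
    have hreg : ∀ k, 0 ≤ v.ord (vl (F k) x') := by
      intro k
      refine (v.reg_iff (hel k)).1 ?_
      exact ge_aeval0 (fun j => Fin.cases (v.reg_one) (fun j => hrx j) j) (F k)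
    obtain ⟨i, hi, hj⟩ := sum_one' hreg hone
    have hord := congrArg v.ord hrel
    rw [v.ord_mul (pow_ne_zero _ hAx) (Finset.prod_ne_zero_iff.2 fun j _ =>
      pow_ne_zero _ (hel j)), v.ord_pow, v.ord_pow, hA0, mul_zero, zero_add,
      ord_prod' v _ _ fun j _ => pow_ne_zero _ (hel j), Finset.sum_eq_single i, v.ord_pow, hi,
      mul_one] at hord
    · exact hr i (Int.natCast_dvd_natCast.1 ⟨_, hord.symm⟩)
    · intro j _ hji
      rw [v.ord_pow, hj j hji, mul_zero]
    · exact fun h => absurd (Finset.mem_univ i) h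

/-- **The transfer.** -/
theorem transfer {F : Fin p → MvPolynomial (Fin (n + 1)) ℂ} {A : MvPolynomial (Fin n) ℂ}
    (hcore : ∀ (L : Type) [Field L] [Algebra ℂ L] (d : ℕ) (x : Fin n → L)
      (Bd : FF.Place ℂ L → Prop), Algebra.EssFiniteType ℂ L → 0 < d → Algebra.trdeg ℂ L = d →
      Algebra.IsAlgebraic (IntermediateField.adjoin ℂ (Set.range x)) L →
      (∀ k, vl (F k) x ≠ 0) → aeval x A ≠ 0 → (∀ P, ¬ Bd P → Ctc F A P x) →
      LogGeneralType ℂ L d Bd)
    {N : ℕ} {X D : PSet N} {K : Type} [Field K] [Algebra ℂ K] {g : Fin (N + 1) → K}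
    (hK : X.FunctionField K g) (hD : ¬ D.Mem g) {d : ℕ} (hd : 0 < d)
    (htr : Algebra.trdeg ℂ K = d) {x : Fin n → K}
    (halg : Algebra.IsAlgebraic (IntermediateField.adjoin ℂ (Set.range x)) K)
    (hl : ∀ k, vl (F k) x ≠ 0) (hA : aeval x A ≠ 0) (h : NoSimpleContact F A X D g x) :
    LogGeneralType ℂ K d (CentreIn D g) ∧
      ∃ G : MvPolynomial (Fin (N + 1)) ℂ, (∃ E : ℕ, G.IsHomogeneous E) ∧
        (∃ u : Fin (N + 1) → ℂ, (X.Mem u ∧ ¬ D.Mem u) ∧ eval u G ≠ 0) ∧ LangOff X D G := by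
  obtain ⟨δ, q, G0, hq, hG0, hG0g, hq0, ex, hns⟩ := h
  have ex' : (fun i : Fin n => aeval g (q i.succ) / aeval g (q 0)) = x :=
    funext fun i => (ex i).symm
  let H : MvPolynomial (Fin n) ℂ := A * ∏ k, vl (F k) fun j => MvPolynomial.X j
  have hH : ∀ {L : Type} [Field L] [Algebra ℂ L] (z : Fin n → L),
      aeval z H ≠ 0 ↔ aeval z A ≠ 0 ∧ ∀ k, vl (F k) z ≠ 0 := by
    intro L _ _ z
    simp only [H, map_mul, map_prod, vl_map, aeval_X, mul_ne_zero_iff, Finset.prod_ne_zero_iff]
    simp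
  refine VG.transfer hq (fun L _ _ v z => Ctc F A v z) hG0 (H := H) ?_ ?_ hK hD hG0g hq0
    (by rw [ex']; exact halg) (by rw [ex']; exact (hH x).2 ⟨hA, hl⟩) hd htr
  · intro L _ _ g' hg' h0 h1 h2 P hP hreg hA0
    obtain ⟨h3, h4⟩ := (hH _).1 h2
    exact hns L g' _ (fun i => rfl) hg' h0 h1 P hP (fun j => (reg_iff_ge P _).2 (hreg j)) h4 h3 hA0
  · intro L _ _ d' x' Bd hess hd' htr' halg' hne hst
    obtain ⟨h3, h4⟩ := (hH _).1 hne
    exact hcore L d' x' Bd hess hd' htr' halg' h4 h3 hst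

end Pool.Agent.K9h12.VH
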