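import Pool.Agent.K9h12.VH.Exch
import Pool.Agent.K9h12.VH.Det
import Pool.Agent.K9h12.VH.Nsc

/-!
The local estimate.
-/

set_option autoImplicit false

open FF

namespace Pool.Agent.K9h12.VH

open Pool.Agent.W603.LV Pool.Agent.W602.GT

variable {L : Type} [Field L] [Algebra ℂ L]

variable {n p r m c : ℕ}

/-- the gradient of `F` at `y` -/
noncomputable def gr (F : MvPolynomial (Fin n) ℂ) (y : Fin n → L) : Fin n → L := fun i =>
  MvPolynomial.aeval y (MvPolynomial.pderiv i F)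

/-- derivations of the constants which move the forms `F k` in the directions of forms `B k j`
without common zeros -/
structure Mv (F : Fin p → MvPolynomial (Fin n) ℂ) (B : Fin p → Fin r → MvPolynomial (Fin n) ℂ)
    (e : Fin p → ℕ) (δ : Fin p → Fin r → Derivation ℤ ℂ ℂ) : Prop where
  hom : ∀ k, (F k).IsHomogeneous (e k)
  same : ∀ (L : Type) [Field L] [Algebra ℂ L] (k : Fin p) (j : Fin r) (Δ : Derivation ℤ L L),
    (∀ c, Δ (algebraMap ℂ L c) = algebraMap ℂ L (δ k j c)) → ∀ y : Fin n → L,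
    Δ (MvPolynomial.aeval y (F k)) = MvPolynomial.aeval y (B k j) +
      lf (gr (F k) y) (fun i => Δ (y i))
  other : ∀ (L : Type) [Field L] [Algebra ℂ L] (k : Fin p) (j : Fin r) (Δ : Derivation ℤ L L),
    (∀ c, Δ (algebraMap ℂ L c) = algebraMap ℂ L (δ k j c)) → ∀ (y : Fin n → L) (l : Fin p),
    l ≠ k → Δ (MvPolynomial.aeval y (F l)) = lf (gr (F l) y) (fun i => Δ (y i))
  bpf : ∀ k i, ∃ M : ℕ, (MvPolynomial.X i : MvPolynomial (Fin n) ℂ) ^ M ∈
    Ideal.span (Set.range (B k))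

theorem gr_ge {P : Place ℂ L} {y : Fin n → L} (hy : ∀ j, Ge P 0 (y j))
    (F : MvPolynomial (Fin n) ℂ) (i : Fin n) : Ge P 0 (gr F y i) := ge_aeval0 hy _

/-- the chain rule -/
theorem lf_der (D : Derivation ℂ L L) (F : MvPolynomial (Fin n) ℂ) (y : Fin n → L) :
    lf (gr F y) (fun i => D (y i)) = D (MvPolynomial.aeval y F) := by
  induction F using MvPolynomial.induction_on with
  | C c =>
    unfold lf gr
    simp
  | add p q hp hq =>
    rw [map_add, map_add, ← hp, ← hq]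
    unfold lf gr
    rw [← Finset.sum_add_distrib]
    exact Finset.sum_congr rfl fun i _ => by rw [map_add, map_add]; ring
  | mul_X p i hp =>
    rw [map_mul, MvPolynomial.aeval_X, D.leibniz, ← hp, smul_eq_mul, smul_eq_mul]
    unfold lf gr
    have h1 : ∀ j, MvPolynomial.aeval y (MvPolynomial.pderiv j (p * MvPolynomial.X i)) * D (y j) =
        (if j = i then MvPolynomial.aeval y p * D (y j) else 0) +
        y i * (MvPolynomial.aeval y (MvPolynomial.pderiv j p) * D (y j)) := by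
      intro j
      rw [Derivation.leibniz, MvPolynomial.pderiv_X, Pi.single_apply]
      by_cases hij : j = i
      · subst hij
        simp only [if_true, smul_eq_mul, mul_one, map_add, map_mul, MvPolynomial.aeval_X]
        ring
      · simp only [if_neg hij, if_neg (fun h : i = j => hij h.symm), smul_eq_mul, mul_zero,
          zero_add, map_mul, MvPolynomial.aeval_X]
        ring
    rw [Finset.sum_congr rfl fun j _ => h1 j, Finset.sum_add_distrib, Finset.mul_sum]
    simp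

/-- Euler's relation -/
theorem lf_self {F : MvPolynomial (Fin n) ℂ} {e : ℕ} (hF : F.IsHomogeneous e) (y : Fin n → L) :
    lf (gr F y) y = e * MvPolynomial.aeval y F := by
  have h1 := congrArg (MvPolynomial.aeval y : MvPolynomial (Fin n) ℂ →ₐ[ℂ] L)
    hF.sum_X_mul_pderiv
  rw [map_sum] at h1
  unfold lf gr
  simp only [map_mul, MvPolynomial.aeval_X, nsmul_eq_mul, map_natCast] at h1
  rw [← h1]
  exact Finset.sum_congr rfl fun i _ => by ring

/-- some form of the linear system does not vanish -/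
theorem Mv.unit {F : Fin p → MvPolynomial (Fin n) ℂ} {B : Fin p → Fin r → MvPolynomial (Fin n) ℂ}
    {e : Fin p → ℕ} {δ : Fin p → Fin r → Derivation ℤ ℂ ℂ} (h : Mv F B e δ) {P : Place ℂ L}
    {y : Fin n → L} (hy : ∀ j, Ge P 0 (y j)) (hy1 : ∃ j, y j = 1) (k : Fin p) :
    ∃ j, ¬ Ge P 1 (MvPolynomial.aeval y (B k j)) := by
  by_contra hcon
  push Not at hcon
  obtain ⟨i, hi⟩ := hy1
  obtain ⟨M, hM⟩ := h.bpf k i
  have h1 : ∀ f ∈ Ideal.span (Set.range (B k)), Ge P 1 (MvPolynomial.aeval y f) := by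
    intro f hf
    induction hf using Submodule.span_induction with
    | mem x hx =>
      obtain ⟨j, rfl⟩ := hx
      exact hcon j
    | zero => rw [map_zero]; exact Ge.zero
    | add x y _ _ hx hy => rw [map_add]; exact hx.add hy
    | smul a x _ hx =>
      rw [smul_eq_mul, map_mul]
      simpa using (ge_aeval0 hy a).mul hx
  have h2 := h1 _ hM
  rw [map_pow, MvPolynomial.aeval_X, hi, one_pow] at h2
  rcases h2 with h2 | h2
  · exact one_ne_zero h2
  · rw [P.ord_one] at h2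
    omega

/-- the forms which are not used -/
def un (b : Fin c → Fin p × Fin r) : Finset (Fin p) := Finset.univ.filter fun k => ∀ i, (b i).1 ≠ k

variable {F : Fin p → MvPolynomial (Fin n) ℂ} {B : Fin p → Fin r → MvPolynomial (Fin n) ℂ}
  {e : Fin p → ℕ} {δ : Fin p → Fin r → Derivation ℤ ℂ ℂ}
  {P : Place ℂ L} {Δ : Fin p → Fin r → Derivation ℤ L L} {y : Fin n → L}
  {D : Fin m → Derivation ℂ L L} {b : Fin c → Fin p × Fin r}

theorem vec_ge (hΔ : ∀ k j, VG.Lift (δ k j) P (Δ k j)) (hy : ∀ j, Ge P 0 (y j))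
    (hD : ∀ q, DerReg P (D q)) (i : Ix m c) (j : Fin n) :
    Ge P 0 (vec D (fun i => Δ (b i).1 (b i).2) y i j) := by
  rcases i with _ | q | i
  · exact hy j
  · exact hD q _ (hy j)
  · exact (hΔ _ _).ge 0 _ (hy j)

theorem ph_ge (hy : ∀ j, Ge P 0 (y j)) (s : Fin n ⊕ Fin p) (j : Fin n) :
    Ge P 0 (ph (fun k => gr (F k) y) s j) := by
  rcases s with i | k
  · change Ge P 0 ((Pi.single i 1 : Fin n → L) j)
    rw [Pi.single_apply]
    split_ifs
    · exact Ge.one
    · exact Ge.zero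
  · exact gr_ge hy _ j

/-- there is a minor of least order which contains the forms which vanish -/
theorem loc_exch (hδ : Mv F B e δ) (hΔ : ∀ k j, VG.Lift (δ k j) P (Δ k j))
    (hy : ∀ j, Ge P 0 (y j)) (hy1 : ∃ j, y j = 1)
    (hsp : ∀ k j, (fun i => Δ k j (y i)) ∈ Submodule.span L
      (Set.range (vec D (fun i => Δ (b i).1 (b i).2) y))) :
    (∀ σ, sg (ph fun k => gr (F k) y) (vec D (fun i => Δ (b i).1 (b i).2) y) σ = 0) ∨
      ∃ σ0 : Ix m c → Fin n ⊕ Fin p,
      (∀ k, Ge P 1 (MvPolynomial.aeval y (F k)) → ∃ j, σ0 j = Sum.inr k) ∧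
      ∀ (e : ℤ), Ge P e (sg (ph fun k => gr (F k) y) (vec D (fun i => Δ (b i).1 (b i).2) y) σ0) →
        ∀ σ, Ge P e (sg (ph fun k => gr (F k) y) (vec D (fun i => Δ (b i).1 (b i).2) y) σ) := by
  classical
  set φ : Fin n ⊕ Fin p → Fin n → L := ph fun k => gr (F k) y with hφ
  have hI : ∀ k ∈ (Finset.univ.filter fun k => Ge P 1 (MvPolynomial.aeval y (F k))).image
      (Sum.inr : Fin p → Fin n ⊕ Fin p), ∃ w ∈ Submodule.span L
      (Set.range (vec D (fun i => Δ (b i).1 (b i).2) y)), (∀ l, Ge P 0 (w l)) ∧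
      ¬ Ge P 1 (lf (φ k) w) ∧
      ∀ k' ∈ (Finset.univ.filter fun k => Ge P 1 (MvPolynomial.aeval y (F k))).image
      (Sum.inr : Fin p → Fin n ⊕ Fin p), k' ≠ k → Ge P 1 (lf (φ k') w) := by
    intro k' hk'
    obtain ⟨k, hk, rfl⟩ := Finset.mem_image.1 hk'
    have hk := (Finset.mem_filter.1 hk).2
    obtain ⟨j0, hj0⟩ := hδ.unit hy hy1 k
    refine ⟨fun i => Δ k j0 (y i), hsp k j0, fun l => (hΔ k j0).ge 0 _ (hy l), ?_, ?_⟩
    · intro h
      have e1 := hδ.same L k j0 (Δ k j0) (hΔ k j0).ext y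
      have h1 := ((hΔ k j0).ge 1 _ hk).sub h
      rw [e1, ph_inr, add_sub_cancel_right] at h1
      exact hj0 h1
    · intro l' hl' hne
      obtain ⟨l, hl, rfl⟩ := Finset.mem_image.1 hl'
      have hl := (Finset.mem_filter.1 hl).2
      rw [ph_inr, ← hδ.other L k j0 (Δ k j0) (hΔ k j0).ext y l fun h => hne (by rw [h])]
      exact (hΔ k j0).ge 1 _ hl
  rcases exch P φ (ph_ge hy) (vec D (fun i => Δ (b i).1 (b i).2) y) _ hI with h | ⟨σ0, h1, h2⟩
  · exact Or.inl h
  · refine Or.inr ⟨σ0, fun k hk => h1 _ ?_, h2⟩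
    exact Finset.mem_image_of_mem _ (Finset.mem_filter.2 ⟨Finset.mem_univ _, hk⟩)

/-- **The local estimate.** -/
theorem loc (hδ : Mv F B e δ) (hΔ : ∀ k j, VG.Lift (δ k j) P (Δ k j)) (hy : ∀ j, Ge P 0 (y j))
    (hy1 : ∃ j, y j = 1) (hl : ∀ k, MvPolynomial.aeval y (F k) ≠ 0)
    (hsp : ∀ k j, (fun i => Δ k j (y i)) ∈ Submodule.span L
      (Set.range (vec D (fun i => Δ (b i).1 (b i).2) y))) (σ : Ix m c → Fin n ⊕ Fin p) :
    ((∀ q, DerReg P (D q)) → (∀ q, DerLog P (D q)) →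
        Ge P (∑ k ∈ un b, P.ord (MvPolynomial.aeval y (F k)))
        (sg (ph fun k => gr (F k) y) (vec D (fun i => Δ (b i).1 (b i).2) y) σ)) ∧
      ((∀ q, DerReg P (D q)) → Ge P (∑ k ∈ un b, P.ord (MvPolynomial.aeval y (F k)) - 1)
        (sg (ph fun k => gr (F k) y) (vec D (fun i => Δ (b i).1 (b i).2) y) σ) ∧
        (∑ k ∈ un b, P.ord (MvPolynomial.aeval y (F k)) = 0 →
          Ge P 0 (sg (ph fun k => gr (F k) y) (vec D (fun i => Δ (b i).1 (b i).2) y) σ))) := by
  classical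
  rcases loc_exch (D := D) (b := b) hδ hΔ hy hy1 hsp with h | ⟨σ0, h1, h2⟩
  · rw [h σ]
    exact ⟨fun _ _ => Ge.zero, fun _ => ⟨Ge.zero, fun _ => Ge.zero⟩⟩
  have hl0 : ∀ k, 0 ≤ P.ord (MvPolynomial.aeval y (F k)) := fun k =>
    (ge_aeval0 hy (F k)).resolve_left (hl k)
  -- the columns
  have hex : ∀ k, ∃ j : Ix m c, 0 < P.ord (MvPolynomial.aeval y (F k)) → σ0 j = Sum.inr k := by
    intro k
    by_cases h0 : 0 < P.ord (MvPolynomial.aeval y (F k))
    · obtain ⟨j, hj⟩ := h1 k (Or.inr (by omega))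
      exact ⟨j, fun _ => hj⟩
    · exact ⟨Sum.inl (), fun h => absurd h h0⟩
  choose g hg using hex
  set T0 := (un b).filter fun k => 0 < P.ord (MvPolynomial.aeval y (F k)) with hT0
  have hgF : ∀ k ∈ T0, σ0 (g k) = Sum.inr k := fun k hk => hg k (Finset.mem_filter.1 hk).2
  have hinj : Set.InjOn g T0 := by
    intro k hk l hl' hkl
    have e1 := hgF k hk
    have e2 := hgF l hl'
    rw [hkl, e2] at e1
    exact (Sum.inr_injective e1).symm
  set T := T0.image g with hT
  set h : Ix m c → L := fun j => Sum.elim (fun _ => 1) (fun k => MvPolynomial.aeval y (F k))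
    (σ0 j) with hh
  have hhg : ∀ k ∈ T0, h (g k) = MvPolynomial.aeval y (F k) := fun k hk => by
    simp only [hh]
    rw [hgF k hk, Sum.elim_inr]
  have hsum : ∑ j ∈ T, P.ord (h j) = ∑ k ∈ un b, P.ord (MvPolynomial.aeval y (F k)) := by
    rw [hT, Finset.sum_image hinj, Finset.sum_congr rfl fun k hk => by rw [hhg k hk], hT0,
      Finset.sum_filter_of_ne]
    intro k _ hk
    exact lt_of_le_of_ne (hl0 k) (Ne.symm hk)
  have hTm : ∀ j ∈ T, ∃ k, (∀ i, (b i).1 ≠ k) ∧ 0 < P.ord (MvPolynomial.aeval y (F k)) ∧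
      σ0 j = Sum.inr k ∧ h j = MvPolynomial.aeval y (F k) := by
    intro j hj
    obtain ⟨k, hk, rfl⟩ := Finset.mem_image.1 hj
    have hk' := Finset.mem_filter.1 hk
    exact ⟨k, (Finset.mem_filter.1 hk'.1).2, hk'.2, hgF k hk, hhg k hk⟩
  set v := vec D (fun i => Δ (b i).1 (b i).2) y with hv
  set φ : Fin n ⊕ Fin p → Fin n → L := ph fun k => gr (F k) y with hφ
  have hM : (∀ q, DerReg P (D q)) → ∀ i, ∀ j ∉ T, Ge P 0 ((Matrix.of fun i j =>
      lf (φ (σ0 j)) (v i)) i j) := fun hD i j _ =>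
    lf_ge (ph_ge hy _) fun l => vec_ge hΔ hy hD i l
  -- the entries of the special columns
  have he0 : ∀ k, Ge P 0 (lf (gr (F k) y) (v (Sum.inl ())) / MvPolynomial.aeval y (F k)) := by
    intro k
    have : v (Sum.inl ()) = y := rfl
    rw [this, lf_self (hδ.hom k), mul_div_cancel_right₀ _ (hl k)]
    exact Ge.natCast _
  have he1 : ∀ k q, lf (gr (F k) y) (v (Sum.inr (Sum.inl q))) =
      D q (MvPolynomial.aeval y (F k)) := fun k q => lf_der (D q) (F k) y
  have he2 : ∀ k, (∀ i, (b i).1 ≠ k) → ∀ i,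
      Ge P 0 (lf (gr (F k) y) (v (Sum.inr (Sum.inr i))) / MvPolynomial.aeval y (F k)) := by
    intro k hk i
    have e1 : lf (gr (F k) y) (v (Sum.inr (Sum.inr i))) =
        Δ (b i).1 (b i).2 (MvPolynomial.aeval y (F k)) :=
      (hδ.other L _ _ (Δ (b i).1 (b i).2) (hΔ _ _).ext y k (hk i).symm).symm
    rw [e1]
    have := ge_div (hl k) ((hΔ (b i).1 (b i).2).ge _ _ (ge_ord P (MvPolynomial.aeval y (F k))))
    rwa [sub_self] at this
  refine ⟨fun hD hD' => ?_, fun hD => ⟨?_, fun h0 => ?_⟩⟩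
  · refine h2 _ ?_ σ
    rw [← hsum]
    refine det_ge_log P _ T h (fun j hj => ?_) (hM hD) fun i j hj => ?_
    · obtain ⟨k, -, -, -, h6⟩ := hTm j hj
      rw [h6]
      exact hl k
    · obtain ⟨k, hk, -, h5, h6⟩ := hTm j hj
      rw [Matrix.of_apply, h5, h6, ph_inr]
      rcases i with _ | q | i
      · exact he0 k
      · rw [he1]
        exact ge_logder_log (hD' q) _
      · exact he2 k hk i
  · refine h2 _ ?_ σ
    rw [← hsum]
    obtain ⟨π, hπ0, hπ⟩ := P.surj
    refine det_ge_reg P _ T h (fun j hj => ?_) (hM hD)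
      (Sum.elim (fun _ => 0) (Sum.elim (fun q => D q π / π) fun _ => 0)) (fun i => ?_)
      fun i j hj => ?_
    · obtain ⟨k, -, h4, -, h6⟩ := hTm j hj
      rw [h6]
      exact ⟨hl k, h4.ne'⟩
    · rcases i with _ | q | i
      · exact Ge.zero
      · have := ge_div hπ0 (hD q π (Or.inr (by omega)))
        rw [hπ] at this
        simpa using this
      · exact Ge.zero
    · obtain ⟨k, hk, -, h5, h6⟩ := hTm j hj
      rw [Matrix.of_apply, h5, h6, ph_inr]
      rcases i with _ | q | i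
      · simpa using he0 k
      · simp only [Sum.elim_inr, Sum.elim_inl]
        obtain ⟨u, hu0, hu1, -, hu2⟩ := logder_eq P (D q) hπ (hl k)
        rw [he1, hu2, add_sub_cancel_right]
        exact ge_logder_reg (hD q) hu0 hu1
      · simpa using he2 k hk i
  · refine h2 _ ?_ σ
    have := det_ge_log P (Matrix.of fun i j => lf (φ (σ0 j)) (v i)) ∅ h (by simp)
      (fun i j _ => lf_ge (ph_ge hy _) fun l => vec_ge hΔ hy hD i l) (by simp)
    rw [Finset.sum_empty] at this
    exact this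

end Pool.Agent.K9h12.VH
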