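import Pool.Agent.W601.PH.Quasi

/-!
Extension of holomorphic maps through finite morphisms given by linear systems.
-/

set_option autoImplicit false

open MvPolynomial Metric Filter Topology

namespace Pool.Agent.K9h12.VH

open Pool.Agent.W603.BP Pool.Agent.W601.PH

/-- the vector of the values of the forms `B j` -/
noncomputable def sysVal {n r : ℕ} (B : Fin (r + 1) → MvPolynomial (Fin (n + 1)) ℂ)
    (u : Fin (n + 1) → ℂ) : Fin (r + 1) → ℂ := fun j => aeval u (B j)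

theorem sysVal_smul {n r e : ℕ} {B : Fin (r + 1) → MvPolynomial (Fin (n + 1)) ℂ}
    (hB : ∀ j, (B j).IsHomogeneous e) (t : ℂ) (u : Fin (n + 1) → ℂ) :
    sysVal B (t • u) = t ^ e • sysVal B u := by
  funext j
  change aeval (t • u) (B j) = t ^ e * aeval u (B j)
  have h1 : ∀ x : Fin (n + 1) → ℂ, aeval x (B j) = eval x (B j) := fun x => by
    rw [MvPolynomial.aeval_eq_eval]
  rw [h1, h1]
  exact Pool.Agent.W601.SM.eval_smul_hom' (hB j) t u

theorem sysVal_lower {n r e : ℕ} {B : Fin (r + 1) → MvPolynomial (Fin (n + 1)) ℂ}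
    (hB : ∀ j, (B j).IsHomogeneous e)
    (hbpf : ∀ u : Fin (n + 1) → ℂ, u ≠ 0 → ∃ j, aeval u (B j) ≠ 0) (he : 0 < e) :
    ∃ c : ℝ, 0 < c ∧ ∀ u : Fin (n + 1) → ℂ, c * ‖u‖ ^ e ≤ ‖sysVal B u‖ := by
  have hcont : Continuous fun u => ‖sysVal B u‖ := by
    refine continuous_norm.comp (continuous_pi fun j => ?_)
    have h1 : (fun u : Fin (n + 1) → ℂ => sysVal B u j) = fun u => eval u (B j) := by
      funext x
      change aeval x (B j) = eval x (B j)
      rw [MvPolynomial.aeval_eq_eval]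
    rw [h1]
    exact MvPolynomial.continuous_eval (B j)
  obtain ⟨u0, hu0, hmin⟩ := (isCompact_sphere (0 : Fin (n + 1) → ℂ) 1).exists_isMinOn
    ((NormedSpace.sphere_nonempty (E := Fin (n + 1) → ℂ)).2 zero_le_one) hcont.continuousOn
  have hu0n : ‖u0‖ = 1 := by simpa using hu0
  have hu00 : u0 ≠ 0 := by
    intro h
    rw [h, norm_zero] at hu0n
    exact zero_ne_one hu0n
  refine ⟨‖sysVal B u0‖, ?_, fun u => ?_⟩
  · rw [norm_pos_iff]
    intro h
    obtain ⟨j, hj⟩ := hbpf u0 hu00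
    exact hj (congrFun h j)
  · by_cases hu : u = 0
    · rw [hu, norm_zero, zero_pow he.ne', mul_zero]
      exact norm_nonneg _
    have hn : 0 < ‖u‖ := norm_pos_iff.2 hu
    have h1 : u = ((‖u‖ : ℝ) : ℂ) • (((‖u‖ : ℝ) : ℂ)⁻¹ • u) := by
      rw [smul_smul, mul_inv_cancel₀ (by exact_mod_cast hn.ne'), one_smul]
    have h2 : (((‖u‖ : ℝ) : ℂ)⁻¹ • u) ∈ sphere (0 : Fin (n + 1) → ℂ) 1 := by
      rw [mem_sphere_zero_iff_norm, norm_smul, norm_inv, Complex.norm_real, norm_norm,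
        inv_mul_cancel₀ hn.ne']
    have h3 := hmin h2
    have h3' : ‖sysVal B u0‖ ≤ ‖sysVal B (((‖u‖ : ℝ) : ℂ)⁻¹ • u)‖ := h3
    calc ‖sysVal B u0‖ * ‖u‖ ^ e ≤ ‖sysVal B (((‖u‖ : ℝ) : ℂ)⁻¹ • u)‖ * ‖u‖ ^ e :=
          mul_le_mul_of_nonneg_right h3' (by positivity)
      _ = ‖sysVal B (((‖u‖ : ℝ) : ℂ) • (((‖u‖ : ℝ) : ℂ)⁻¹ • u))‖ := by
          rw [sysVal_smul hB ((‖u‖ : ℝ) : ℂ), norm_smul, norm_pow, Complex.norm_real, norm_norm]
          ring
      _ = ‖sysVal B u‖ := by rw [← h1]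

/-- A holomorphic map from the punctured disc to `P^n` extends if its composition with the morphism
`P^n → P^r` given by forms `B j` of degree `e` without common zeros extends. -/
theorem extends_of_sys {n r e : ℕ} (he : 0 < e) {B : Fin (r + 1) → MvPolynomial (Fin (n + 1)) ℂ}
    (hB : ∀ j, (B j).IsHomogeneous e)
    (hbpf : ∀ u : Fin (n + 1) → ℂ, u ≠ 0 → ∃ j, aeval u (B j) ≠ 0)
    {v : ℂ → Fin (n + 1) → ℂ} (hv : ∀ j, AnalyticOnNhd ℂ (fun z => v z j) (PB 1))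
    (hnz : ∀ z ∈ PB 1, v z ≠ 0)
    (h : Extends (n := r) fun z j => aeval (v z) (B j)) : Extends v := by
  obtain ⟨g, hg1, hg2, hg3⟩ := h
  have h0 : (0 : ℂ) ∈ ball (0 : ℂ) 1 := mem_ball_self one_pos
  obtain ⟨i0, hi0⟩ := Function.ne_iff.mp (hg2 0 h0)
  have hi0' : g 0 i0 ≠ 0 := hi0
  obtain ⟨c, hc, hlow⟩ := sysVal_lower hB hbpf he
  set b : ℂ → ℂ := fun z => aeval (v z) (B i0) with hb
  -- the extended curve is bounded by its coordinate `i0`
  obtain ⟨C, hC⟩ : ∃ C : ℝ, ∀ᶠ w in 𝓝[≠] (0 : ℂ), ‖g w‖ ≤ C * ‖g w i0‖ := by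
    have hgc : ContinuousAt g 0 :=
      (hg1.differentiableAt (isOpen_ball.mem_nhds h0)).continuousAt
    have hgi : ContinuousAt (fun w => g w i0) 0 := (continuous_apply i0).continuousAt.comp hgc
    have h1 : ∀ᶠ w in 𝓝 (0 : ℂ), ‖g w‖ < ‖g 0‖ + 1 :=
      hgc.norm.eventually_lt_const (lt_add_one _)
    have h2 : ∀ᶠ w in 𝓝 (0 : ℂ), ‖g 0 i0‖ / 2 < ‖g w i0‖ :=
      hgi.norm.eventually_const_lt (half_lt_self (norm_pos_iff.2 hi0'))
    refine ⟨(‖g 0‖ + 1) * (2 / ‖g 0 i0‖), ?_⟩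
    filter_upwards [nhdsWithin_le_nhds h1, nhdsWithin_le_nhds h2] with w h3 h4
    have h5 : 0 < ‖g 0 i0‖ := norm_pos_iff.2 hi0'
    have h6 : 1 ≤ 2 / ‖g 0 i0‖ * ‖g w i0‖ := by
      rw [div_mul_eq_mul_div, le_div_iff₀ h5]
      linarith
    calc ‖g w‖ ≤ (‖g 0‖ + 1) * 1 := by linarith
      _ ≤ (‖g 0‖ + 1) * (2 / ‖g 0 i0‖ * ‖g w i0‖) :=
          mul_le_mul_of_nonneg_left h6 (by positivity)
      _ = _ := by ring
  have hest : ∀ᶠ w in 𝓝[≠] (0 : ℂ), ‖v w‖ ^ e ≤ c⁻¹ * C * ‖b w‖ := by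
    filter_upwards [hC, PB_mem one_pos] with w h1 h2
    obtain ⟨t, ht⟩ := hg3 w (mem_disc.mpr h2)
    have h3 : ‖sysVal B (v w)‖ = ‖t‖ * ‖g w‖ := by
      have : sysVal B (v w) = t • g w := ht
      rw [this, norm_smul]
    have h4 : ‖b w‖ = ‖t‖ * ‖g w i0‖ := by
      have : b w = t * g w i0 := congrFun ht i0
      rw [this, norm_mul]
    have h5 := hlow (v w)
    have h6 : ‖sysVal B (v w)‖ ≤ C * ‖b w‖ := by
      rw [h3, h4]
      calc ‖t‖ * ‖g w‖ ≤ ‖t‖ * (C * ‖g w i0‖) := mul_le_mul_of_nonneg_left h1 (norm_nonneg _)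
        _ = _ := by ring
    calc ‖v w‖ ^ e = c⁻¹ * (c * ‖v w‖ ^ e) := by
          rw [← mul_assoc, inv_mul_cancel₀ hc.ne', one_mul]
      _ ≤ c⁻¹ * (C * ‖b w‖) := mul_le_mul_of_nonneg_left (h5.trans h6) (inv_nonneg.2 hc.le)
      _ = _ := by ring
  have hP : ∀ j, Pun (fun w => v w j) := fun j => on_pun one_pos (hv j)
  have hbP : Pun b := by
    filter_upwards [PB_mem one_pos] with w hw
    have h1 : b = fun z => eval (v z) (B i0) := by
      funext z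
      change aeval (v z) (B i0) = eval (v z) (B i0)
      rw [MvPolynomial.aeval_eq_eval]
    rw [h1]
    exact eval_an (fun j => hv j w hw) (B i0)
  have hbn : Nz b := by
    intro h1
    obtain ⟨w, h2, h3, h4⟩ := (hest.and (h1.and (PB_mem one_pos))).exists
    have h5 : b w = 0 := h3
    rw [h5, norm_zero, mul_zero] at h2
    have h6 : 0 < ‖v w‖ ^ e := pow_pos (norm_pos_iff.2 (hnz w h4)) _
    linarith
  have hgr : ∀ j, Gr (fun w => v w j ^ e) b := by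
    intro j
    refine ⟨c⁻¹ * C, 0, ?_⟩
    filter_upwards [hest] with w hw
    rw [pow_zero, mul_one, norm_pow]
    exact (pow_le_pow_left₀ (norm_nonneg _) (norm_le_pi_norm (v w) j) e).trans hw
  refine extends_of v hv hnz fun j k hj hk => ?_
  have h1 : MRel (fun w => v w k ^ e) b := growth_mero ((hP k).pow e) hbP hbn (hgr k)
  have h2 : Gr b (fun w => v w k ^ e) := (h1.symm (hk.pow e)).gr
  exact growth_mero (hP j) (hP k) hk (gr_of_pow he ((hgr j).trans h2))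

end Pool.Agent.K9h12.VH
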