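import Pool.Agent.K9h12.VH.Fin
import Pool.Agent.K9h12.VH.Bi
import Pool.Agent.K9h12.VH.Ind
import Pool.Agent.K9h12.VH.Disc2
import Pool.Agent.K9h12.VH.Sim
import Pool.Agent.W601.PH.Curve
import Pool.Agent.K9h12.VH.Sys

/-!
Quasi-projective varieties over projective space without simple contacts with very general
hypersurfaces: the main theorems.
-/

set_option autoImplicit false
set_option linter.unusedSectionVars false

open MvPolynomial Metric Filter Topology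

namespace Pool.Agent.K9h12.VH

open Pool.Agent.W602.Cov Pool.Agent.W602.Cov.Cover Pool.Agent.W602.Cov.R Pool.Agent.W603.BP
open Pool.Agent.W601.PH Pool.Agent.W602.GT
open Pool.Agent.TH152.HY hiding main
open Pool.Agent.Y191 (SemiAbelianOff semi_of_brody)
open Pool.Agent.Y190.SC (FiniteOver)
open Pool.Agent.TH152.DS (Effective UniformOverPn)

variable {N n p r : ℕ}

section main

variable {𝕜 : Type} [Field 𝕜] [Algebra 𝕜 ℂ]

variable {e : Fin p → ℕ} {H : Fin p → MvPolynomial (Fin (n + 1)) 𝕜}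
    {B : Fin p → Fin r → MvPolynomial (Fin (n + 1)) 𝕜} {a : Fin p → Fin r → ℂ}

/-- **The main theorem.** -/
theorem main (hF : Fam e H B a) {A : MvPolynomial (Fin (n + 1)) ℂ} {d : ℕ}
    (hA : A.IsHomogeneous d) (hp : Big (n + 1) 1 e d) {X D : BiSet N n} {G1 : BiPoly N n}
    {a1 b1 : ℕ} (hG1 : BiHom G1 a1 b1) (hns : NoSimple G1 (mem H B a) e A d X D) {K : Type}
    [Field K] [Algebra ℂ K] {x : Fin (N + 1) → K} {y : Fin (n + 1) → K}
    (hK : X.FunctionField K x y) (hD : ¬ D.Mem x y) (hG1x : aeval (Sum.elim x y) G1 ≠ 0)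
    (halg : Algebra.IsAlgebraic
      (IntermediateField.adjoin ℂ {f : K | ∃ i j, y j ≠ 0 ∧ f = y i / y j}) K)
    (hy : ∀ k, aeval y (mem H B a k) ≠ 0) (hyA : aeval y A ≠ 0) {t : ℕ}
    (ht : Algebra.trdeg ℂ K = t) (ht1 : 0 < t) :
    ∃ (G : BiPoly N n) (E E' : ℕ), BiHom G E E' ∧
      (∃ u v, QMem X D u v ∧ eval (Sum.elim u v) G ≠ 0) ∧
      LogGeneralType ℂ K t (CentreIn D x y) ∧ LangOff X D G ∧ UniformOverPn X D G 2 ∧
      ((∀ u v, QDisc X D u v → (∃ z ∈ PB 1, eval (Sum.elim (u z) (v z)) G1 ≠ 0) →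
        (∃ z ∈ PB 1, aeval (v z) ((∏ k, mem H B a k) * A) ≠ 0) →
        Extends v) → PicardOff X D G ∧ BrodyOff X D G ∧ SemiAbelianOff X D G) ∧
      (FiniteOver X → G = G1 * rename Sum.inr ((∏ k, mem H B a k) * A)) := by
  obtain ⟨δ, hmv⟩ := hF.move
  refine bi_transfer hK hD halg hG1 hG1x (Q1 := (∏ k, mem H B a k) * A)
    ((IsHomogeneous.prod _ _ _ fun k _ => hmv.hom k).mul hA) ?_ ?_ ht ht1
  · rw [map_mul, map_prod]
    exact mul_ne_zero (Finset.prod_ne_zero_iff.2 fun k _ => hy k) hyA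
  · intro L _ _ x' y' d' hmem hne1 hne hess halg' htr hd'
    rw [map_mul, map_prod] at hne
    obtain ⟨h1, h2⟩ := mul_ne_zero_iff.1 hne
    have h1 : ∀ k, aeval y' (mem H B a k) ≠ 0 := fun k =>
      Finset.prod_ne_zero_iff.1 h1 k (Finset.mem_univ k)
    exact core hmv hA (hp.mono hd') hmem.2.1 hess hd' htr halg' h1 h2 fun P hP =>
      hns L x' y' hmem hne1 h1 h2 P hP

end main

/-- the members of a linear system: `Σ_j a k j • B j` -/
noncomputable def sys {𝕜 : Type} [Field 𝕜] [Algebra 𝕜 ℂ] (B : Fin (r + 1) → MvPolynomial (Fin (n + 1)) 𝕜)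
    (a : Fin p → Fin (r + 1) → ℂ) (k : Fin p) : MvPolynomial (Fin (n + 1)) ℂ :=
  ∑ j, C (a k j) * MvPolynomial.map (algebraMap 𝕜 ℂ) (B j)

/-- the contact orders are nonnegative -/
theorem norm_le {L : Type} [Field L] [Algebra ℂ L] {P : FF.Place ℂ L} {y : Fin (n + 1) → L}
    {c : ℤ} (hc : Norm P y c) {F : MvPolynomial (Fin (n + 1)) ℂ} {e : ℕ} (hF : F.IsHomogeneous e)
    (h0 : aeval y F ≠ 0) : ∃ w : ℕ, P.ord (aeval y F) = e * c + w := by
  obtain ⟨j0, hj0, hjc⟩ := hc.2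
  have h2 : ∀ j, Pool.Agent.W603.LV.Ge P 0 (y j / y j0) := fun j => by
    have h3 : Pool.Agent.W603.LV.Ge P c (y j) := by
      by_cases h0 : y j = 0
      · exact Or.inl h0
      · exact Or.inr (hc.1 j h0)
    have := Pool.Agent.W602.GT.ge_div hj0 h3
    rwa [hjc, sub_self] at this
  have h3 : aeval y F = y j0 ^ e * aeval (fun j => y j / y j0) F := by
    have h4 : aeval (fun j => y j0 * (y j / y j0)) F = y j0 ^ e * aeval (fun j => y j / y j0) F :=
      Pool.Agent.W602.GT.val_smul hF (y j0) fun j => y j / y j0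
    rw [← h4]
    congr 2
    funext j
    field_simp
  have h5 : aeval (fun j => y j / y j0) F ≠ 0 := fun h => h0 (by rw [h3, h, mul_zero])
  obtain ⟨w, hw⟩ := Int.eq_ofNat_of_zero_le ((ge_aeval0 h2 F).resolve_left h5)
  exact ⟨w, by rw [h3, P.ord_mul (pow_ne_zero _ hj0) h5, P.ord_pow, hjc, hw]⟩

/-- ramified varieties have no simple contacts -/
theorem Ram.noSimple {F : Fin p → MvPolynomial (Fin (n + 1)) ℂ} {e : ℕ}
    (hF : ∀ k, (F k).IsHomogeneous e) {s : ℝ} (hs : 0 < s) {X D : BiSet N n} {G1 : BiPoly N n}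
    (h : Ram G1 F e s X D) : NoSimple G1 F (fun _ => e) 1 0 X D := by
  classical
  intro L _ _ x y hxy hG1 hl _ P hP c hc _ hone
  choose w hw using fun i => norm_le hc (hF i) (hl i)
  have h1 := h L x y hxy hG1 hl P hP c w hc hw
  have h2 : ∑ i, w i = 1 := by
    have h3 : ∑ k, (P.ord (aeval y (F k)) - (e : ℤ) * c) = ((∑ i, w i : ℕ) : ℤ) := by
      rw [Nat.cast_sum]
      refine Finset.sum_congr rfl fun k _ => ?_
      rw [hw]
      ring
    rw [h3] at hone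
    exact_mod_cast hone
  rw [← Finset.mul_sum, ← Nat.cast_sum, h2] at h1
  have h4 : 1 ≤ (Finset.univ.filter fun i => w i ≠ 0).card := by
    rw [Nat.one_le_iff_ne_zero, Finset.card_ne_zero]
    by_contra hcon
    rw [Finset.not_nonempty_iff_eq_empty, Finset.filter_eq_empty_iff] at hcon
    push Not at hcon
    rw [Finset.sum_eq_zero fun i _ => hcon (Finset.mem_univ i)] at h2
    exact zero_ne_one h2
  have h5 : (1 : ℝ) ≤ (Finset.univ.filter fun i => w i ≠ 0).card := by exact_mod_cast h4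
  push_cast at h1
  linarith

section sys

variable {𝕜 : Type} [Field 𝕜] [Algebra 𝕜 ℂ] {B : Fin (r + 1) → MvPolynomial (Fin (n + 1)) 𝕜}
    {a : Fin p → Fin (r + 1) → ℂ} {e : ℕ}

theorem sys_hom (hB : ∀ j, (B j).IsHomogeneous e) (k : Fin p) :
    (sys B a k).IsHomogeneous e := by
  unfold sys
  refine IsHomogeneous.sum _ _ _ fun j _ => ?_
  have := (isHomogeneous_C (Fin (n + 1)) (a k j)).mul ((hB j).map (algebraMap 𝕜 ℂ))
  rwa [zero_add] at this

theorem mem_sys : mem (fun _ => (0 : MvPolynomial (Fin (n + 1)) 𝕜)) (fun _ => B) a = sys B a := by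
  funext k
  unfold mem sys
  rw [map_zero, zero_add]

/-- a linear system is a family -/
theorem fam_sys (hB : ∀ j, (B j).IsHomogeneous e)
    (hbpf : ∀ u : Fin (n + 1) → ℂ, u ≠ 0 → ∃ j, aeval u (B j) ≠ 0)
    (ha : AlgebraicIndependent 𝕜 fun x : Fin p × Fin (r + 1) => a x.1 x.2) :
    Fam (fun _ : Fin p => e) (fun _ => (0 : MvPolynomial (Fin (n + 1)) 𝕜)) (fun _ => B) a :=
  ⟨fun _ => isHomogeneous_zero _ _ _, fun _ => hB, fun _ => hbpf, ha⟩

/-- the number of the hypersurfaces is large enough -/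
theorem big_sys (he : 1 ≤ e) (hp : 4 * n + 1 ≤ p) :
    Big (n + 1) 1 (fun _ : Fin p => e) 0 := by
  intro T hT
  have h1 := Finset.card_compl_add_card T
  rw [Fintype.card_fin] at h1
  simp only [Finset.sum_const, smul_eq_mul]
  obtain ⟨q, hq⟩ : ∃ q, (Tᶜ).card = T.card + 2 * n + 3 + q := ⟨(Tᶜ).card - (T.card + 2 * n + 3), by omega⟩
  rw [hq]
  nlinarith

/-- holomorphic maps from the punctured disc -/
theorem disc_ext (hr : 1 ≤ r) (he : 1 ≤ e) (hB : ∀ j, (B j).IsHomogeneous e)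
    (hbpf : ∀ u : Fin (n + 1) → ℂ, u ≠ 0 → ∃ j, aeval u (B j) ≠ 0)
    (ha : AlgebraicIndependent 𝕜 fun x : Fin p × Fin (r + 1) => a x.1 x.2) {s : ℝ} (hs : 0 < s)
    (hs1 : s ≤ 1) {M : ℕ} (hM : 2 * r ≤ M * s) (hq : (r + M).choose r < p) {X D : BiSet N n}
    {G1 : BiPoly N n} (h : Ram G1 (sys B a) e s X D) {u : ℂ → Fin (N + 1) → ℂ}
    {v : ℂ → Fin (n + 1) → ℂ} (huv : QDisc X D u v)
    (hne1 : ∃ z ∈ PB 1, eval (Sum.elim (u z) (v z)) G1 ≠ 0)
    (hne : ∃ z ∈ PB 1, aeval (v z) ((∏ k, sys B a k) * 1) ≠ 0) :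
    Extends v := by
  obtain ⟨k, hk1, hk2⟩ := weights hr hs hM hq
  have hv := fun j => an_of_diffOn huv.diffv j
  have hmem : ∀ z ∈ PB 1, QMem X D (u z) (v z) := fun z hz => huv.mem z (mem_disc.mpr hz)
  have hvnz : ∀ z ∈ PB 1, v z ≠ 0 := fun z hz => (hmem z hz).1.2.1
  -- the composition with the morphism given by the linear system
  have hB' : ∀ j, (MvPolynomial.map (algebraMap 𝕜 ℂ) (B j)).IsHomogeneous e := fun j => (hB j).map _
  have hev : ∀ (y : Fin (n + 1) → ℂ) (j : Fin (r + 1)),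
      aeval y (MvPolynomial.map (algebraMap 𝕜 ℂ) (B j)) = aeval y (B j) := fun y j => by
    rw [aeval_map_algebraMap]
  set v' : ℂ → Fin (r + 1) → ℂ := fun z j => aeval (v z) (MvPolynomial.map (algebraMap 𝕜 ℂ) (B j))
    with hv'
  have hsys : ∀ (z : ℂ) (i : Fin p), aeval (v z) (sys B a i) = ∑ j, a i j * v' z j := fun z i => by
    unfold sys
    rw [map_sum]
    refine Finset.sum_congr rfl fun j _ => ?_
    rw [map_mul, aeval_C, Algebra.algebraMap_self, RingHom.id_apply]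
  have hv'an : ∀ j, AnalyticOnNhd ℂ (fun z => v' z j) (PB 1) := fun j z hz =>
    AnalyticAt.aeval_mvPolynomial (fun i => hv i z hz) _
  have hv'nz : ∀ z ∈ PB 1, v' z ≠ 0 := by
    intro z hz h0
    obtain ⟨j, hj⟩ := hbpf (v z) (hvnz z hz)
    apply hj
    rw [← hev]
    exact congrFun h0 j
  refine extends_of_sys (by omega) hB' (fun u hu => ?_) hv hvnz ?_
  · obtain ⟨j, hj⟩ := hbpf u hu
    exact ⟨j, by rw [hev]; exact hj⟩
  rcases curve_picard (wt := fun _ : Fin p => s) hr (ind_of_indep hk1 ha) (fun _ => hs.le)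
    (fun _ => hs1) (by simpa using hk2) hv'an hv'nz
    (fun z hz w hw => disc_cond2 (Φ := fun w => ((Finset.univ.filter fun i => w i ≠ 0).card : ℝ) ≤
      ∑ i, (1 - s) * (w i : ℝ)) h huv hne1 hz w (fun i => by
        rw [← hw i]
        congr 1
        funext z
        exact hsys z i)) with h1 | ⟨h0, _, _, hr⟩
  · exfalso
    obtain ⟨i, hi⟩ := h1
    obtain ⟨z, hz, hz1⟩ := hne
    apply hz1
    rw [map_mul, map_prod, Finset.prod_eq_zero (Finset.mem_univ i), zero_mul]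
    rw [hsys]
    exact hi z hz
  · exact extends_mrel hv'an hv'nz hr

/-- **Linear systems.** -/
theorem main_sys (hr : 1 ≤ r) (he : 1 ≤ e) (hB : ∀ j, (B j).IsHomogeneous e)
    (hbpf : ∀ u : Fin (n + 1) → ℂ, u ≠ 0 → ∃ j, aeval u (B j) ≠ 0)
    (ha : AlgebraicIndependent 𝕜 fun x : Fin p × Fin (r + 1) => a x.1 x.2) {s : ℝ} (hs : 0 < s)
    (hs1 : s ≤ 1) {M : ℕ} (hM : 2 * r ≤ M * s) (hq : (r + M).choose r < p)
    (hp : 4 * n + 1 ≤ p) {X D : BiSet N n} {G1 : BiPoly N n} {a1 b1 : ℕ} (hG1 : BiHom G1 a1 b1)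
    (hram : Ram G1 (sys B a) e s X D) {K : Type} [Field K] [Algebra ℂ K]
    {x : Fin (N + 1) → K} {y : Fin (n + 1) → K} (hK : X.FunctionField K x y) (hD : ¬ D.Mem x y)
    (hG1x : aeval (Sum.elim x y) G1 ≠ 0)
    (halg : Algebra.IsAlgebraic
      (IntermediateField.adjoin ℂ {f : K | ∃ i j, y j ≠ 0 ∧ f = y i / y j}) K)
    (hy : ∀ k, aeval y (sys B a k) ≠ 0) {t : ℕ}
    (ht : Algebra.trdeg ℂ K = t) (ht1 : 0 < t) :
    ∃ (G : BiPoly N n) (E E' : ℕ), BiHom G E E' ∧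
      (∃ u v, QMem X D u v ∧ eval (Sum.elim u v) G ≠ 0) ∧
      LogGeneralType ℂ K t (CentreIn D x y) ∧ LangOff X D G ∧ UniformOverPn X D G 2 ∧
      PicardOff X D G ∧ BrodyOff X D G ∧ SemiAbelianOff X D G ∧
      (FiniteOver X → G = G1 * rename Sum.inr (∏ k, sys B a k)) := by
  have h1 := hram.noSimple (sys_hom hB) hs
  rw [← mem_sys] at h1
  obtain ⟨G, E, E', g1, g2, g3, g4, g40, g5, g6⟩ := main (fam_sys hB hbpf ha) (isHomogeneous_one _ _)
    (big_sys he hp) hG1 h1 hK hD hG1x halg (fun k => by rw [mem_sys]; exact hy k)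
    (by rw [map_one]; exact one_ne_zero) ht ht1
  rw [mem_sys] at g5 g6
  obtain ⟨g7, g8, g9⟩ := g5 fun u v huv hne1 hne =>
    disc_ext hr he hB hbpf ha hs hs1 hM hq hram huv hne1 hne
  exact ⟨G, E, E', g1, g2, g3, g4, g40, g7, g8, g9, fun h => by rw [g6 h, mul_one]⟩

end sys

end Pool.Agent.K9h12.VH
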